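import Mathlib

/-!
Orders of vanishing along a prime element under a transversal derivation.
-/

namespace Pool.Agent.MP_249f74_an.H65

section Par

variable {k A : Type} [CommRing k] [CommRing A] [Algebra k A] [IsDomain A] [Algebra ℚ A]

/-- A sequence of normal derivatives. -/
def Sq (D : Derivation k A A) (g : A) (s : ℕ → A) : Prop := ∀ i, D (s i) = -g * s (i + 1)

omit [IsDomain A] [Algebra ℚ A] in
lemma Sq.tail {D : Derivation k A A} {g : A} {s : ℕ → A} (h : Sq D g s) :
    Sq D g fun i => s (i + 1) := fun i => h (i + 1)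

omit [IsDomain A] in
lemma dvd_of_nat {g a : A} {n : ℕ} (hn : n ≠ 0) (h : g ∣ (n : A) * a) : g ∣ a := by
  have : a = algebraMap ℚ A (n : ℚ)⁻¹ * ((n : A) * a) := by
    rw [← mul_assoc, ← map_natCast (algebraMap ℚ A), ← map_mul,
      inv_mul_cancel₀ (by exact_mod_cast hn), map_one, one_mul]
  rw [this]
  exact h.mul_left _

omit [Algebra ℚ A] in
lemma Sq.step {D : Derivation k A A} {g : A} {s : ℕ → A} (h : Sq D g s) (g0 : g ≠ 0) {m : ℕ}
    {E : A} (e : s 0 = g ^ (m + 2) * E) :
    s 1 = g ^ m * -(((m + 2 : ℕ) : A) * D g * E + g * D E) := by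
  have h1 := h 0
  rw [e, D.leibniz, D.leibniz_pow] at h1
  refine mul_left_cancel₀ g0 ?_
  simp only [smul_eq_mul, nsmul_eq_mul, Nat.add_one_sub_one, zero_add] at h1
  push_cast at h1 ⊢
  linear_combination h1

/-- The order of a line polynomial along the tangent lines is even. -/
theorem par {D : Derivation k A A} {g : A} (hg : Prime g) (hD : ¬ g ∣ D g) (m : ℕ) :
    ∀ {s : ℕ → A} {E : A}, Sq D g s → s 0 = g ^ m * E → ¬ g ∣ E → Even m := by
  induction m using Nat.strong_induction_on with
  | _ m ih =>
  intro s E h e hE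
  rcases m with _ | _ | m
  · simp
  · exfalso
    have h1 := h 0
    rw [e, D.leibniz, D.leibniz_pow] at h1
    simp only [smul_eq_mul, zero_add, pow_one, Nat.sub_self, pow_zero, one_smul, one_mul] at h1
    have : g ∣ E * D g := ⟨-s 1 - D E, by linear_combination h1⟩
    exact (hg.dvd_or_dvd this).elim hE hD
  · have h1 := h.step hg.ne_zero e
    have h2 := ih m (by omega) h.tail h1 fun h3 => by
      rw [dvd_neg, dvd_add_left (dvd_mul_right _ _), mul_assoc] at h3
      exact (hg.dvd_or_dvd (dvd_of_nat (by omega) h3)).elim hD hE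
    exact h2.add even_two

/-- The two leading coefficients of a line polynomial along the tangent lines. -/
theorem laz {D : Derivation k A A} {g : A} (g0 : g ≠ 0) (j : ℕ) :
    ∀ {s : ℕ → A} {E : A}, Sq D g s → s 0 = g ^ (2 * j) * E →
      g ∣ D g ^ j * (3 * D g * D E + 2 * j * E * D (D g)) := by
  induction j with
  | zero =>
    intro s E h e
    have h1 := h 0
    rw [e] at h1
    simp only [mul_zero, pow_zero, one_mul] at h1
    exact ⟨-3 * D g * s 1, by rw [h1]; simp; ring⟩
  | succ j ih =>
    intro s E h e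
    obtain ⟨y, hy⟩ := ih h.tail (h.step g0 (m := 2 * j) e)
    simp only [map_neg, map_add, D.leibniz, smul_eq_mul, Derivation.map_natCast] at hy
    refine dvd_of_nat (n := 2 * j + 3) (by omega) ⟨-y - D g ^ j *
      (3 * D g * D (D E) + 2 * j * D E * D (D g)), ?_⟩
    push_cast at hy ⊢
    linear_combination -hy

/-- An odd line polynomial vanishes. -/
theorem odd_zero [WfDvdMonoid A] {D : Derivation k A A} {g : A} (hg : Prime g) (hD : ¬ g ∣ D g)
    (R : A →+* A) (Rg : R g = -g) (Ra : ∀ a, g ∣ R a - a) {s : ℕ → A} (h : Sq D g s)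
    (ho : R (s 0) = -s 0) : s 0 = 0 := by
  by_contra h0
  obtain ⟨m, E, hE, e⟩ := WfDvdMonoid.max_power_factor h0 hg.irreducible
  have hm := par hg hD m h e hE
  rw [e, map_mul, map_pow, Rg, hm.neg_pow] at ho
  have h1 : R E = -E := mul_left_cancel₀ (pow_ne_zero m hg.ne_zero) (by linear_combination ho)
  have h2 := Ra E
  rw [h1] at h2
  refine hE (dvd_of_nat (n := 2) (by omega) ?_)
  rw [← dvd_neg]
  convert h2 using 1
  push_cast
  ring

/-- Prime factors of a semi-invariant are semi-invariant. -/
theorem prime_inv [WfDvdMonoid A] {D : Derivation k A A} {l G : A} (hl : Prime l) (G0 : G ≠ 0)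
    (h : l ∣ G) (hG : G ∣ D G) : l ∣ D l := by
  obtain ⟨m, E, hE, rfl⟩ := WfDvdMonoid.max_power_factor G0 hl.irreducible
  rcases m with _ | m
  · exact absurd (by simpa using h) hE
  obtain ⟨y, hy⟩ := hG
  rw [D.leibniz, D.leibniz_pow] at hy
  simp only [smul_eq_mul, nsmul_eq_mul, Nat.add_one_sub_one] at hy
  have h1 : ((m + 1 : ℕ) : A) * (E * D l) = l * (E * y - D E) :=
    mul_left_cancel₀ (pow_ne_zero m hl.ne_zero) (by linear_combination hy)
  exact (hl.dvd_or_dvd (dvd_of_nat (by omega) ⟨_, h1⟩)).resolve_left hE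

end Par

section Con

open MvPolynomial

variable {k K ι : Type} [CommRing k] [CommRing K] [Algebra k K]

/-- Derivations of a polynomial ring with given values on coefficients and variables. -/
theorem exists_der (δ : K →+ MvPolynomial ι K) (h : ∀ a b, δ (a * b) = C a * δ b + C b * δ a)
    (h0 : ∀ c : k, δ (algebraMap k K c) = 0) (v : ι → MvPolynomial ι K) :
    ∃ D : Derivation k (MvPolynomial ι K) (MvPolynomial ι K),
      (∀ a, D (C a) = δ a) ∧ ∀ i, D (X i) = v i := by
  have D1 : δ 1 = 0 := by simpa using h0 1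
  obtain ⟨θ, t1, t2⟩ : ∃ θ : K →+* TrivSqZeroExt (MvPolynomial ι K) (MvPolynomial ι K),
      (∀ a, (θ a).fst = C a) ∧ ∀ a, (θ a).snd = δ a :=
    ⟨{ toFun := fun a => TrivSqZeroExt.inl (C a) + TrivSqZeroExt.inr (δ a)
       map_one' := by ext : 1 <;> simp [D1]
       map_mul' := fun a b => by
        ext : 1
        · simp
        · simp [h]; ring
       map_zero' := by ext : 1 <;> simp
       map_add' := fun a b => by ext : 1 <;> simp }, fun a => by simp, fun a => by simp⟩
  set l := eval₂Hom θ fun i => TrivSqZeroExt.inl (X i) + TrivSqZeroExt.inr (v i) with hl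
  have hl2 : ∀ x, (l x).fst = x := fun x => by
    induction x using MvPolynomial.induction_on with
    | C a => simp [hl, t1]
    | add p q hp hq => simp [hp, hq]
    | mul_X p i hp => rw [map_mul, TrivSqZeroExt.fst_mul, hp]; simp [hl]
  have hm : ∀ a b, (l (a * b)).snd = a * (l b).snd + b * (l a).snd := fun a b => by
    rw [map_mul, TrivSqZeroExt.snd_mul, hl2, hl2, op_smul_eq_smul]; rfl
  have hc : ∀ a, (l (C a)).snd = δ a := fun a => by simp [hl, t2]
  refine ⟨Derivation.mk'
    { toFun := fun x => (l x).snd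
      map_add' := fun a b => by simp
      map_smul' := fun c x => ?_ } hm, hc, fun i => ?_⟩
  · rw [Algebra.smul_def, hm, RingHom.id_apply, Algebra.smul_def]
    have : (l (algebraMap k (MvPolynomial ι K) c)).snd = 0 := (hc _).trans (h0 c)
    rw [this, mul_zero, add_zero]
  · change (l (X i)).snd = v i
    simp [hl]

/-- Maps satisfying the Leibniz rule along a ring map are determined on generators. -/
theorem der_ext {B : Type} [CommRing B] (φ : MvPolynomial ι K →+* B)
    (f g : MvPolynomial ι K → B) (fa : ∀ a b, f (a + b) = f a + f b)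
    (ga : ∀ a b, g (a + b) = g a + g b) (fm : ∀ a b, f (a * b) = φ a * f b + φ b * f a)
    (gm : ∀ a b, g (a * b) = φ a * g b + φ b * g a) (hC : ∀ a, f (C a) = g (C a))
    (hX : ∀ i, f (X i) = g (X i)) (p : MvPolynomial ι K) : f p = g p := by
  induction p using MvPolynomial.induction_on with
  | C a => exact hC a
  | add p q hp hq => rw [fa, ga, hp, hq]
  | mul_X p i hp => rw [fm, gm, hp, hX]

/-- The chain rule. -/
theorem chain [Fintype ι] {B : Type} [CommRing B] [Algebra k B] (D : Derivation k B B) (x : ι → B)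
    (p : MvPolynomial ι k) : D (aeval x p) = ∑ i, aeval x (pderiv i p) * D (x i) := by
  classical
  refine der_ext (aeval x : MvPolynomial ι k →ₐ[k] B).toRingHom (fun p => D (aeval x p))
    (fun p => ∑ i, aeval x (pderiv i p) * D (x i)) (by simp) ?_ (by simp) ?_ (by simp) ?_ p
  · intro a b
    simp [add_mul, Finset.sum_add_distrib]
  · intro a b
    simp [add_mul, Finset.sum_add_distrib, Finset.mul_sum, mul_assoc]
  · intro i
    simp [pderiv_X, Pi.single_apply, apply_ite]

theorem pderiv_comm (i j : ι) (p : MvPolynomial ι K) :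
    pderiv i (pderiv j p) = pderiv j (pderiv i p) := by
  classical
  induction p using MvPolynomial.induction_on with
  | C a => simp
  | add p q hp hq => simp [hp, hq]
  | mul_X p l hp =>
    have h : ∀ a b : ι, pderiv a (pderiv b (X l : MvPolynomial ι K)) = 0 := fun a b => by
      rw [pderiv_X, Pi.single_apply]
      split_ifs <;> simp
    simp only [Derivation.leibniz, smul_eq_mul, map_add, h, hp]
    ring

end Con

end Pool.Agent.MP_249f74_an.H65
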