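import Pool.Agent.MP_249f74_an.H65.Gp

/-!
A finite class of complexes gives an invariant line polynomial.
-/

open MvPolynomial Matrix Set

namespace Pool.Agent.MP_249f74_an.H65

open H17.Cm (grad)
open H32 (Mir edge pt pos dir St)
open H42 (Gen Cur)
open H88 (cl rk subset_cl)

section Rf

variable {K ι : Type} [Field K] [Fintype ι] {w : ι → K}

lemma rf_lin (h : ∑ i, w i ^ 2 ≠ 0) : rf w (lin w) = -lin w := by
  rw [rf, aeval_lin]
  simp only [algebraMap_eq, mul_sub, Finset.sum_sub_distrib, ← mul_assoc, ← map_mul,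
    ← Finset.sum_mul, ← map_sum]
  have h : ∑ i, w i * (2 * w i / ∑ j, w j ^ 2) = 2 := by
    simp only [← mul_div_assoc, ← Finset.sum_div]
    rw [div_eq_iff h, Finset.mul_sum]
    exact Finset.sum_congr rfl fun i _ => by ring
  rw [h, ← lin, map_ofNat]
  ring

lemma rf_inv (h : ∑ i, w i ^ 2 ≠ 0) (a : MvPolynomial ι K) : rf w (rf w a) = a := by
  have : (rf w).comp (rf w) = AlgHom.id K _ := algHom_ext fun i => by
    rw [AlgHom.comp_apply, rf, aeval_X, ← rf, map_sub, map_mul, rf_lin h, rf, aeval_X, aeval_C]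
    simp
  exact DFunLike.congr_fun this a

/-- The reflection as an automorphism. -/
noncomputable def rfe (h : ∑ i, w i ^ 2 ≠ 0) : MvPolynomial ι K ≃* MvPolynomial ι K :=
  ⟨⟨rf w, rf w, rf_inv h, rf_inv h⟩, map_mul _⟩

lemma rf_prime (h : ∑ i, w i ^ 2 ≠ 0) {ψ : MvPolynomial ι K} (hψ : Prime ψ) : Prime (rf w ψ) :=
  (MulEquiv.prime_iff (rfe h)).2 hψ

lemma rf_dvd (h : ∑ i, w i ^ 2 ≠ 0) {a b : MvPolynomial ι K} : rf w a ∣ b ↔ a ∣ rf w b :=
  ⟨fun e => rf_inv h a ▸ map_dvd (rf w) e, fun e => rf_inv h b ▸ map_dvd (rf w) e⟩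

lemma rf_sign (h : ∑ i, w i ^ 2 ≠ 0) {a : MvPolynomial ι K} {c : K} (a0 : a ≠ 0)
    (e : rf w a = C c * a) : c = 1 ∨ c = -1 := by
  have h1 := congrArg (rf w) e
  rw [rf_inv h, map_mul, e, rf_C, ← mul_assoc, ← map_mul] at h1
  exact mul_self_eq_one_iff.1 (C_injective ι K (mul_right_cancel₀ a0 (by rw [← h1]; simp)))

omit [Fintype ι] in
/-- Polynomials with the same simple factors away from the normal. -/
lemma eq_of_simple {g a b : MvPolynomial ι K} (hg : Prime g) (ha : ¬ g ∣ a) (hb : ¬ g ∣ b)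
    (sa : ∀ p, Prime p → ¬ p ∣ g → ¬ p * p ∣ a) (sb : ∀ p, Prime p → ¬ p ∣ g → ¬ p * p ∣ b)
    (h1 : ∀ p, Prime p → ¬ p ∣ g → p ∣ a → p ∣ b) (h2 : ∀ p, Prime p → ¬ p ∣ g → p ∣ b → p ∣ a) :
    ∃ c, c ≠ 0 ∧ a = C c * b := by
  have key : ∀ {a b : MvPolynomial ι K}, ¬ g ∣ a → (∀ p, Prime p → ¬ p ∣ g → ¬ p * p ∣ a) →
      (∀ p, Prime p → ¬ p ∣ g → p ∣ a → p ∣ b) → a ∣ b := fun {a b} ha sa h => by
    have h0 : ∀ p, Prime p → p ∣ a → ¬ p ∣ g := fun p hp hd e =>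
      ha ((hp.associated_of_dvd hg e).symm.dvd.trans hd)
    exact sqf_dvd ((squarefree_iff_irreducible_sq_not_dvd_of_ne_zero fun e => ha (by simp [e])).2
      fun p hp e => sa p hp.prime (h0 p hp.prime ((dvd_mul_right p p).trans e)) e)
      fun p hp hd => h p hp (h0 p hp hd) hd
  obtain ⟨u, hu⟩ := associated_of_dvd_dvd (key hb sb h2) (key ha sa h1)
  obtain ⟨c, hc, e⟩ := isUnit_iff_eq_C_of_isReduced.1 u.isUnit
  exact ⟨c, hc.ne_zero, by rw [← hu, e, mul_comm]⟩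

end Rf

variable {k B K Ω ι : Type} [Field k] [Algebra k ℝ] [Field B] [Algebra k B] [Field K] [Field Ω]
  [Algebra B K] [Algebra K Ω] [Algebra B Ω] [IsScalarTower B K Ω] [Fintype ι] [CharZero Ω]
  [IsAlgClosed Ω]

omit [IsAlgClosed Ω] in
/-- The equation of an edge with a free parameter is a line polynomial. -/
lemma lin_of_free {q : ι → K} {v : ι → Ω} {s : Ω} {D : Derivation K Ω Ω} (hs : D s = 1)
    (hv : ∀ i, D (v i) = 0) {π : MvPolynomial (ι ⊕ ι) B}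
    (h : ∀ F, H42.ev (edge (fun i => algebraMap K Ω (q i)) v s) F = 0 ↔ π ∣ F) : Lin π := by
  have : CharZero B := (algebraMap B Ω).charZero
  refine lin_of_dvd ((h _).1 ?_)
  have h1 := chain_ev (D.restrictScalars B) ((fun i => algebraMap K Ω (q i)) - s • v) v π
  have h2 : ev ((fun i => algebraMap K Ω (q i)) - s • v) v π = 0 := (h π).2 dvd_rfl
  rw [h2, map_zero] at h1
  change ev ((fun i => algebraMap K Ω (q i)) - s • v) v _ = 0
  rw [map_sum]
  simpa [hs, hv, ev, mul_comm] using h1.symm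

namespace Pc

variable {m : Mir k B ι} {q : ι → K} {y : ι → Ω} {t : Ω} (P : Pc m q y t)
include P

omit [CharZero Ω] [IsAlgClosed Ω] in
lemma g_prime : Prime (lin (grad m.f q)) := lin_prime fun h => P.nn (by simp [h])

/-- The components of the cone of a finite class are permuted. -/
lemma step {G H : MvPolynomial (ι ⊕ ι) B} (G0 : G ≠ 0)
    (hG : ∀ (l : ι ⊕ ι → Ω) t l', St m l t l' → Cur B l → H42.ev l G = 0 → H42.ev l' G = 0)
    (h1 : Lin H) (h3 : H ∣ G) (h4 : ∀ π, Prime π → Lin π → π ∣ G → π ∣ H)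
    {ψ : MvPolynomial ι K} (hψ : Prime ψ) (hn : ¬ ψ ∣ lin (grad m.f q)) (hd : ψ ∣ pen q H) :
    ψ ∣ rf (grad m.f q) (pen q H) := by
  classical
  have : CharZero B := (algebraMap B Ω).charZero
  obtain ⟨v, s, D, e1, e2, e3, e4, e5⟩ := P.cur hψ hn
  have h5 : H42.ev (edge (fun i => algebraMap K Ω (q i)) v s) G = 0 := by
    obtain ⟨Q, rfl⟩ := h3
    rw [map_mul, h1.edge, ← aeval_pen, (e1 _).2 hd, zero_mul]
  have h6 := H32.cur_iff_rk.2 (le_antisymm (H32.rk_lt G0 h5) e5)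
  obtain ⟨π, hπ, h7⟩ := e4.cur h6
  have h8 := lin_of_free e2 (fun i => congrFun ((H17.Cm.dv_rf (θ := D) (funext fun i =>
    D.map_algebraMap _) v).trans (by
      rw [show H17.Cm.dv D v = 0 from funext e3, H17.Cm.rf_of_dot (dotProduct_zero _)])) i) h7
  rw [← e1, aeval_rf, aeval_pen, ← h1.edge _ _ s, h7]
  exact h4 π hπ h8 ((h7 G).1 (hG _ _ _ e4 h6 h5))

theorem inv {G H : MvPolynomial (ι ⊕ ι) B} (G0 : G ≠ 0)
    (hG : ∀ (l : ι ⊕ ι → Ω) t l', St m l t l' → Cur B l → H42.ev l G = 0 → H42.ev l' G = 0)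
    (h1 : Lin H) (h2 : Squarefree H) (h3 : H ∣ G) (h4 : ∀ π, Prime π → Lin π → π ∣ G → π ∣ H) :
    ∃ c, (c = 1 ∨ c = -1) ∧ rf (grad m.f q) (pen q H) = C c * pen q H := by
  have H0 := P.pen_ne h1 h2.ne_zero
  obtain ⟨a, E, hE, he⟩ := WfDvdMonoid.max_power_factor H0 P.g_prime.irreducible
  have h5 : ∀ p, Prime p → ¬ p ∣ lin (grad m.f q) → ¬ rf (grad m.f q) p ∣ lin (grad m.f q) :=
    fun p _ h e => h (by rwa [rf_dvd P.nn, rf_lin P.nn, dvd_neg] at e)
  have h6 : ∀ p, Prime p → ¬ p ∣ lin (grad m.f q) → ¬ p * p ∣ E := fun p hp h e =>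
    P.simple h1 h2 hp h (he ▸ e.mul_left _)
  have h7 : ∀ p, Prime p → ¬ p ∣ lin (grad m.f q) → p ∣ E → p ∣ rf (grad m.f q) E :=
    fun p hp h e => by
      have := P.step G0 hG h1 h3 h4 hp h (he ▸ e.mul_left _)
      rw [he, map_mul, map_pow, rf_lin P.nn] at this
      exact (hp.dvd_or_dvd this).resolve_left fun e => h (dvd_neg.1 (hp.dvd_of_dvd_pow e))
  obtain ⟨c, -, e⟩ := eq_of_simple (a := rf (grad m.f q) E) P.g_prime
    (by rwa [← rf_dvd P.nn, rf_lin P.nn, neg_dvd]) hE (fun p hp h e => h6 _ (rf_prime P.nn hp)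
      (h5 p hp h) (by rwa [← map_mul, rf_dvd P.nn])) h6 (fun p hp h e => by
      have := h7 _ (rf_prime P.nn hp) (h5 p hp h) ((rf_dvd P.nn).2 e)
      rwa [rf_dvd P.nn, rf_inv P.nn] at this) h7
  have h8 : rf (grad m.f q) (pen q H) = C ((-1) ^ a * c) * pen q H := by
    rw [he, map_mul, map_pow, rf_lin P.nn, e, neg_pow]
    simp only [map_mul, map_pow, map_neg, map_one]
    ring
  exact ⟨_, rf_sign P.nn H0 h8, h8⟩

end Pc

end Pool.Agent.MP_249f74_an.H65
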