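import Pool.Agent.MP_249f74_an.H65.Abs

/-!
Line polynomials on the pencils of a hypersurface, in oblique graph coordinates.
-/

open MvPolynomial

namespace Pool.Agent.MP_249f74_an.H65

variable {k K ι : Type} [Field k] [Field K] [Algebra k K] [Fintype ι] [DecidableEq ι]

/-- The value of a polynomial at the point `x` and the direction `u`. -/
noncomputable def ev {B : Type} [CommRing B] [Algebra k B] (x u : ι → B) :
    MvPolynomial (ι ⊕ ι) k →ₐ[k] B := aeval (Sum.elim x u)

/-- The polynomial only depends on the line. -/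
def Lin (F : MvPolynomial (ι ⊕ ι) k) : Prop :=
  ∑ i, X (Sum.inr i) * pderiv (Sum.inl i) F = 0

/-- The point lies on a quadric. -/
def Quad (k : Type) [Field k] [Algebra k K] (q : ι → K) : Prop :=
  ∃ p : MvPolynomial ι k, p ≠ 0 ∧ p.totalDegree ≤ 2 ∧ aeval q p = 0

/-- A linear form in the direction. -/
noncomputable def lin (m : ι → K) : MvPolynomial ι K := ∑ i, C (m i) * X i

/-- The restriction to the pencil of lines through `q`. -/
noncomputable def pen (q : ι → K) : MvPolynomial (ι ⊕ ι) k →ₐ[k] MvPolynomial ι K :=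
  ev (fun i => C (q i)) X

/-- The reflection with normal `w`. -/
noncomputable def rf (w : ι → K) : MvPolynomial ι K →ₐ[K] MvPolynomial ι K :=
  aeval fun i => X i - C (2 * w i / ∑ j, w j ^ 2) * lin w

/-- A generic point `q` of a real hypersurface with normal `w`, and the derivations along the
projections of the coordinate vectors in the direction `e`. -/
structure Gr (q : ι → K) (e : ι) (w : ι → K) (d : ι → Derivation k K K) : Prop where
  we : w e = 1
  dq : ∀ i j, d j (q i) = (if i = j then 1 else 0) - if i = e then w j else 0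
  tan : ∀ D : Derivation k K K, ∑ i, w i * D (q i) = 0
  gen : ∀ D : Derivation k K K, (∀ i, D (q i) = 0) → D = 0
  cst : ∀ a : K, (∀ D : Derivation k K K, D a = 0) → ∃ c, a = algebraMap k K c
  ani : ∀ v : ι → K, ∑ i, v i ^ 2 = 0 → v = 0

/-- The second fundamental form. -/
def bil (w : ι → K) (d : ι → Derivation k K K) (a b : ι → K) : K :=
  ∑ i, ∑ j, d j (w i) * a i * b j

/-- The second fundamental form has rank at most one. -/
def Rk1 (w : ι → K) (d : ι → Derivation k K K) : Prop :=
  ∀ a b, bil w d a a * bil w d b b = bil w d a b ^ 2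

/-- The second fundamental form as a polynomial. -/
noncomputable def hq (w : ι → K) (d : ι → Derivation k K K) : MvPolynomial ι K :=
  ∑ i, lin (fun j => d j (w i)) * X i

section Lin

omit [DecidableEq ι]

lemma lin_add (a b : ι → K) : lin (fun i => a i + b i) = lin a + lin b := by
  simp [lin, add_mul, Finset.sum_add_distrib]

lemma lin_mul (c : K) (a : ι → K) : lin (fun i => c * a i) = C c * lin a := by
  simp [lin, Finset.mul_sum, mul_assoc]

@[simp] lemma lin_zero : lin (fun _ : ι => (0 : K)) = 0 := by simp [lin]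

lemma lin_hom (m : ι → K) : (lin m).IsHomogeneous 1 :=
  IsHomogeneous.sum _ _ _ fun i _ => isHomogeneous_C_mul_X _ i

lemma pderiv_lin (m : ι → K) (i : ι) : pderiv i (lin m) = C (m i) := by
  classical
  simp [lin, pderiv_X, Pi.single_apply]

lemma lin_eq_zero {m : ι → K} (h : lin m = 0) : m = 0 := funext fun i => by
  have := pderiv_lin m i
  rw [h, map_zero, eq_comm, C_eq_zero] at this
  exact this

lemma lin_prime {m : ι → K} (h : m ≠ 0) : Prime (lin m) := by
  refine (irreducible_of_totalDegree_eq_one
    ((lin_hom m).totalDegree fun e => h (lin_eq_zero e)) fun x hx => ?_).prime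
  refine Ne.isUnit fun x0 => h (lin_eq_zero ?_)
  ext i
  simpa [x0] using hx i

lemma aeval_lin {B : Type} [CommRing B] [Algebra K B] (x : ι → B) (m : ι → K) :
    aeval x (lin m) = ∑ i, algebraMap K B (m i) * x i := by simp [lin]

omit [Fintype ι] in
/-- Substitutions congruent to the identity. -/
lemma dvd_sub_aeval {g : MvPolynomial ι K} {x : ι → MvPolynomial ι K} (h : ∀ i, g ∣ x i - X i)
    (a : MvPolynomial ι K) : g ∣ aeval x a - a := by
  induction a using MvPolynomial.induction_on with
  | C a => simp
  | add p q hp hq => rw [map_add, add_sub_add_comm]; exact hp.add hq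
  | mul_X p i hp =>
    rw [map_mul, aeval_X]
    convert (hp.mul_right (x i)).add ((h i).mul_left p) using 1
    ring

lemma exD (d : ι → Derivation k K K) (u v : ι → MvPolynomial ι K) :
    ∃ D : Derivation k (MvPolynomial ι K) (MvPolynomial ι K),
      (∀ a, D (C a) = aeval u (lin fun j => d j a)) ∧ ∀ i, D (X i) = v i :=
  exists_der
    { toFun := fun a => aeval u (lin fun j => d j a)
      map_zero' := by simp
      map_add' := fun a b => by simp [lin_add] }
    (fun a b => by simp [lin_add, lin_mul]) (fun c => by simp) v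

/-- Differentiate the coefficients in the direction `u` and move the variables by `v`. -/
noncomputable def mkD (d : ι → Derivation k K K) (u v : ι → MvPolynomial ι K) :
    Derivation k (MvPolynomial ι K) (MvPolynomial ι K) := (exD d u v).choose

lemma mkD_C (d : ι → Derivation k K K) (u v : ι → MvPolynomial ι K) (a : K) :
    mkD d u v (C a) = aeval u (lin fun j => d j a) := (exD d u v).choose_spec.1 a

@[simp] lemma mkD_X (d : ι → Derivation k K K) (u v : ι → MvPolynomial ι K) (i : ι) :
    mkD d u v (X i) = v i := (exD d u v).choose_spec.2 i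

lemma mkD_C' (d : ι → Derivation k K K) (v : ι → MvPolynomial ι K) (a : K) :
    mkD d X v (C a) = lin fun j => d j a := by rw [mkD_C, aeval_X_left_apply]

lemma mkD_lin (d : ι → Derivation k K K) (v : ι → MvPolynomial ι K) (m : ι → K) :
    mkD d X v (lin m) = ∑ i, lin (fun j => d j (m i)) * X i + ∑ i, C (m i) * v i := by
  rw [lin, map_sum, ← Finset.sum_add_distrib]
  exact Finset.sum_congr rfl fun i _ => by simp [mkD_C']; ring

lemma Lin.pderiv {F : MvPolynomial (ι ⊕ ι) k} (h : Lin F) (e : ι) :
    Lin (pderiv (Sum.inl e) F) := by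
  classical
  have := congrArg (MvPolynomial.pderiv (Sum.inl e)) h
  rw [map_sum, map_zero] at this
  rw [Lin, ← this]
  exact Finset.sum_congr rfl fun i _ => by
    rw [Derivation.leibniz, pderiv_X_of_ne (by simp), pderiv_comm]; simp

lemma Lin.mul {F G : MvPolynomial (ι ⊕ ι) k} (hF : Lin F) (hG : Lin G) : Lin (F * G) := by
  have : ∀ i, X (Sum.inr i) * MvPolynomial.pderiv (Sum.inl i) (F * G) =
      F * (X (Sum.inr i) * MvPolynomial.pderiv (Sum.inl i) G) +
        G * (X (Sum.inr i) * MvPolynomial.pderiv (Sum.inl i) F) := fun i => by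
    rw [Derivation.leibniz, smul_eq_mul, smul_eq_mul]; ring
  rw [Lin] at *
  simp only [this, Finset.sum_add_distrib, ← Finset.mul_sum, hF, hG, mul_zero, add_zero]

lemma chain_ev {B : Type} [CommRing B] [Algebra k B] (D : Derivation k B B) (x u : ι → B)
    (F : MvPolynomial (ι ⊕ ι) k) : D (ev x u F) =
      ∑ i, ev x u (pderiv (Sum.inl i) F) * D (x i) +
        ∑ i, ev x u (pderiv (Sum.inr i) F) * D (u i) := by
  rw [ev, chain, Fintype.sum_sum_type]; rfl

lemma Lin.ev {F : MvPolynomial (ι ⊕ ι) k} (h : Lin F) {B : Type} [CommRing B] [Algebra k B]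
    (x u : ι → B) : ∑ i, ev x u (MvPolynomial.pderiv (Sum.inl i) F) * u i = 0 := by
  have := congrArg (H65.ev x u) h
  rw [map_sum, map_zero] at this
  rw [← this]
  exact Finset.sum_congr rfl fun i _ => by rw [map_mul, mul_comm]; simp [H65.ev]

omit [Fintype ι] in
lemma map_ev {B B' : Type} [CommRing B] [Algebra k B] [CommRing B'] [Algebra k B']
    (φ : B →ₐ[k] B') (x u : ι → B) (F : MvPolynomial (ι ⊕ ι) k) :
    φ (ev x u F) = ev (fun i => φ (x i)) (fun i => φ (u i)) F := by
  rw [ev, ev, ← AlgHom.comp_apply, comp_aeval]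
  congr 2
  ext (i | i) <;> rfl

lemma der'_apply {B : Type} [CommRing B] [Algebra k B] (p : Polynomial B) :
    ((Polynomial.derivative' (R := B)).restrictScalars k) p = Polynomial.derivative p := rfl

/-- Line polynomials are invariant under translation along the direction. -/
lemma Lin.tr [CharZero k] {F : MvPolynomial (ι ⊕ ι) k} (h : Lin F) {B : Type} [CommRing B]
    [Algebra k B] (x u : ι → B) (t : B) : H65.ev (fun i => x i + t * u i) u F = H65.ev x u F := by
  obtain ⟨P, hP⟩ : ∃ P : Polynomial B, P = H65.ev
    (fun i => Polynomial.C (x i) + Polynomial.X * Polynomial.C (u i))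
    (fun i => Polynomial.C (u i)) F := ⟨_, rfl⟩
  have h1 : Polynomial.derivative P = 0 := by
    have h0 : ∀ i, Polynomial.derivative (Polynomial.C (x i) + Polynomial.X * Polynomial.C (u i))
      = Polynomial.C (u i) := fun i => by simp
    rw [hP, ← der'_apply (k := k), chain_ev]
    simp only [der'_apply, h0, h.ev, Polynomial.derivative_C, mul_zero, Finset.sum_const_zero,
      add_zero]
  have h2 : ∀ n, P.coeff (n + 1) = 0 := fun n => by
    have h3 := congrArg (fun p => Polynomial.coeff p n) h1
    simp only [Polynomial.coeff_derivative, Polynomial.coeff_zero] at h3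
    have h4 : ((n : B) + 1) * algebraMap k B ((n : k) + 1)⁻¹ = 1 := by
      rw [← map_natCast (algebraMap k B), ← map_one (algebraMap k B), ← map_add, ← map_mul,
        mul_inv_cancel₀ (Nat.cast_add_one_ne_zero n)]
    linear_combination algebraMap k B ((n : k) + 1)⁻¹ * h3 - P.coeff (n + 1) * h4
  have h3 : P = Polynomial.C (P.coeff 0) := by
    ext (_ | n)
    · simp
    · rw [h2, Polynomial.coeff_C_succ]
  have h4 : ∀ s : B, H65.ev (fun i => x i + s * u i) u F = P.coeff 0 := fun s => by
    have := map_ev ((Polynomial.aeval s : Polynomial B →ₐ[B] B).restrictScalars k)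
      (fun i => Polynomial.C (x i) + Polynomial.X * Polynomial.C (u i))
      (fun i => Polynomial.C (u i)) F
    rw [← hP, h3] at this
    simp only [AlgHom.restrictScalars_apply, map_add, map_mul, Polynomial.aeval_C,
      Polynomial.aeval_X, Algebra.algebraMap_self, RingHom.id_apply] at this
    exact this.symm
  have h5 := (h4 t).trans (h4 0).symm
  simp only [zero_mul, add_zero] at h5
  exact h5

/-- Conversely, invariant polynomials are line polynomials. -/
lemma lin_of_tr {F : MvPolynomial (ι ⊕ ι) k}
    (h : ∀ (B : Type) [CommRing B] [Algebra k B] (x u : ι → B) (t : B),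
      ev (fun i => x i + t * u i) u F = ev x u F) : Lin F := by
  have h1 := congrArg ((Polynomial.derivative' (R := MvPolynomial (ι ⊕ ι) k)).restrictScalars k)
    (h (Polynomial (MvPolynomial (ι ⊕ ι) k)) (fun i => Polynomial.C (X (Sum.inl i)))
      (fun i => Polynomial.C (X (Sum.inr i))) Polynomial.X)
  rw [chain_ev, chain_ev] at h1
  have h0 : ∀ a b : MvPolynomial (ι ⊕ ι) k, Polynomial.derivative (Polynomial.C a +
      Polynomial.X * Polynomial.C b) = Polynomial.C b := fun a b => by simp
  simp only [der'_apply, h0, Polynomial.derivative_C, mul_zero, Finset.sum_const_zero,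
    add_zero] at h1
  have h2 := congrArg ((Polynomial.aeval 0 : Polynomial (MvPolynomial (ι ⊕ ι) k) →ₐ[_]
    MvPolynomial (ι ⊕ ι) k).restrictScalars k) h1
  have h3 : ∀ G : MvPolynomial (ι ⊕ ι) k,
      ev (fun i => X (Sum.inl i)) (fun i => X (Sum.inr i)) G = G := fun G => by
    rw [ev, show (Sum.elim (fun i => X (Sum.inl i)) fun i => X (Sum.inr i) :
      ι ⊕ ι → MvPolynomial (ι ⊕ ι) k) = X from by ext1 (i | i) <;> rfl, aeval_X_left_apply]
  simp only [map_zero, map_sum, map_mul, map_ev, AlgHom.restrictScalars_apply, map_add,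
    Polynomial.aeval_C, Polynomial.aeval_X, Algebra.algebraMap_self, RingHom.id_apply, zero_mul,
    add_zero, h3] at h2
  exact (Finset.sum_congr rfl fun i _ => mul_comm _ _).trans h2

end Lin

namespace Gr

variable {q w : ι → K} {e : ι} {d : ι → Derivation k K K} (G : Gr q e w d)
include G

lemma gen' (D : Derivation k K K) (h : ∀ i, i ≠ e → D (q i) = 0) : D = 0 := by
  refine G.gen D fun i => ?_
  by_cases hi : i = e
  · have := G.tan D
    rw [Finset.sum_eq_single e (fun j _ hj => by simp [h j hj]) (by simp), G.we, one_mul] at this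
    exact hi ▸ this
  · exact h i hi

lemma de : d e = 0 := G.gen' _ fun i hi => by simp [G.dq, hi]

lemma comm (i j : ι) (a : K) : d i (d j a) = d j (d i a) := by
  have := G.gen' ⁅d i, d j⁆ fun l hl => by
    rw [Derivation.commutator_apply, G.dq, G.dq]
    split_ifs <;> simp
  rw [← sub_eq_zero, ← Derivation.commutator_apply, this]; rfl

lemma sym (i j : ι) : d j (w i) = d i (w j) := by
  have := G.comm i j (q e)
  rw [G.dq, G.dq] at this
  have h : ∀ a b : ι, d a (if e = b then 1 else 0) = 0 := fun a b => by split_ifs <;> simp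
  simpa [h, eq_comm] using this

lemma dwe (j : ι) : d j (w e) = 0 := by simp [G.we]

lemma w0 : w ≠ 0 := fun h => by simpa [h] using G.we

lemma nw : ∑ i, w i ^ 2 ≠ 0 := fun h => G.w0 (G.ani w h)

lemma g_prime : Prime (lin w) := lin_prime G.w0

/-- Derivations along a ring map. -/
lemma along {S : Type} [CommRing S] (φ : K →+* S) (Δ : K →+ S)
    (h : ∀ a b, Δ (a * b) = φ a * Δ b + φ b * Δ a) (h0 : ∀ c : k, Δ (algebraMap k K c) = 0) :
    ∑ i, φ (w i) * Δ (q i) = 0 ∧ ∀ a, Δ a = ∑ j, Δ (q j) * φ (d j a) := by
  let _ := φ.toAlgebra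
  have key : ∀ f : Module.Dual K S, ∃ D : Derivation k K K, ∀ a, D a = f (Δ a) := fun f =>
    ⟨Derivation.mk'
      { toFun := fun a => f (Δ a)
        map_add' := fun a b => by simp
        map_smul' := fun c a => by
          rw [Algebra.smul_def, h, h0, mul_zero, add_zero, RingHom.id_apply, Algebra.smul_def]
          exact f.map_smul (algebraMap k K c) (Δ a) }
      fun a b => by
        change f (Δ (a * b)) = a * f (Δ b) + b * f (Δ a)
        rw [h, map_add]
        exact congrArg₂ (· + ·) (f.map_smul a _) (f.map_smul b _), fun _ => rfl⟩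
  have hf : ∀ (f : Module.Dual K S) (a : K) (s : S), f (φ a * s) = a * f s := fun f a s =>
    f.map_smul a s
  refine ⟨(Module.forall_dual_apply_eq_zero_iff K _).1 fun f => ?_, fun a => ?_⟩
  · obtain ⟨D, hD⟩ := key f
    simpa [hf, hD] using G.tan D
  · rw [← sub_eq_zero]
    refine (Module.forall_dual_apply_eq_zero_iff K _).1 fun f => ?_
    obtain ⟨D, hD⟩ := key f
    have := G.gen' (D - ∑ j, D (q j) • d j) fun i hi => by
      have : ∀ (s : Finset ι) (x : K), (∑ j ∈ s, D (q j) • d j) x = ∑ j ∈ s, D (q j) * d j x :=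
        fun s x => by
          induction s using Finset.induction_on with
          | empty => simp
          | insert j s hj ih => simp [Finset.sum_insert hj, ih]
      simp [this, G.dq, hi]
    have h2 : ∀ (s : Finset ι) (x : K), (∑ j ∈ s, D (q j) • d j) x = ∑ j ∈ s, D (q j) * d j x :=
      fun s x => by
        induction s using Finset.induction_on with
        | empty => simp
        | insert j s hj ih => simp [Finset.sum_insert hj, ih]
    have h3 := congrArg (fun D : Derivation k K K => D a) this
    simp only [Derivation.sub_apply, h2, Derivation.zero_apply] at h3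
    simpa [mul_comm (Δ _), hf, ← hD, mul_comm (d _ a)] using h3

lemma cst' {a : K} (h : ∀ j, d j a = 0) : ∃ c, a = algebraMap k K c := G.cst a fun D => by
  have := (G.along (RingHom.id K) D.toLinearMap.toAddMonoidHom (fun a b => by simp)
    (fun c => by simp)).2 a
  simpa [h] using this

lemma lin_dq (i : ι) : lin (fun j => d j (q i)) = X i - if i = e then lin w else 0 := by
  by_cases h : i = e <;> simp [lin, G.dq, h, sub_mul, Finset.sum_sub_distrib, apply_ite]

omit G [DecidableEq ι] in
lemma xe_g : mkD d X 0 (lin w) = hq w d := by simp [mkD_lin, hq]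

/-- The normal derivatives of a line polynomial. -/
lemma sq {F : MvPolynomial (ι ⊕ ι) k} (h : Lin F) :
    Sq (mkD d X 0) (lin w) fun i => pen q ((pderiv (Sum.inl e))^[i] F) := by
  have h1 : ∀ F : MvPolynomial (ι ⊕ ι) k, Lin F →
      mkD d X 0 (pen q F) = -lin w * pen q (pderiv (Sum.inl e) F) := fun F h => by
    rw [pen, chain_ev]
    simp only [mkD_C', mkD_X, G.lin_dq, mul_sub, Finset.sum_sub_distrib, h.ev]
    simp [mul_comm]
  intro i
  simp only [Function.iterate_succ_apply']
  refine h1 _ ?_
  induction i with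
  | zero => exact h
  | succ i ih => rw [Function.iterate_succ_apply']; exact ih.pderiv e

lemma rf_g : rf w (lin w) = -lin w := by
  have := G.nw
  rw [rf, aeval_lin]
  simp only [algebraMap_eq, mul_sub, Finset.sum_sub_distrib, ← mul_assoc, ← map_mul,
    ← Finset.sum_mul, ← map_sum]
  have h : ∑ i, w i * (2 * w i / ∑ j, w j ^ 2) = 2 := by
    simp only [← mul_div_assoc, ← Finset.sum_div]
    rw [div_eq_iff this, Finset.mul_sum]
    exact Finset.sum_congr rfl fun i _ => by ring
  rw [h, ← lin, map_ofNat]
  ring

lemma rf_rf (a : MvPolynomial ι K) : rf w (rf w a) = a := by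
  have : (rf w).comp (rf w) = AlgHom.id K _ := algHom_ext fun i => by
    rw [AlgHom.comp_apply, rf, aeval_X, ← rf, map_sub, map_mul, G.rf_g, rf, aeval_X, aeval_C]
    simp
  exact DFunLike.congr_fun this a

omit G [DecidableEq ι] in
lemma rf_sub (a : MvPolynomial ι K) : lin w ∣ rf w a - a :=
  dvd_sub_aeval (fun i => by simp) a

end Gr

end Pool.Agent.MP_249f74_an.H65
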