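import Pool.Agent.MP_249f74_an.H65.Inv
import Pool.Agent.MP_249f74_an.H52.Real
import Pool.Agent.MP_249f74_an.H17.CmBerq

/-!
The real model of a mirror and descent of line polynomials.
-/

open MvPolynomial Set

namespace Pool.Agent.MP_249f74_an.H65

open H17.Cm (grad)
open H32 (Mir)

section Map

variable {k K L ι σ J : Type} [Field k] [Field K] [Field L] [Algebra k K] [Algebra k L]

lemma dec (b : Module.Basis J k K) (G : MvPolynomial σ K) :
    ∃ (s : Finset J) (g : J → MvPolynomial σ k),
      G = ∑ j ∈ s, C (b j) * map (algebraMap k K) (g j) := by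
  classical
  choose Φ h _ using fun j => H52.exists_coeff (ι := σ) (b.coord j)
  refine ⟨G.support.biUnion fun m => (b.repr (coeff m G)).support, fun j => Φ j G, ?_⟩
  ext m
  have := b.linearCombination_repr (coeff m G)
  rw [Finsupp.linearCombination_apply, Finsupp.sum_of_support_subset _
    (s := G.support.biUnion fun m => (b.repr (coeff m G)).support) _ _ (by simp)] at this
  · simp only [coeff_sum, coeff_C_mul, coeff_map, h, Module.Basis.coord_apply]
    simpa only [Algebra.smul_def, mul_comm] using this.symm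
  · by_cases hm : m ∈ G.support
    · exact Finset.subset_biUnion_of_mem (fun m => (b.repr (coeff m G)).support) hm
    · simp [notMem_support_iff.1 hm]

/-- The field is linearly disjoint from the constants. -/
def LD (φ : K →+* L) (β : J → L) : Prop :=
  ∀ (s : Finset J) (a : J → K), ∑ j ∈ s, β j * φ (a j) = 0 → ∀ j ∈ s, a j = 0

lemma LD.poly {φ : K →+* L} {β : J → L} (h : LD φ β) {s : Finset J} {a : J → MvPolynomial σ K}
    (e : ∑ j ∈ s, C (β j) * map φ (a j) = 0) : ∀ j ∈ s, a j = 0 := fun j hj => by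
  ext m
  exact h s (fun j => coeff m (a j)) (by
    simpa only [coeff_sum, coeff_C_mul, coeff_map, coeff_zero] using congrArg (coeff m) e) j hj

lemma ld_of {b : J → K} (h : LinearIndependent k b) : LD (algebraMap k K) b := fun s a e =>
  linearIndependent_iff'.1 h s a (by simpa only [Algebra.smul_def, mul_comm] using e)

lemma map_pen (φ : K →ₐ[k] L) (q : ι → K) (F : MvPolynomial (ι ⊕ ι) k) :
    map (φ : K →+* L) (pen q F) = pen (fun i => φ (q i)) F := by
  have := map_ev (mapAlgHom (σ := ι) φ) (fun i => C (q i)) X F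
  simp only [mapAlgHom_apply, map_C, map_X] at this
  exact this

lemma pen_map [Algebra K L] [IsScalarTower k K L] (q : ι → L) (F : MvPolynomial (ι ⊕ ι) k) :
    pen q (map (algebraMap k K) F) = pen q F := aeval_map_algebraMap K _ F

variable [Fintype ι]

lemma map_lin (φ : K →+* L) (w : ι → K) : map φ (lin w) = lin fun i => φ (w i) := by simp [lin]

lemma map_rf (φ : K →+* L) (w : ι → K) (a : MvPolynomial ι K) :
    map φ (rf w a) = rf (fun i => φ (w i)) (map φ a) := by
  induction a using MvPolynomial.induction_on with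
  | C a => simp
  | add p q hp hq => simp only [map_add, hp, hq]
  | mul_X p i hp => simp only [map_mul, hp]; simp [rf, map_lin, map_ofNat]

lemma map_pr [DecidableEq ι] (φ : K →+* L) (e : ι) (w : ι → K) (a : MvPolynomial ι K) :
    map φ (pr e w a) = pr e (fun i => φ (w i)) (map φ a) := by
  induction a using MvPolynomial.induction_on with
  | C a => simp
  | add p q hp hq => simp only [map_add, hp, hq]
  | mul_X p i hp =>
    simp only [map_mul, hp, map_X, pr_X, map_sub]
    split_ifs <;> simp [map_lin]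

lemma Lin.map {F : MvPolynomial (ι ⊕ ι) k} (h : Lin F) : Lin (map (algebraMap k K) F) := by
  simpa [Lin, pderiv_map] using congrArg (MvPolynomial.map (algebraMap k K)) h

lemma Lin.dec {b : J → K} (hb : LinearIndependent k b) {s : Finset J}
    {g : J → MvPolynomial (ι ⊕ ι) k}
    (h : Lin (∑ j ∈ s, C (b j) * MvPolynomial.map (algebraMap k K) (g j))) :
    ∀ j ∈ s, Lin (g j) := (ld_of hb).poly (by
  simp only [Lin, map_sum, pderiv_C_mul, pderiv_map, Finset.mul_sum] at h
  simp only [map_sum, map_mul, map_X, Finset.mul_sum, mul_left_comm (C _)]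
  rwa [Finset.sum_comm])

lemma Lin.dvd [CharZero k] {a G : MvPolynomial (ι ⊕ ι) k} (h : Lin G) (G0 : G ≠ 0) (hd : a ∣ G) :
    Lin a := by
  induction a using UniqueFactorizationMonoid.induction_on_prime with
  | h₁ => simp [Lin]
  | h₂ x hx =>
    obtain ⟨c, -, rfl⟩ := isUnit_iff_eq_C_of_isReduced.1 hx
    simp [Lin]
  | h₃ a p _ hp ih =>
    exact (h.of_dvd G0 hp ((dvd_mul_right _ _).trans hd)).mul (ih ((dvd_mul_left _ _).trans hd))

/-- A line polynomial does not vanish on all lines through the points of a hypersurface. -/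
lemma Lin.pen_ne [CharZero k] {f : MvPolynomial ι k} (hf : Prime f) {q : ι → K}
    (hq : ∀ p, aeval q p = 0 ↔ f ∣ p) {F : MvPolynomial (ι ⊕ ι) k} (h : Lin F) (F0 : F ≠ 0) :
    pen q F ≠ 0 := fun h0 => by
  classical
  have h1 := map_ev (mapAlgHom (σ := ι) (aeval q : MvPolynomial ι k →ₐ[k] K))
    (fun i => C (X i)) X F
  simp only [mapAlgHom_apply, map_C, map_X, RingHom.coe_coe, aeval_X] at h1
  have h2 : C f ∣ H65.ev (B := MvPolynomial ι (MvPolynomial ι k)) (fun i => C (X i)) X F :=
    (C_dvd_iff_dvd_coeff _ _).2 fun m => (hq _).1 (by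
      simpa only [coeff_map, coeff_zero, RingHom.coe_coe] using congrArg (coeff m) (h1.trans h0))
  have h3 := map_dvd (aevalTower (rename Sum.inl) fun i => (X (Sum.inr i) : MvPolynomial (ι ⊕ ι) k))
    h2
  rw [map_ev, aevalTower_C, H65.ev] at h3
  have h4 : rename Sum.inl f ∣ F := by
    convert h3
    refine (aeval_X_left_apply F).symm.trans ?_
    congr 2
    ext1 (i | i) <;> simp
  obtain ⟨e, he⟩ := ex_pderiv hf
  have h5 := congrArg (MvPolynomial.pderiv (Sum.inr e)) (h.dvd F0 h4)
  have h6 : ∀ p : MvPolynomial ι k, MvPolynomial.pderiv (Sum.inr e)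
      (rename (Sum.inl : ι → ι ⊕ ι) p) = 0 := fun p =>
    pderiv_eq_zero_of_notMem_vars fun h => by simpa using mem_vars_rename _ _ h
  simp only [pderiv_rename Sum.inl_injective, map_sum, Derivation.leibniz, h6, pderiv_X] at h5
  exact he (by
    rw [rename_injective _ Sum.inl_injective (a₁ := MvPolynomial.pderiv e f) (a₂ := 0)
      (by simpa [Pi.single_apply] using h5)]
    exact dvd_zero _)

end Map

variable {k B ι : Type} [Field k] [Algebra k ℝ] [Field B] [Algebra k B] [Fintype ι]
  [DecidableEq ι]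

/-- The real model of a mirror. -/
structure Rm (m : Mir k B ι) (f : MvPolynomial ι k) {K : Type} [Field K] [Algebra k K]
    (y : ι → K) (e : ι) (d : ι → Derivation k K K) : Prop where
  prime : Prime f
  eq : ∃ a : B, a ≠ 0 ∧ m.f = C a * map (algebraMap k B) f
  on : ∀ p, aeval y p = 0 ↔ f ∣ p
  ne : grad f y e ≠ 0
  gr : Gr y e (fun i => grad f y i / grad f y e) d
  fr : IsFormallyReal K
  emb : ∀ (L : Type) [Field L] [Algebra B L] [Algebra k L] [IsScalarTower k B L] (q : ι → L),
    m.On q → ∃ φ : K →ₐ[k] L, (∀ i, φ (y i) = q i) ∧ ∀ (J : Type) (b : J → B),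
      LinearIndependent k b → LD (φ : K →+* L) fun j => algebraMap B L (b j)

theorem ex_rm [IsAlgClosed B] (m : Mir k B ι) : ∃ (f : MvPolynomial ι k) (K : Type) (_ : Field K)
    (_ : Algebra k K) (y : ι → K) (e : ι) (d : ι → Derivation k K K), Rm m f y e d := by
  obtain ⟨f, a, z, h1, h2⟩ := m.real
  rw [smul_eq_C_mul] at h1
  have a0 : a ≠ 0 := fun h => m.prime.ne_zero (by simp [h1, h])
  have hf : Prime f := ⟨fun h => m.prime.ne_zero (by simp [h1, h]),
    fun h => by simpa using (h2 1).2 h.dvd, fun p r h => by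
      rwa [← h2, map_mul, mul_eq_zero, h2, h2] at h⟩
  have : (Ideal.span {f}).IsPrime := (Ideal.span_singleton_prime hf.ne_zero).2 hf
  let R := MvPolynomial ι k ⧸ Ideal.span {f}
  let θ := (IsScalarTower.toAlgHom k R (FractionRing R)).comp (Ideal.Quotient.mkₐ k _)
  have h3 : ∀ p, aeval (fun i => θ (X i)) p = θ p := fun p => by
    rw [← comp_aeval_apply, aeval_X_left_apply]
  have h4 : ∀ p, aeval (fun i => θ (X i)) p = 0 ↔ f ∣ p := fun p => by
    rw [h3, ← Ideal.mem_span_singleton, ← Ideal.Quotient.eq_zero_iff_mem]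
    exact map_eq_zero_iff _ (IsFractionRing.injective R _)
  have h5 : ∀ (L : Type) [Field L] [Algebra k L] (q : ι → L), (∀ p, aeval q p = 0 ↔ f ∣ p) →
      ∃ φ : FractionRing R →ₐ[k] L, ∀ p, φ (θ p) = aeval q p := fun L _ _ q hq => by
    have hg : Function.Injective (Ideal.Quotient.liftₐ (Ideal.span {f}) (aeval q) fun p hp =>
      (hq p).2 (Ideal.mem_span_singleton.1 hp)) := (injective_iff_map_eq_zero _).2 fun p hp => by
        obtain ⟨p, rfl⟩ := Ideal.Quotient.mk_surjective p
        exact Ideal.Quotient.eq_zero_iff_mem.2 (Ideal.mem_span_singleton.2 ((hq p).1 hp))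
    exact ⟨IsFractionRing.liftAlgHom hg, fun p => IsFractionRing.lift_algebraMap hg _⟩
  have h6 : ∀ (L : Type) [Field L] [Algebra B L] [Algebra k L] [IsScalarTower k B L] (q : ι → L),
      m.On q → ∃ φ : FractionRing R →ₐ[k] L, (∀ i, φ (θ (X i)) = q i) ∧ ∀ (J : Type) (b : J → B),
      LinearIndependent k b → LD (φ : FractionRing R →+* L) fun j => algebraMap B L (b j) := by
    intro L _ _ _ _ q hq
    have h7 : ∀ p, aeval q p = 0 ↔ map (algebraMap k B) f ∣ p := fun p => by
      rw [hq, h1, ((Ne.isUnit a0).map C).mul_left_dvd]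
    obtain ⟨φ, hφ⟩ := h5 L q fun p => by
      rw [← aeval_map_algebraMap B, h7]
      exact ⟨H52.dvd_of_map, map_dvd _⟩
    refine ⟨φ, fun i => by simp [hφ], fun J b hb s c h j hj => ?_⟩
    obtain ⟨⟨r, hr⟩, h8⟩ := IsLocalization.exist_integer_multiples (nonZeroDivisors R) s c
    choose! p hp using h8
    choose t ht using fun j => Ideal.Quotient.mk_surjective (p j)
    have h9 : ∀ j ∈ s, θ (t j) = algebraMap R _ r * c j := fun j hj => by
      rw [← Algebra.smul_def]
      exact (congrArg _ (ht j)).trans (hp j hj)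
    obtain ⟨Q, hQ⟩ := (h7 (∑ j ∈ s, C (b j) * map (algebraMap k B) (t j))).1 (by
      simp only [map_sum, map_mul, aeval_C, aeval_map_algebraMap, ← hφ]
      rw [Finset.sum_congr rfl fun j hj => by rw [h9 j hj, map_mul, mul_left_comm],
        ← Finset.mul_sum]
      exact mul_eq_zero_of_right _ h)
    obtain ⟨g, hg⟩ := (Finsupp.linearCombination k b).exists_leftInverse_of_injective
      (LinearMap.ker_eq_bot.2 hb)
    have h10 : ∀ i, g (b i) = Finsupp.single i 1 := fun i => by
      simpa using LinearMap.congr_fun hg (Finsupp.single i 1)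
    obtain ⟨Φ, e1, e2⟩ := H52.exists_coeff (ι := ι) ((Finsupp.lapply j).comp g)
    have h11 : t j = f * Φ Q := by
      classical
      rw [← e2, ← hQ]
      ext n
      simp [e1, coeff_sum, coeff_map, mul_comm (b _), ← Algebra.smul_def, h10, Finsupp.single_apply,
        hj]
    exact (mul_eq_zero.1 (by rw [← h9 j hj, ← h3, h4, h11]; exact dvd_mul_right _ _)).resolve_left
      (IsFractionRing.to_map_ne_zero_of_mem_nonZeroDivisors hr)
  have : CharZero k := (algebraMap k ℝ).charZero
  have : CharZero (FractionRing R) := charZero_of_injective_algebraMap (algebraMap k _).injective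
  obtain ⟨ψ, -⟩ := h5 ℝ z h2
  have fr : IsFormallyReal (FractionRing R) := ⟨fun h => by
    have : ∀ s, IsSumNonzeroSq s → 0 < ψ s := fun s hs => by
      induction hs with
      | sq ha => rw [map_mul]; exact mul_self_pos.2 ((map_ne_zero ψ).2 ha)
      | sq_add _ _ ih => rw [map_add, map_mul]; exact add_pos_of_nonneg_of_pos (mul_self_nonneg _) ih
    simpa using this 0 h⟩
  refine (ex_gr hf h4 (fun c => ?_) (fun c hc => ?_) fun v hv => ?_).elim fun e ⟨d, h7, h8⟩ =>
    ⟨f, _, _, _, _, e, d, hf, ⟨a, a0, h1⟩, h4, h7, h8, fr, h6⟩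
  · obtain ⟨p, r, -, rfl⟩ := IsFractionRing.div_surjective (A := R) c
    obtain ⟨p, rfl⟩ := Ideal.Quotient.mk_surjective p
    obtain ⟨r, rfl⟩ := Ideal.Quotient.mk_surjective r
    have := fun p => h3 p ▸ H32.aeval_mem_cl (C := k) (y := fun i => θ (X i))
      (fun i => H88.subset_cl _ (mem_range_self i)) p
    exact div_mem (this p) (this r)
  · obtain ⟨L, _, _, q, hq⟩ := H17.Cm.exists_gen_pt m.prime
    let _ : Algebra k L := ((algebraMap B L).comp (algebraMap k B)).toAlgebra
    have : IsScalarTower k B L := IsScalarTower.of_algebraMap_eq fun _ => rfl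
    obtain ⟨φ, -, hφ⟩ := h6 L q hq
    have h9 := ((hc.algHom φ).tower_top B).isIntegral
    obtain ⟨b, hb⟩ := minpoly.mem_range_of_degree_eq_one B _
      (IsAlgClosed.degree_eq_one_of_irreducible B (minpoly.irreducible h9))
    by_contra hn
    have := hφ _ ![1, b] (LinearIndependent.pair_iff.2 fun s t h => ?_) Finset.univ ![c, -1]
      (by simp [hb]) 1 (Finset.mem_univ _)
    · simp at this
    · by_cases ht : t = 0
      · simpa [ht] using h
      · refine absurd ⟨-s / t, φ.injective ?_⟩ hn
        have h10 : b = algebraMap k B (-s / t) := by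
          rw [map_div₀, eq_div_iff ((map_ne_zero _).2 ht), map_neg]
          simp only [Algebra.smul_def] at h
          linear_combination h
        rw [h10, ← IsScalarTower.algebraMap_apply] at hb
        exact hb.symm.trans (φ.commutes _).symm
  · have h9 := congrArg ψ hv
    simp only [map_sum, map_pow, map_zero] at h9
    exact funext fun i => (map_eq_zero ψ).1 (pow_eq_zero_iff two_ne_zero |>.1
      ((Finset.sum_eq_zero_iff_of_nonneg fun _ _ => sq_nonneg _).1 h9 i (Finset.mem_univ i)))

end Pool.Agent.MP_249f74_an.H65
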