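import Pool.Agent.MP_249f74_an.H65.Desc
import Pool.Agent.MP_249f74_an.H18.Base

/-!
Finite classes give invariant polynomials; the tangent complex of the mirror itself.
-/

open MvPolynomial Set

namespace Pool.Agent.MP_249f74_an.H65

open H17.Cm (grad)
open H32 (Mir)
open H42 (Gen)
open H18 (Iv Tn Cls)

variable {k B Ω ι : Type} [Field k] [Algebra k ℝ] [Field B] [Algebra k B] [Field Ω] [Algebra B Ω]
  [Fintype ι] [DecidableEq ι]

omit [DecidableEq ι] in
lemma ex_pt [IsAlgClosed Ω] (m : Mir k B ι) {l : ι ⊕ ι → Ω} (hl : Gen B l) :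
    ∃ t, t ∈ H32.Pts m l :=
  Finset.card_pos.1 (by rw [H32.card_pts m hl]; exact lt_of_lt_of_le two_pos m.deg)

omit [DecidableEq ι] in
lemma Pc.iv {K : Type} [Field K] [Algebra B K] [Algebra K Ω] [IsScalarTower B K Ω] [CharZero Ω]
    {m : Mir k B ι} {q : ι → K} {y : ι → Ω} {t : Ω} (P : Pc m q y t) {H : MvPolynomial (ι ⊕ ι) B}
    {c : K} (hc : c = 1 ∨ c = -1) (h : rf (grad m.f q) (pen q H) = C c * pen q H) :
    Iv m.f (H * H) := H18.Iv.of_gen P.on' fun u => by
  rw [← aeval_pen, ← aeval_pen, Pc.grad_alg, ← aeval_rf, map_mul (pen q), map_mul (rf _), h]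
  rcases hc with rfl | rfl <;> simp

/-- A finite class gives an invariant polynomial. -/
theorem inv [IsAlgClosed Ω] [CharZero Ω] {l0 : ι ⊕ ι → Ω} (h0 : Gen B l0) : H18.INV k B Ω ι := by
  intro m m' G l G0 hl hz hc
  have : CharZero B := (algebraMap B Ω).charZero
  obtain ⟨H, h1, h2, h3, h4⟩ := ex_rad G0
  obtain ⟨t, ht⟩ := ex_pt m h0
  obtain ⟨c, e1, e2⟩ := (ex_pc h0 ht).inv G0 (fun l t l' => hc l l' t) h1 h2 h3 h4
  obtain ⟨π, hπ, hk⟩ := hl.1
  exact ⟨H * H, mul_ne_zero h2.ne_zero h2.ne_zero, h1.mul h1, (ex_pc h0 ht).iv e1 e2,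
    H18.Tn.of_tl (h1.mul h1) hl ((hk _).2
      ((h4 π hπ (H18.tp_of_tl hl hπ hk).1.lin ((hk G).1 hz)).mul_right _))⟩

section Pen

variable {L : Type} [Field L] [Algebra B L] [Infinite L] {f : MvPolynomial ι B} {q : ι → L}
  {H : MvPolynomial (ι ⊕ ι) B}

omit [DecidableEq ι] in
lemma iv_pen (h : Iv f H) (h0 : aeval q f = 0) (hn : grad f q ⬝ᵥ grad f q ≠ 0) :
    rf (grad f q) (pen q H) = pen q H := MvPolynomial.funext fun u => by
  rw [← coe_aeval_eq_eval, RingHom.coe_coe, aeval_rf, aeval_pen, aeval_pen]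
  exact h L q u h0 hn

lemma tn_pen (h : Tn f H) (h0 : aeval q f = 0) {e : ι} (hn : grad f q e ≠ 0) :
    pr e (fun i => grad f q i / grad f q e) (pen q H) = 0 := MvPolynomial.funext fun u => by
  rw [← coe_aeval_eq_eval, RingHom.coe_coe, pr, ← AlgHom.comp_apply, comp_aeval, aeval_pen, map_zero]
  refine h L q _ h0 (fun h => hn (congrFun h e)) ?_
  simp [dotProduct, mul_sub, apply_ite (eval u), lin, Finset.mul_sum, ← mul_assoc,
    mul_div_cancel₀ _ hn]

end Pen

variable (k ι) in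
/-- Invariant polynomials that vanish on the tangent lines, rank one. -/
def RTS : Prop :=
  ∀ (K : Type) [Field K] [Algebra k K] [CharZero K] [IsFormallyReal K] (q w : ι → K) (e : ι)
    (d : ι → Derivation k K K) (F : MvPolynomial (ι ⊕ ι) k), Gr q e w d → Rk1 w d → Lin F →
    pen q F ≠ 0 → rf w (pen q F) = pen q F → lin w ∣ pen q F → Quad k q

variable (k ι) in
/-- Polynomials exchanged by the reflection, rank one. -/
def RONE : Prop :=
  ∀ (K : Type) [Field K] [Algebra k K] [CharZero K] [IsFormallyReal K] (q w : ι → K) (e : ι)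
    (d : ι → Derivation k K K) (F0 F1 : MvPolynomial (ι ⊕ ι) k) (c : K), Gr q e w d → Rk1 w d →
    Lin F0 → Lin F1 → pen q F0 ≠ 0 → c ≠ 0 → rf w (pen q F1) = C c * pen q F0 →
    (∃ c0, c = algebraMap k K c0) ∨ Quad k q

namespace Rm

variable {K L : Type} [Field K] [Algebra k K] {m : Mir k B ι} {f : MvPolynomial ι k} {y : ι → K}
  {e : ι} {d : ι → Derivation k K K} (R : Rm m f y e d) [Field L] [Algebra B L] [Algebra k L]
  [IsScalarTower k B L] {q : ι → L} {φ : K →ₐ[k] L}
include R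

lemma qd (h : Quad k y) : H32.Qd m := by
  obtain ⟨a, a0, h1⟩ := R.eq
  refine le_antisymm ?_ m.deg
  rw [h1]
  exact (totalDegree_mul _ _).trans (by
    simpa using (H52.RM.td_map_le _ _).trans ((quad_iff R.prime.ne_zero R.on).1 h))

lemma grad_eq (h : ∀ i, φ (y i) = q i) :
    ∃ a : L, a ≠ 0 ∧ ∀ i, grad m.f q i = a * φ (grad f y i) := by
  obtain ⟨a, a0, h1⟩ := R.eq
  refine ⟨algebraMap B L a, (map_ne_zero _).2 a0, fun i => ?_⟩
  simp only [grad, h1, pderiv_C_mul, pderiv_map, map_mul, aeval_C, aeval_map_algebraMap,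
    comp_aeval_apply, h]

lemma grad_ne (h : ∀ i, φ (y i) = q i) : grad m.f q e ≠ 0 := by
  obtain ⟨a, a0, h1⟩ := R.grad_eq h
  exact h1 e ▸ mul_ne_zero a0 ((map_ne_zero φ).2 R.ne)

lemma w_eq (h : ∀ i, φ (y i) = q i) : (fun i => (φ : K →+* L) (grad f y i / grad f y e)) =
    fun i => grad m.f q i / grad m.f q e := by
  obtain ⟨a, a0, h1⟩ := R.grad_eq h
  ext i
  rw [h1, h1, mul_div_mul_left _ _ a0, map_div₀]
  rfl

lemma map_rf' (h : ∀ i, φ (y i) = q i) (a : MvPolynomial ι K) :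
    map (φ : K →+* L) (rf (fun i => grad f y i / grad f y e) a) =
      rf (grad m.f q) (map (φ : K →+* L) a) := by
  rw [map_rf, R.w_eq h, rf_smul (R.grad_ne h)]

omit R [Algebra k ℝ] [Fintype ι] [DecidableEq ι] in
lemma pen_real (h : ∀ i, φ (y i) = q i) (g : MvPolynomial (ι ⊕ ι) k) :
    pen q (map (algebraMap k B) g) = map (φ : K →+* L) (pen y g) := by
  rw [pen_map, map_pen, funext h]

omit R [Algebra k ℝ] [Fintype ι] [DecidableEq ι] in
lemma pen_dec (h : ∀ i, φ (y i) = q i) {J : Type} (b : J → B) (s : Finset J)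
    (g : J → MvPolynomial (ι ⊕ ι) k) : pen q (∑ j ∈ s, C (b j) * map (algebraMap k B) (g j)) =
      ∑ j ∈ s, C (algebraMap B L (b j)) * map (φ : K →+* L) (pen y (g j)) := by
  rw [map_sum]
  exact Finset.sum_congr rfl fun j _ => by
    rw [map_mul, pen_real h]
    exact congrArg (· * _) ((pen q).commutes (b j))

end Rm

/-- A mirror whose own tangent complex is in a finite class is a quadric. -/
theorem self [IsAlgClosed B] (hR : RTS k ι) : H18.SELF k B ι := by
  intro m H hH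
  obtain ⟨f, K, _, _, y, e, d, R⟩ := ex_rm m
  obtain ⟨L, _, _, q, hq⟩ := H17.Cm.exists_gen_pt m.prime
  let _ : Algebra k L := ((algebraMap B L).comp (algebraMap k B)).toAlgebra
  have : IsScalarTower k B L := IsScalarTower.of_algebraMap_eq fun _ => rfl
  have : CharZero k := (algebraMap k ℝ).charZero
  have : CharZero K := charZero_of_injective_algebraMap (algebraMap k K).injective
  have : CharZero L := charZero_of_injective_algebraMap (algebraMap k L).injective
  have := R.fr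
  obtain ⟨φ, h1, h2⟩ := R.emb L q hq
  have h3 := (Module.Basis.ofVectorSpace k B).linearIndependent
  obtain ⟨s, g, rfl⟩ := dec (Module.Basis.ofVectorSpace k B) H
  obtain ⟨j, hj, g0⟩ := Finset.exists_ne_zero_of_sum_ne_zero hH.ne
  have h4 := hH.lin.dec h3 j hj
  have h5 := h4.pen_ne R.prime R.on fun h => g0 (by simp [h])
  have h6 := iv_pen hH.iv (H32.Mir.On.zero hq) (H32.Mir.On.nn hq)
  have h7 := tn_pen hH.tn (H32.Mir.On.zero hq) (R.grad_ne h1)
  rw [Rm.pen_dec h1] at h6 h7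
  have h8 := sub_eq_zero.1 ((h2 _ _ h3).poly (s := s)
    (a := fun j => rf (fun i => grad f y i / grad f y e) (pen y (g j)) - pen y (g j)) (by
      simpa only [map_sub, mul_sub, Finset.sum_sub_distrib, R.map_rf' h1, map_sum, map_mul, rf_C,
        sub_eq_zero] using h6) j hj)
  have h9 := R.gr.pr_eq_zero.1 ((h2 _ _ h3).poly (s := s)
    (a := fun j => pr e (fun i => grad f y i / grad f y e) (pen y (g j))) (by
      simpa only [map_pr, R.w_eq h1, map_sum, map_mul, pr_C] using h7) j hj)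
  exact R.qd ((R.gr.ts h4 h8 h5 h9).elim id fun h => hR K _ _ _ _ _ R.gr h h4 h5 h8 h9)

end Pool.Agent.MP_249f74_an.H65
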