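import Pool.Agent.MP_249f74_an.H65.Self
import Pool.Agent.MP_249f74_an.H40.UniQ

/-!
Relations over one step.
-/

open MvPolynomial Set

namespace Pool.Agent.MP_249f74_an.H65

open H17.Cm (grad)
open H32 (Mir St pt dir)
open H42 (Gen FL)
open H18 (Iv Tn Cls)
open H88 (cl subset_cl)

variable {k B Ω ι : Type} [Field k] [Algebra k ℝ] [Field B] [Algebra k B] [Field Ω] [Algebra B Ω]
  [Fintype ι] [DecidableEq ι]

namespace Gr

variable {K : Type} [Field K] [Algebra k K] [CharZero K] {q w : ι → K} {e : ι}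
  {d : ι → Derivation k K K} (G : Gr q e w d)
include G

omit [Algebra k ℝ] in
lemma flat (h : hq w d = 0) : Quad k q := by
  have h0 : ∀ i j, d j (w i) = 0 := fun i j => by
    have h1 := pderiv_qd (t := fun i j => d j (w i)) G.sym i
    rw [show qd (fun i j => d j (w i)) = 0 from h, map_zero, eq_comm] at h1
    exact congrFun (lin_eq_zero ((mul_eq_zero.1 h1).resolve_left two_ne_zero)) j
  choose c hc using fun i => G.cst' (h0 i)
  obtain ⟨a, ha⟩ := G.cst' (a := ∑ i, w i * q i) fun j => by simpa [h0] using G.tan (d j)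
  refine ⟨lin c - C a, fun h => ?_, (totalDegree_sub _ _).trans
    (max_le ((lin_hom c).totalDegree_le.trans one_le_two) (by simp)), ?_⟩
  · have := congrArg (pderiv e) h
    rw [map_sub, pderiv_lin, pderiv_C, sub_zero, map_zero, C_eq_zero] at this
    exact one_ne_zero (by rw [← G.we, hc, this, map_zero] : (1 : K) = 0)
  · rw [map_sub, aeval_lin, aeval_C, ← ha]
    simp only [hc, sub_self]

omit [Algebra k ℝ] in
lemma one' [CharZero k] [IsFormallyReal K] (hR : RONE k ι) {F0 F1 : MvPolynomial (ι ⊕ ι) k}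
    (h0 : Lin F0) (h1 : Lin F1) {c : K} (c0 : c ≠ 0) (hr : rf w (pen q F1) = C c * pen q F0)
    (f0 : pen q F0 ≠ 0) : rf w (pen q F0) = pen q F0 ∨ Quad k q := by
  by_cases q0 : hq w d = 0
  · exact .inr (G.flat q0)
  refine (G.one h0 h1 c0 hr f0).elim (fun ⟨_, h⟩ => .inl h.2.2) fun h => h.elim .inr fun h =>
    (hR K q w e d F0 F1 c G h h0 h1 f0 c0 hr).imp_left ?_
  rintro ⟨c, rfl⟩
  exact mul_left_cancel₀ (by rwa [Ne, C_eq_zero]) ((G.rf_swap hr).trans (G.one_a h0 h1 hr q0))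

end Gr

lemma sq_of {A : Type} [CommRing A] [IsDomain A] [UniqueFactorizationMonoid A] {x a b : A}
    (hb : b ≠ 0) (h : x * b ^ 2 = a ^ 2) : ∃ c, x = c ^ 2 := by
  obtain ⟨c, rfl⟩ := (UniqueFactorizationMonoid.pow_dvd_pow_iff_dvd two_ne_zero).1
    (⟨x, by rw [← h, mul_comm]⟩ : b ^ 2 ∣ a ^ 2)
  exact ⟨c, mul_right_cancel₀ (pow_ne_zero 2 hb) (by rw [h]; ring)⟩

omit [Fintype ι] [DecidableEq ι] in
/-- A square root that is fixed by all automorphisms is a polynomial. -/
lemma sq_fix {K : Type} [Field K] [Algebra K Ω] [IsAlgClosed Ω] [CharZero Ω] {t s : Ω} {u : ι → Ω}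
    (hi : AlgebraicIndependent K fun o : Option ι => o.elim t u)
    (hs : ∀ σ : Ω ≃ₐ[K] Ω, σ t = t → (∀ i, σ (u i) = u i) → σ s = s) {A : MvPolynomial ι K}
    (e : s ^ 2 = aeval u A) : ∃ c, A = c ^ 2 := by
  have h1 : s ∈ IntermediateField.adjoin K (range fun o : Option ι => o.elim t u) :=
    by_contra fun h => by
      obtain ⟨τ, t1, t2⟩ := H17.aut_move h
      exact t2 (hs τ (t1 _ (IntermediateField.subset_adjoin _ _ ⟨none, rfl⟩)) fun i =>
        t1 _ (IntermediateField.subset_adjoin _ _ ⟨some i, rfl⟩))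
  obtain ⟨a, b, rfl⟩ := (IntermediateField.mem_adjoin_range_iff ..).1 h1
  by_cases hb : b = 0
  · refine ⟨0, (hi.comp _ (Option.some_injective _)) ?_⟩
    simpa [hb, Function.comp_def] using e.symm
  have h2 : rename some A * b ^ 2 = a ^ 2 := hi (by
    have := (map_ne_zero_iff _ hi).2 hb
    rw [map_mul, aeval_rename, map_pow, map_pow]
    exact (congrArg (· * _) e.symm).trans (by field_simp))
  have h3 := congrArg (fun p => (optionEquivLeft K ι p).leadingCoeff) h2
  have h4 : optionEquivLeft K ι (rename some A) = Polynomial.C A := by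
    clear e h2 h3
    induction A using MvPolynomial.induction_on <;> simp [*]
  simp only [map_mul, map_pow, Polynomial.leadingCoeff_mul, Polynomial.leadingCoeff_pow, h4,
    Polynomial.leadingCoeff_C] at h3
  exact sq_of (Polynomial.leadingCoeff_ne_zero.2 ((map_ne_zero_iff _ (AlgEquiv.injective _)).2 hb))
    h3

namespace Pc

variable {K : Type} [Field K] [Algebra B K] [Algebra K Ω] [IsScalarTower B K Ω] [CharZero Ω]
  [IsAlgClosed Ω] {m : Mir k B ι} {q : ι → K} {y : ι → Ω} {t : Ω} (P : Pc m q y t)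
include P

lemma swap (hS : H18.SELF k B ι) (hm : ¬H32.Qd m) {F H : MvPolynomial (ι ⊕ ι) B} (h1 : Lin F)
    (h2 : Squarefree F) (h3 : Lin H) (h4 : Squarefree H) {c : MvPolynomial ι K}
    (e : pen q F * rf (grad m.f q) (pen q H) = c ^ 2) :
    ∃ a, a ≠ 0 ∧ rf (grad m.f q) (pen q F) = C a * pen q H := by
  have F0 := P.pen_ne h1 h2.ne_zero
  have H0 := P.pen_ne h3 h4.ne_zero
  obtain ⟨i, E, hE, he⟩ := WfDvdMonoid.max_power_factor F0 P.g_prime.irreducible
  obtain ⟨j, E', hE', he'⟩ := WfDvdMonoid.max_power_factor H0 P.g_prime.irreducible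
  have h5 : ∀ p, Prime p → ¬ p ∣ lin (grad m.f q) → ¬ p * p ∣ E := fun p hp h e =>
    P.simple h1 h2 hp h (he ▸ e.mul_left _)
  have h6 : ∀ p, Prime p → ¬ p ∣ lin (grad m.f q) → ¬ p * p ∣ rf (grad m.f q) E' :=
    fun p hp h e => P.simple h3 h4 (rf_prime P.nn hp)
      (by rwa [rf_dvd P.nn, rf_lin P.nn, dvd_neg])
      (he' ▸ Dvd.dvd.mul_left (by rwa [← map_mul, rf_dvd P.nn]) _)
  have key : ∀ {a b : MvPolynomial ι K} {n : ℕ} {p}, lin (grad m.f q) ^ n * (a * b) = c ^ 2 ∨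
      lin (grad m.f q) ^ n * (a * b) = -c ^ 2 → Prime p → ¬ p ∣ lin (grad m.f q) → ¬ p * p ∣ a →
      p ∣ a → p ∣ b := by
    rintro _ b n p h hp hn hs ⟨a, rfl⟩
    have h7 : p ∣ c := hp.dvd_of_dvd_pow (n := 2) (by
      rcases h with h | h
      · exact h ▸ ((dvd_mul_right p a).mul_right b).mul_left _
      · exact dvd_neg.1 (h ▸ ((dvd_mul_right p a).mul_right b).mul_left _))
    have h8 : p * p ∣ p * (lin (grad m.f q) ^ n * (a * b)) := by
      rw [mul_left_comm, ← mul_assoc p a]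
      rcases h with h | h <;> rw [h] <;> simpa [pow_two] using mul_dvd_mul h7 h7
    exact (hp.dvd_or_dvd ((hp.dvd_or_dvd ((mul_dvd_mul_iff_left hp.ne_zero).1 h8)).resolve_left
      fun h => hn (hp.dvd_of_dvd_pow h))).resolve_left fun h => hs (mul_dvd_mul_left p h)
  have h7 : lin (grad m.f q) ^ (i + j) * (E * rf (grad m.f q) E') = c ^ 2 ∨
      lin (grad m.f q) ^ (i + j) * (E * rf (grad m.f q) E') = -c ^ 2 := by
    rw [← e, he, he', map_mul, map_pow, rf_lin P.nn]
    exact (Nat.even_or_odd j).imp (fun h => by rw [h.neg_pow]; ring) fun h => by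
      rw [h.neg_pow]; ring
  obtain ⟨a, a0, h8⟩ := eq_of_simple P.g_prime hE
    (by rwa [← rf_dvd P.nn, rf_lin P.nn, neg_dvd]) h5 h6
    (fun p hp h => key h7 hp h (h5 p hp h)) fun p hp h => key (mul_comm E _ ▸ h7) hp h (h6 p hp h)
  by_cases h9 : i + j = 0
  · obtain ⟨rfl, rfl⟩ := Nat.add_eq_zero_iff.1 h9
    exact ⟨a, a0, by rw [he, he', pow_zero, one_mul, one_mul, h8, map_mul, rf_inv P.nn, rf_C]⟩
  have h10 : pen q (F * H) = lin (grad m.f q) ^ (i + j) * (E * E') := by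
    rw [map_mul, he, he']; ring
  refine absurd (hS m _ ⟨mul_self_ne_zero.2 (mul_ne_zero h2.ne_zero h4.ne_zero),
    (h1.mul h3).mul (h1.mul h3), P.iv (c := (-1) ^ (i + j)) (neg_one_pow_eq_or _ _) ?_,
    H18.Tn.of_gen P.on' fun v hv => ?_⟩) hm
  · rw [h10, h8]
    simp only [map_mul, map_pow, rf_lin P.nn, rf_inv P.nn, rf_C, map_neg, map_one]
    ring
  · rw [map_mul, ← aeval_pen, h10, map_mul, map_pow, aeval_lin]
    rw [grad_alg] at hv
    exact mul_eq_zero_of_left (mul_eq_zero_of_left ((pow_eq_zero_iff h9).2 hv) _) _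

end Pc

/-- Descent to the real model. -/
lemma iv_of_swap [IsAlgClosed B] (hR : RONE k ι) {m : Mir k B ι} (hm : ¬H32.Qd m) {L : Type}
    [Field L] [Algebra B L] {q : ι → L} (hq : m.On q) {F : MvPolynomial (ι ⊕ ι) B}
    {h : MvPolynomial (ι ⊕ ι) k} (h1 : Lin F) (h2 : Lin h) (h0 : h ≠ 0) {a : L} (a0 : a ≠ 0)
    (he : rf (grad m.f q) (pen q F) = C a * pen q (map (algebraMap k B) h)) :
    rf (grad m.f q) (pen q (map (algebraMap k B) h)) = pen q (map (algebraMap k B) h) := by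
  obtain ⟨f, K, _, _, y, e, d, R⟩ := ex_rm m
  let _ : Algebra k L := ((algebraMap B L).comp (algebraMap k B)).toAlgebra
  have : IsScalarTower k B L := IsScalarTower.of_algebraMap_eq fun _ => rfl
  have : CharZero k := (algebraMap k ℝ).charZero
  have : CharZero K := charZero_of_injective_algebraMap (algebraMap k K).injective
  have := R.fr
  obtain ⟨φ, h3, h4⟩ := R.emb L q hq
  have h5 := (Module.Basis.ofVectorSpace k B).linearIndependent
  obtain ⟨s, g, rfl⟩ := dec (Module.Basis.ofVectorSpace k B) F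
  have h6 := h2.pen_ne R.prime R.on h0
  obtain ⟨μ, hμ⟩ := ne_zero_iff.1 h6
  rw [Rm.pen_dec h3, Rm.pen_real h3] at he
  simp only [map_sum, map_mul, rf_C, ← R.map_rf' h3] at he
  obtain ⟨c, hc⟩ : ∃ c : _ → K, ∀ j, c j * coeff μ (pen y h) =
      coeff μ (rf (fun i => grad f y i / grad f y e) (pen y (g j))) :=
    ⟨_, fun j => div_mul_cancel₀ _ hμ⟩
  have h7 : ∑ j ∈ s, algebraMap B L (Module.Basis.ofVectorSpace k B j) * φ (c j) = a := by
    have := congrArg (coeff μ) he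
    simp only [coeff_sum, coeff_C_mul, coeff_map, ← hc, map_mul, ← mul_assoc,
      ← Finset.sum_mul] at this
    exact mul_right_cancel₀ ((map_ne_zero _).2 hμ) this
  obtain ⟨j, hj, c0⟩ := Finset.exists_ne_zero_of_sum_ne_zero (h7 ▸ a0)
  have h8 := sub_eq_zero.1 ((h4 _ _ h5).poly (s := s) (a := fun j =>
    rf (fun i => grad f y i / grad f y e) (pen y (g j)) - C (c j) * pen y h) (by
      simp only [map_sub, mul_sub, Finset.sum_sub_distrib, he, ← h7, map_mul, map_C, map_sum,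
        Finset.sum_mul, mul_assoc, RingHom.coe_coe, sub_self]) j hj)
  rw [Rm.pen_real h3, ← R.map_rf' h3, (R.gr.one' hR h2 (h1.dec h5 j hj) (fun h => c0 (by simp [h]))
    h8 h6).resolve_right fun h => hm (R.qd h)]

theorem iv_of_sq [IsAlgClosed B] [IsAlgClosed Ω] [CharZero Ω] (hS : H18.SELF k B ι)
    (hR : RONE k ι) {m : Mir k B ι} (hm : ¬H32.Qd m) {l l' : ι ⊕ ι → Ω} {t s : Ω} (hl : Gen B l)
    (st : St m l t l') {F : MvPolynomial (ι ⊕ ι) B} {h : MvPolynomial (ι ⊕ ι) k}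
    (h1 : Squarefree F) (h2 : Lin F) (h3 : Lin h) (h4 : Squarefree (map (algebraMap k B) h))
    (hs : ∀ σ ∈ FL B l, σ t = t → σ s = s)
    (e : s ^ 2 = H42.ev l F * H42.ev l' (map (algebraMap k B) h)) :
    Iv m.f (map (algebraMap k B) h * map (algebraMap k B) h) := by
  have : CharZero B := (algebraMap B Ω).charZero
  obtain ⟨q, hq, P⟩ : ∃ q : ι → cl B (range (pt l t)), (fun i => algebraMap _ Ω (q i)) = pt l t ∧
    Pc m q (dir l) t := ⟨_, rfl, ex_pc hl st.mem⟩
  have h0 : ∀ σ : Ω ≃ₐ[cl B (range (pt l t))] Ω, σ t = t → (∀ i, σ (dir l i) = dir l i) →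
      σ s = s := fun σ a1 a2 => hs (σ.restrictScalars B) (by
    rintro _ ⟨i | i, rfl⟩
    · have h5 : σ (pt l t i) = pt l t i := congrFun hq i ▸ σ.commutes (q i)
      rw [show pt l t i = l (.inl i) + t * dir l i from rfl, map_add, map_mul, a1, a2] at h5
      exact add_right_cancel h5
    · exact a2 i) a1
  obtain ⟨c, hc⟩ := sq_fix (H40.ind_tu hl st.mem _ le_rfl) h0
    (A := pen q F * rf (grad m.f q) (pen q (map (algebraMap k B) h))) (by
      rw [e, map_mul, aeval_rf, aeval_pen, aeval_pen, H18.ev_pt h2 l t, H18.ev_pt h3.map l' t,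
        st.pt_eq, st.dir_eq, ← Pc.grad_alg, hq])
  obtain ⟨a, a0, h5⟩ := P.swap hS hm h2 h1 h3.map h4 hc
  exact P.iv (.inl rfl) ((iv_of_swap hR hm P.on h2 h3 (fun h => h4.ne_zero (by simp [h])) a0
    h5).trans (by simp))

end Pool.Agent.MP_249f74_an.H65
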