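import Pool.Agent.MP_249f74_an.H65.One
import Pool.Agent.MP_249f74_an.H17.Cm

/-!
Graph coordinates at a generic point of a real hypersurface.
-/

open MvPolynomial Matrix

namespace Pool.Agent.MP_249f74_an.H65

open H17.Cm (grad)

variable {k K ι : Type} [Field k] [Field K] [Algebra k K] [Fintype ι] [DecidableEq ι]

omit [DecidableEq ι] in
lemma aeval_rf {B : Type} [Field B] [Algebra K B] (w : ι → K) (u : ι → B) (a : MvPolynomial ι K) :
    aeval u (rf w a) = aeval (H17.Cm.rf (fun i => algebraMap K B (w i)) u) a := by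
  rw [rf, ← AlgHom.comp_apply, comp_aeval]
  congr 2
  ext i
  simp only [map_sub, map_mul, aeval_X, aeval_C, aeval_lin, H17.Cm.rf, Pi.sub_apply, Pi.smul_apply,
    smul_eq_mul, dotProduct, map_div₀, map_sum, map_ofNat, pow_two]
  ring

omit [DecidableEq ι] in
lemma rf_smul {c : K} (hc : c ≠ 0) (w : ι → K) : rf (fun i => w i / c) = rf w := by
  refine algHom_ext fun i => ?_
  have h : (lin fun i => w i / c) = C c⁻¹ * lin w := by
    rw [← lin_mul]; simp only [div_eq_inv_mul]
  rw [rf, rf, aeval_X, aeval_X, h, ← mul_assoc, ← map_mul]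
  congr 3
  simp only [div_pow, ← Finset.sum_div]
  by_cases h0 : ∑ j, w j ^ 2 = 0
  · simp [h0]
  · field_simp

omit [Fintype ι] [DecidableEq ι] in
lemma aeval_pen {B : Type} [CommRing B] [Algebra K B] [Algebra k B] [IsScalarTower k K B]
    (q : ι → K) (u : ι → B) (F : MvPolynomial (ι ⊕ ι) k) :
    aeval u (pen q F) = ev (fun i => algebraMap K B (q i)) u F := by
  have := map_ev ((aeval u : MvPolynomial ι K →ₐ[K] B).restrictScalars k) (fun i => C (q i)) X F
  simp only [AlgHom.restrictScalars_apply, aeval_C, aeval_X] at this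
  exact this

omit [Fintype ι] [DecidableEq ι] in
lemma ex_pderiv [CharZero k] {f : MvPolynomial ι k} (hf : Prime f) : ∃ e, ¬ f ∣ pderiv e f := by
  classical
  by_contra h
  push Not at h
  have h1 : ∀ e, pderiv e f = 0 := fun e => by_contra fun h0 => by
    obtain ⟨g, hg⟩ := h e
    have g0 : g ≠ 0 := right_ne_zero_of_mul (hg ▸ h0)
    have h2 := degreeOf_mul_eq (n := e) hf.ne_zero g0
    rw [← hg] at h2
    have h3 : degreeOf e (pderiv e f) < degreeOf e f := by
      have h4 : 0 < degreeOf e f := Nat.pos_of_ne_zero fun h =>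
        h0 (pderiv_eq_zero_of_notMem_vars (fun h' => mem_vars_iff_degreeOf_ne_zero.1 h' h))
      rw [degreeOf_lt_iff h4]
      intro m hm
      rw [mem_support_iff, coeff_pderiv] at hm
      have := monomial_le_degreeOf e (mem_support_iff.2 (left_ne_zero_of_mul hm))
      simpa using this
    omega
  have h2 : f = C (coeff 0 f) := by
    ext m
    rw [coeff_C]
    split_ifs with hm
    · rw [hm]
    · obtain ⟨e, he⟩ := Finsupp.ne_iff.1 (Ne.symm hm)
      have := congrArg (coeff (m - Finsupp.single e 1)) (h1 e)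
      rw [coeff_pderiv, tsub_add_cancel_of_le (by
        rw [Finsupp.single_le_iff]; exact Nat.one_le_iff_ne_zero.2 he)] at this
      exact (mul_eq_zero.1 this).resolve_right (Nat.cast_add_one_ne_zero _)
  exact hf.not_isUnit (h2 ▸ (Ne.isUnit fun h => hf.ne_zero (by rw [h2, h, map_zero])).map C)

omit [DecidableEq ι] in
/-- Tangent vectors at a generic point are values of derivations. -/
lemma ex_tan [CharZero K] {f : MvPolynomial ι k} {q : ι → K} (hq : ∀ p, aeval q p = 0 ↔ f ∣ p)
    {v : ι → K} (hv : ∑ i, grad f q i * v i = 0) : ∃ D : Derivation k K K, ∀ i, D (q i) = v i := by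
  classical
  obtain ⟨D, hD⟩ := H17.ext_der (aeval q : MvPolynomial ι k →ₐ[k] K)
    { toFun := fun p => ∑ i, grad p q i * v i
      map_zero' := by simp [grad]
      map_add' := fun a b => by simp [grad, add_mul, Finset.sum_add_distrib] }
    (fun a b => by simp [grad, add_mul, Finset.sum_add_distrib, Finset.mul_sum, mul_assoc])
    (fun a ha => by
      obtain ⟨g, rfl⟩ := (hq a).1 ha
      have := (hq f).2 dvd_rfl
      simp only [grad] at hv
      simp [grad, this, mul_assoc, ← Finset.mul_sum, hv])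
    (fun c => by simp [grad])
  exact ⟨D, fun i => by simpa [grad, pderiv_X, Pi.single_apply, apply_ite] using hD (X i)⟩

/-- Transcendental elements are moved by a derivation. -/
lemma alg_of_der [CharZero K] {a : K} (h : ∀ D : Derivation k K K, D a = 0) : IsAlgebraic k a := by
  by_contra hn
  obtain ⟨D, hD⟩ := H17.ext_der (Polynomial.aeval a : Polynomial k →ₐ[k] K)
    { toFun := fun p => Polynomial.aeval a (Polynomial.derivative p)
      map_zero' := by simp
      map_add' := fun a b => by simp }
    (fun a b => by simp; ring)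
    (fun p hp => by simp [transcendental_iff.1 hn p hp]) (fun c => by simp)
  simpa [h] using hD Polynomial.X

/-- Graph coordinates exist. -/
theorem ex_gr [CharZero k] [CharZero K] {f : MvPolynomial ι k} (hf : Prime f) {q : ι → K}
    (hq : ∀ p, aeval q p = 0 ↔ f ∣ p) (alg : ∀ a, a ∈ H88.cl k (Set.range q))
    (cl : ∀ a : K, IsAlgebraic k a → ∃ c, a = algebraMap k K c)
    (ani : ∀ v : ι → K, ∑ i, v i ^ 2 = 0 → v = 0) :
    ∃ (e : ι) (d : ι → Derivation k K K), grad f q e ≠ 0 ∧
      Gr q e (fun i => grad f q i / grad f q e) d := by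
  obtain ⟨e, he⟩ := ex_pderiv hf
  have h0 : grad f q e ≠ 0 := fun h => he ((hq _).1 h)
  have h1 := fun j => ex_tan hq (v := fun i => (if i = j then 1 else 0) -
    if i = e then grad f q j / grad f q e else 0) (by simp [mul_sub, mul_div_cancel₀ _ h0])
  choose d hd using h1
  refine ⟨e, d, h0, div_self h0, fun i j => hd j i, fun D => ?_, fun D h => ?_,
    fun a h => cl a (alg_of_der h), ani⟩
  · have := chain D q f
    rw [(hq f).2 dvd_rfl, map_zero] at this
    simp only [div_mul_eq_mul_div, ← Finset.sum_div, grad, ← this, zero_div]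
  · ext a
    exact H17.kill_cl (by rintro _ ⟨i, rfl⟩; exact h i) (alg a)

omit [Fintype ι] [DecidableEq ι] in
lemma quad_iff {f : MvPolynomial ι k} (f0 : f ≠ 0) {q : ι → K} (hq : ∀ p, aeval q p = 0 ↔ f ∣ p) :
    Quad k q ↔ f.totalDegree ≤ 2 :=
  ⟨fun ⟨p, p0, h1, h2⟩ => (totalDegree_le_of_dvd_of_isDomain ((hq p).1 h2) p0).trans h1,
    fun h => ⟨f, f0, h, (hq f).2 dvd_rfl⟩⟩

end Pool.Agent.MP_249f74_an.H65
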