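import Pool.Agent.MP_249f74_an.H65.Scr2

/-!
Real scrolls: the factor of a reflected line polynomial is constant along the rulings.
-/

open MvPolynomial

namespace Pool.Agent.MP_249f74_an.H65

variable {k K ι : Type} [Field k] [Field K] [Algebra k K] [Fintype ι] [DecidableEq ι]
  [CharZero k] [CharZero K]

/-- Polynomials as power series. -/
noncomputable def co (k A : Type) [CommRing k] [CommRing A] [Algebra k A] :
    Polynomial A →ₐ[k] PowerSeries A :=
  { Polynomial.coeToPowerSeries.ringHom with
    commutes' := fun c => (Polynomial.coe_C (algebraMap k A c)).trans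
      PowerSeries.algebraMap_apply.symm }

lemma co_apply (k : Type) {A : Type} [CommRing k] [CommRing A] [Algebra k A] (p : Polynomial A) :
    co k A p = p := rfl

lemma mco_C (k : Type) {A : Type} [CommRing k] [CommRing A] [Algebra k A] (p : Polynomial A) :
    Polynomial.mapAlgHom (co k A) (Polynomial.C p) = Polynomial.C (p : PowerSeries A) :=
  Polynomial.map_C _

lemma mco_X (k A : Type) [CommRing k] [CommRing A] [Algebra k A] :
    Polynomial.mapAlgHom (co k A) Polynomial.X = Polynomial.X := Polynomial.map_X _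

/-- Evaluation on the lines near a line of the ruling. -/
noncomputable def nr (q : ι → K) (e r : ι) (w m : ι → K) (d : ι → Derivation k K K) :
    MvPolynomial ι K →ₐ[k] Polynomial (PowerSeries (MvPolynomial ι K)) :=
  aevalTower (Polynomial.CAlgHom.comp ((tt e r w m d).comp (IsScalarTower.toAlgHom k K _)))
    fun i => Polynomial.C (PowerSeries.C (ps e r w m (X i))) +
      Polynomial.X * Polynomial.C (dl q e r w m d i : PowerSeries (MvPolynomial ι K))

omit [CharZero K] in
lemma nr_C (q : ι → K) (e r : ι) (w m : ι → K) (d : ι → Derivation k K K) (a : K) :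
    nr q e r w m d (C a) = Polynomial.C (tt e r w m d (C a)) := aevalTower_C _ _ _

omit [CharZero K] in
lemma nr_X (q : ι → K) (e r : ι) (w m : ι → K) (d : ι → Derivation k K K) (i : ι) :
    nr q e r w m d (X i) = Polynomial.C (PowerSeries.C (ps e r w m (X i))) +
      Polynomial.X * Polynomial.C (dl q e r w m d i : PowerSeries (MvPolynomial ι K)) :=
  aevalTower_X _ _ _

namespace Sc

variable {q w m m' : ι → K} {e r : ι} {d : ι → Derivation k K K} {μ : MvPolynomial ι K}
  (G : Sc q e w d r m m' μ)
include G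

omit [CharZero K] in
lemma nr_lin (a : ι → K) : nr q e r w m d (lin a) =
    Polynomial.C (tt e r w m d (ps e r w m (lin a))) + Polynomial.X * Polynomial.C
      (∑ i, tt e r w m d (C (a i)) * (dl q e r w m d i : PowerSeries (MvPolynomial ι K))) := by
  rw [G.tt_lin, lin, map_sum, map_sum, map_sum, Finset.mul_sum, ← Finset.sum_add_distrib]
  exact Finset.sum_congr rfl fun i _ => by rw [map_mul, nr_C, nr_X, map_mul, map_mul]; ring

lemma nr_pr (a : MvPolynomial ι K) : nr q e r w m d (pr e w a) = nr q e r w m d a := by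
  obtain ⟨y, h⟩ := pr_sub e w a
  rw [← sub_eq_zero, ← map_sub, h, map_mul, G.nr_lin, G.ps_g, G.om_dl]
  simp

omit [CharZero K] in
lemma nr_zero (a : MvPolynomial ι K) :
    (nr q e r w m d a).coeff 0 = tt e r w m d (ps e r w m a) := by
  induction a using MvPolynomial.induction_on with
  | C a => rw [nr_C, ps_C, Polynomial.coeff_C_zero]
  | add p q hp hq => simp only [map_add, Polynomial.coeff_add, hp, hq]
  | mul_X p i hp => simp [Polynomial.mul_coeff_zero, hp, nr_X, G.tt_U]

lemma nr_pen {F : MvPolynomial (ι ⊕ ι) k} (h : Lin F) (a : ℕ) :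
    ∃ P : Polynomial (MvPolynomial ι K), P.natDegree ≤ 2 * a ∧
      (P : PowerSeries (MvPolynomial ι K)) = (nr q e r w m d (pen q F)).coeff a := by
  have hd : ∀ i, (dl q e r w m d i).natDegree ≤ 1 := fun i => by
    rw [dl]
    compute_degree
  refine ⟨(ev (fun i => Polynomial.C (Polynomial.C (C (q i))) +
    Polynomial.X * Polynomial.C (-(Polynomial.X * dl q e r w m d i)))
    (fun i => Polynomial.C (Polynomial.C (ps e r w m (X i))) +
    Polynomial.X * Polynomial.C (dl q e r w m d i)) F).coeff a, bd_aeval ?_ F a, ?_⟩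
  · rintro (i | i)
    · refine bd_lin _ ?_
      rw [Polynomial.natDegree_neg]
      exact Polynomial.natDegree_mul_le.trans (add_le_add Polynomial.natDegree_X_le (hd i))
    · exact bd_lin _ ((hd i).trans one_le_two)
  · rw [← co_apply k, ← Polynomial.coeff_mapAlgHom_apply, map_ev,
      ← h.tr _ _ (Polynomial.C PowerSeries.X), pen, map_ev]
    congr 3
    · ext1 i
      simp only [nr_C, G.tt_q, map_add, map_mul, map_neg, mco_X, mco_C, Polynomial.coe_C,
        Polynomial.coe_X]
      ring
    · ext1 i
      simp only [nr_X, map_add, map_mul, mco_X, mco_C, Polynomial.coe_C]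

/-- The factor is constant along the rulings. -/
theorem b2 (hs : ¬ lin m ∣ lin m') {F0 F1 : MvPolynomial (ι ⊕ ι) k} (h0 : Lin F0) (h1 : Lin F1)
    {c : K} (c0 : c ≠ 0) (hc : pr e w (pen q F1) = C c * pr e w (pen q F0))
    (A0 : pr e w (pen q F0) ≠ 0) (hy : yy e w d (C c * pr e w (pen q F0) ^ 2) = 0) :
    lin m ∣ lin fun j => d j c := by
  have mp : Prime (lin m) := lin_prime fun h => by simpa [h] using G.mr
  obtain ⟨a, A, hA, he⟩ := WfDvdMonoid.max_power_factor A0 mp.irreducible
  have h2 : pr e w A = A := by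
    have := G.pr_pr (pen q F0)
    rw [he, map_mul, map_pow, G.pr_m] at this
    exact mul_left_cancel₀ (pow_ne_zero a G.m0) this
  have h3 : ∀ n : ℕ, yy e w d (lin m ^ n) = n * μ * lin m ^ n := fun n => by
    induction n with
    | zero => simp
    | succ n ih =>
      rw [pow_succ, Derivation.leibniz, ih, G.inv, smul_eq_mul, smul_eq_mul]
      push_cast
      ring
  have h4 : yy e w d (C c * A ^ 2) = -(2 * (a : MvPolynomial ι K) * μ * (C c * A ^ 2)) := by
    rw [he, show C c * (lin m ^ a * A) ^ 2 = lin m ^ (2 * a) * (C c * A ^ 2) by ring,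
      Derivation.leibniz, h3, smul_eq_mul, smul_eq_mul] at hy
    push_cast at hy
    exact mul_left_cancel₀ (pow_ne_zero (2 * a) G.m0) (by linear_combination hy)
  have h5 := congrArg (fun x => tt e r w m d (pr r m x)) h4
  simp only [G.pr_yy, ← tt_der, map_neg, map_mul, map_pow, map_ofNat, map_natCast, pr_C] at h5
  obtain ⟨P0, d0, e0⟩ := G.nr_pen h0 a
  obtain ⟨P1, d1, e1⟩ := G.nr_pen h1 a
  rw [← G.nr_pr, hc, map_mul, nr_C, Polynomial.coeff_C_mul, G.nr_pr, ← e0] at e1
  rw [← G.nr_pr, he, map_mul, map_pow, G.nr_lin, G.ps_m, map_zero, map_zero, zero_add, ← la,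
    mul_pow, mul_assoc, Polynomial.coeff_X_pow_mul', if_pos le_rfl, Nat.sub_self, ← map_pow,
    Polynomial.coeff_C_mul, G.nr_zero, ps_apply, h2] at e0
  obtain ⟨n1, n2, a1, b1, N, an, a0, hN, hl⟩ := G.lam_der hs
  rw [ps_apply, G.pr_mu] at hl
  have l0 : la q e r w m d ≠ 0 := fun h => by simpa [h] using G.lam_zero
  have B0 : tt e r w m d (pr r m A) ≠ 0 := tt_ne fun h => hA ((pr_zero_iff G.mr).1 h)
  have C0 : tt e r w m d (C c) ≠ 0 := tt_ne (by rwa [Ne, C_eq_zero])
  have p0 : (P0 : PowerSeries (MvPolynomial ι K)) ≠ 0 := e0 ▸ mul_ne_zero (pow_ne_zero _ l0) B0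
  have p1 : (P1 : PowerSeries (MvPolynomial ι K)) ≠ 0 := e1 ▸ mul_ne_zero C0 p0
  have h6 : ∀ n : ℕ, la q e r w m d * PowerSeries.derivative _ (la q e r w m d ^ n) =
      n * PowerSeries.derivative _ (la q e r w m d) * la q e r w m d ^ n := fun n => by
    induction n with
    | zero => simp
    | succ n ih =>
      rw [pow_succ, Derivation.leibniz, smul_eq_mul, smul_eq_mul]
      push_cast
      linear_combination la q e r w m d * ih
  have h7 := ode (a := a) an a0 hN (fun h => p0 (by simp [h])) (fun h => p1 (by simp [h])) d0 d1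
    (Polynomial.coe_injective _ (mul_left_cancel₀ l0 (by
      have h8 : ((P0 * P1 : Polynomial (MvPolynomial ι K)) : PowerSeries (MvPolynomial ι K)) =
          la q e r w m d ^ (2 * a) * (tt e r w m d (C c) * tt e r w m d (pr r m A) ^ 2) := by
        rw [Polynomial.coe_mul, e1, e0]; ring
      have h9 := h6 (2 * a)
      rw [Polynomial.coe_mul, ← PowerSeries.derivative_coe (P0 * P1), Polynomial.coe_mul _ (P0 * P1),
        h8, Derivation.leibniz, h5, ← co_apply k (_ * _), map_mul, map_mul, map_ofNat, map_natCast,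
        co_apply, smul_eq_mul, smul_eq_mul]
      push_cast at h9
      linear_combination N * (tt e r w m d (C c) * tt e r w m d (pr r m A) ^ 2) * h9 +
        2 * a * la q e r w m d ^ (2 * a) * (tt e r w m d (C c) * tt e r w m d (pr r m A) ^ 2) * hl)))
  have h8 := congrArg (co k _) h7
  simp only [map_mul, co_apply, Polynomial.coe_C] at h8
  rw [e1, ← mul_assoc] at h8
  have h9 := congrArg (PowerSeries.derivative _) (mul_right_cancel₀ p0 h8)
  rw [Derivation.leibniz, PowerSeries.derivative_C, PowerSeries.derivative_C, smul_zero, add_zero,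
    smul_eq_mul, tt_der, th_C, ps_apply, G.pr_d] at h9
  refine (pr_zero_iff G.mr).1 (by_contra fun h => mul_ne_zero (fun h' => ?_) (tt_ne h) h9)
  have := congrArg PowerSeries.constantCoeff h'
  rw [PowerSeries.constantCoeff_C, map_zero, Polynomial.leadingCoeff_eq_zero] at this
  exact p0 (by simp [this])

end Sc

end Pool.Agent.MP_249f74_an.H65
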