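import Pool.Agent.MP_249f74_an.H65.Top
import Pool.Agent.MP_249f74_an.H44.Main

/-!
Reduced chains of reflections in real mirrors do not close up.
-/

namespace Pool.Agent.MP_249f74_an.H65

theorem top {k B ι : Type} [Field k] [Algebra k ℝ] [Field B] [Algebra k B] [Fintype ι]
    [DecidableEq ι] [IsAlgClosed B] [CharZero B] [Nontrivial ι] : H72.Fin' k B ι :=
  have : CharZero k := (algebraMap k ℝ).charZero
  fin (self H44.rts) H44.rone

end Pool.Agent.MP_249f74_an.H65
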