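import Pool.Agent.MP_249f74_an.H65.Defs

/-!
A hypersurface whose cubic form is divisible by its second fundamental form is a quadric.
-/

open MvPolynomial

namespace Pool.Agent.MP_249f74_an.H65

variable {k K ι : Type} [Field k] [Field K] [Algebra k K] [Fintype ι] [DecidableEq ι]

/-- A bilinear form. -/
def bf (t : ι → ι → K) (x y : ι → K) : K := ∑ i, x i * ∑ j, y j * t i j

/-- A quadratic form as a polynomial. -/
noncomputable def qd (t : ι → ι → K) : MvPolynomial ι K := ∑ i, lin (t i) * X i

section Bf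

omit [DecidableEq ι]

lemma bil_eq (w : ι → K) (d : ι → Derivation k K K) (x y : ι → K) :
    bil w d x y = bf (fun i j => d j (w i)) x y := by
  simp only [bil, bf, Finset.mul_sum]
  exact Finset.sum_congr rfl fun i _ => Finset.sum_congr rfl fun j _ => by ring

lemma bf_symm {t : ι → ι → K} (h : ∀ i j, t i j = t j i) (x y : ι → K) : bf t x y = bf t y x := by
  simp only [bf, Finset.mul_sum]
  rw [Finset.sum_comm]
  exact Finset.sum_congr rfl fun i _ => Finset.sum_congr rfl fun j _ => by rw [h]; ring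

lemma bf_add (t : ι → ι → K) (x y z : ι → K) : bf t (x + y) z = bf t x z + bf t y z := by
  simp [bf, add_mul, Finset.sum_add_distrib]

lemma bf_sub (t s : ι → ι → K) (c : K) (x y : ι → K) :
    bf (fun i j => t i j - c * s i j) x y = bf t x y - c * bf s x y := by
  simp only [bf, mul_sub, Finset.sum_sub_distrib, Finset.mul_sum]
  congr 1
  exact Finset.sum_congr rfl fun i _ => Finset.sum_congr rfl fun j _ => by ring

lemma ctr (u x1 x2 x3 x4 x5 x6 : ι → K) (c1 c2 c3 c4 c5 c6 : K)
    (h : ∀ i, x1 i * c1 + x2 i * c2 + x3 i * c3 + x4 i * c4 + x5 i * c5 + x6 i * c6 = 0) :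
    (∑ i, u i * x1 i) * c1 + (∑ i, u i * x2 i) * c2 + (∑ i, u i * x3 i) * c3 +
      (∑ i, u i * x4 i) * c4 + (∑ i, u i * x5 i) * c5 + (∑ i, u i * x6 i) * c6 = 0 := by
  simp only [Finset.sum_mul, ← Finset.sum_add_distrib]
  exact Finset.sum_eq_zero fun i _ => by linear_combination u i * h i

/-- A good pair of vectors for a form of rank at least two. -/
lemma ex_pair [CharZero K] {t : ι → ι → K} (h : ∀ i j, t i j = t j i)
    (hr : ¬ ∀ a b, bf t a a * bf t b b = bf t a b ^ 2) :
    ∃ a b, bf t a a ≠ 0 ∧ bf t a a * bf t b b - bf t a b ^ 2 ≠ 0 := by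
  push Not at hr
  obtain ⟨a, b, hab⟩ := hr
  by_cases ha : bf t a a = 0
  · by_cases hb : bf t b b = 0
    · have h0 : bf t a b ≠ 0 := fun e => hab (by simp [ha, e])
      have h1 : bf t (a + b) b = bf t a b := by rw [bf_add, hb, add_zero]
      refine ⟨a + b, b, ?_, by simpa [hb, h1] using h0⟩
      rw [bf_add, bf_symm h a, bf_symm h b, h1, bf_add, ha, bf_symm h b, zero_add, ← two_mul]
      exact mul_ne_zero two_ne_zero h0
    · exact ⟨b, a, hb, by rw [mul_comm, bf_symm h b a]; exact sub_ne_zero.2 hab⟩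
  · exact ⟨a, b, ha, sub_ne_zero.2 hab⟩

lemma ctr4 {a M : ι → ι → K} (s : ∀ i j, a i j = a j i)
    (E : ∀ i j l m, a i j * (M l m - M m l) + a j l * M i m - a j m * M i l + a l i * M j m -
      a m i * M j l = 0) (x y z t : ι → K) :
    bf a x y * (bf M z t - bf M t z) + bf a y z * bf M x t - bf a y t * bf M x z +
      bf a x z * bf M y t - bf a x t * bf M y z = 0 := by
  have h1 := fun i j l => ctr t (M l) (fun m => M m l) (M i) (a j) (M j) (a i) (a i j) (-a i j)
    (a j l) (-M i l) (a i l) (-M j l) fun m => by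
      have := E i j l m
      rw [s l i, s m i] at this
      linear_combination this
  have h2 := fun i j => ctr z (fun l => ∑ m, t m * M l m) (fun l => ∑ m, t m * M m l) (a j) (M i)
    (a i) (M j) (a i j) (-a i j) (∑ m, t m * M i m) (-∑ m, t m * a j m) (∑ m, t m * M j m)
    (-∑ m, t m * a i m) fun l => by linear_combination h1 i j l
  have h0 : ∑ l, z l * ∑ m, t m * M m l = bf M t z := by
    simp only [bf, Finset.mul_sum]
    rw [Finset.sum_comm]
    exact Finset.sum_congr rfl fun i _ => Finset.sum_congr rfl fun j _ => by ring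
  simp only [h0] at h2
  have h3 := fun i => ctr y (a i) (a i) (fun j => ∑ l, z l * a j l) (fun j => ∑ m, t m * a j m)
    (fun j => ∑ m, t m * M j m) (fun j => ∑ l, z l * M j l) (bf M z t) (-bf M t z)
    (∑ m, t m * M i m) (-∑ l, z l * M i l) (∑ l, z l * a i l) (-∑ m, t m * a i m) fun j => by
      have := h2 i j
      unfold bf at this ⊢
      linear_combination this
  have h4 := ctr x (fun i => ∑ j, y j * a i j) (fun i => ∑ j, y j * a i j)
    (fun i => ∑ m, t m * M i m) (fun i => ∑ l, z l * M i l) (fun i => ∑ l, z l * a i l)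
    (fun i => ∑ m, t m * a i m) (bf M z t) (-bf M t z) (bf a y z) (-bf a y t) (bf M y t)
    (-bf M y z) fun i => by
      have := h3 i
      unfold bf at this ⊢
      linear_combination this
  unfold bf at h4 ⊢
  linear_combination h4

end Bf

lemma bf_single (t : ι → ι → K) (i j : ι) : bf t (Pi.single i 1) (Pi.single j 1) = t i j := by
  simp [bf, Pi.single_apply]

lemma prop_of [CharZero K] {a M : ι → ι → K} (s : ∀ i j, a i j = a j i) {x y : ι → K}
    (hx : bf a x x ≠ 0) (hy : bf a x x * bf a y y - bf a x y ^ 2 ≠ 0)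
    (E : ∀ i j l m, a i j * (M l m - M m l) + a j l * M i m - a j m * M i l + a l i * M j m -
      a m i * M j l = 0) : ∃ μ, ∀ i j, M i j = μ * a i j := by
  obtain ⟨μ, hμ⟩ : ∃ μ, bf M x x = μ * bf a x x := ⟨bf M x x / bf a x x, by field_simp⟩
  obtain ⟨N, hN⟩ : ∃ N : ι → ι → K, N = fun i j => M i j - μ * a i j := ⟨_, rfl⟩
  have F := ctr4 (M := N) s fun i j l m => by
    simp only [hN]
    rw [s m l, s l i, s m i]
    have := E i j l m
    rw [s l i, s m i] at this
    linear_combination this
  have n0 : bf N x x = 0 := by rw [hN, bf_sub, hμ, sub_self]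
  have h1 : ∀ t, bf N t x = 3 * bf N x t := fun t => mul_left_cancel₀ hx (by
    have := F x x x t
    rw [n0] at this
    linear_combination -this)
  have h2 : ∀ z t, bf a x x * bf N z t = bf a x z * bf N x t + 3 * bf a x t * bf N x z :=
    fun z t => by
      have := F x z x t
      rw [n0, h1 t, h1 z, bf_symm s z x] at this
      linear_combination this
  have h3 : bf N x y = 0 := (mul_eq_zero.1 (by
    have := F y y y x
    rw [h1 y, bf_symm s y x] at this
    linear_combination bf a x x / 8 * this + bf a x y / 4 * h2 y y)).resolve_left hy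
  have h4 : ∀ t, bf N x t = 0 := fun t => (mul_eq_zero.1 (by
    have := F y y x t
    have h5 := h2 y t
    rw [h1 y, h1 t, bf_symm s y x, h3] at this
    rw [h3] at h5
    linear_combination -bf a x x / 2 * this + bf a x y * h5)).resolve_left hy
  refine ⟨μ, fun i j => sub_eq_zero.1 ?_⟩
  have := h2 (Pi.single i 1) (Pi.single j 1)
  rw [h4, h4, bf_single, hN] at this
  exact (mul_eq_zero.1 (by linear_combination this)).resolve_left hx

lemma vec_zero {a : ι → ι → K} (s : ∀ i j, a i j = a j i) {x y ν : ι → K}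
    (hx : bf a x x ≠ 0) (hy : bf a x x * bf a y y - bf a x y ^ 2 ≠ 0)
    (E : ∀ i l m, a i l * ν m = a i m * ν l) (m : ι) : ν m = 0 := by
  have F : ∀ x y z : ι → K, bf a x y * ∑ m, z m * ν m = bf a x z * ∑ m, y m * ν m := fun x y z => by
    have h1 := fun i l => ctr z ν (a i) 0 0 0 0 (a i l) (-ν l) 0 0 0 0 fun m => by
      linear_combination E i l m
    have h2 := fun i => ctr y (a i) ν 0 0 0 0 (∑ m, z m * ν m) (-∑ m, z m * a i m) 0 0 0 0
      fun l => by linear_combination h1 i l
    have h3 := ctr x (fun i => ∑ l, y l * a i l) (fun i => ∑ m, z m * a i m) 0 0 0 0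
      (∑ m, z m * ν m) (-∑ m, y m * ν m) 0 0 0 0 fun i => by linear_combination h2 i
    unfold bf
    linear_combination h3
  have h1 : ∑ m, x m * ν m = 0 := (mul_eq_zero.1 (by
    have := F y y x
    rw [bf_symm s y x] at this
    linear_combination bf a x x * this + bf a x y * F x x y)).resolve_left hy
  have := F x x (Pi.single m 1)
  rw [h1, mul_zero] at this
  simpa [Pi.single_apply, hx] using this

omit [DecidableEq ι] in
lemma pderiv_qd {t : ι → ι → K} (s : ∀ i j, t i j = t j i) (l : ι) :
    pderiv l (qd t) = 2 * lin (t l) := by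
  classical
  have : ∀ i, pderiv l (lin (t i) * X i) = (if i = l then lin (t i) else 0) + C (t l i) * X i :=
    fun i => by
      rw [Derivation.leibniz, pderiv_lin, pderiv_X, s i l]
      simp [Pi.single_apply, mul_comm]
  rw [qd, map_sum]
  simp only [this, Finset.sum_add_distrib, Finset.sum_ite_eq', Finset.mem_univ, if_true]
  rw [← lin, two_mul]

namespace Gr

variable {q w : ι → K} {e : ι} {d : ι → Derivation k K K} (G : Gr q e w d)
include G

lemma cub [CharZero K] (h : hq w d ∣ mkD d X 0 (hq w d)) : ∃ L : ι → K, ∀ i j l,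
    d l (d j (w i)) = d j (w i) * L l + d l (w j) * L i + d i (w l) * L j := by
  obtain ⟨y, hy⟩ := h
  have s1 : ∀ i j l, d l (d j (w i)) = d j (d l (w i)) := fun i j l => G.comm _ _ _
  have s2 : ∀ i j l, d l (d j (w i)) = d l (d i (w j)) := fun i j l => by rw [G.sym]
  have s4 := fun i => pderiv_qd (t := fun j l => d l (d j (w i))) (s1 i)
  have h1 : mkD d X 0 (hq w d) = ∑ i, qd (fun j l => d l (d j (w i))) * X i := by
    rw [hq, map_sum]
    exact Finset.sum_congr rfl fun i _ => by simp [mkD_lin, qd, mul_comm]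
  have h2 : ∀ i, pderiv i (mkD d X 0 (hq w d)) = 3 * qd fun j l => d l (d j (w i)) := fun i => by
    have : ∀ m, pderiv i (qd (fun j l => d l (d j (w m))) * X m) =
        (if m = i then qd fun j l => d l (d j (w m)) else 0) +
          2 * (lin (fun l => d l (d m (w i))) * X m) := fun m => by
      rw [Derivation.leibniz, s4, pderiv_X]
      simp only [s2 m i]
      simp [Pi.single_apply]
      ring
    rw [h1, map_sum]
    simp only [this, Finset.sum_add_distrib, Finset.sum_ite_eq', Finset.mem_univ, if_true,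
      ← Finset.mul_sum]
    rw [← qd]
    ring
  have h3 : ∀ i, pderiv i (hq w d) = 2 * lin fun j => d j (w i) := fun i =>
    pderiv_qd (t := fun i j => d j (w i)) G.sym i
  have h4 : constantCoeff (hq w d) = 0 := by simp [hq]
  have h5 : ∀ m : ι → K, constantCoeff (lin m) = 0 := fun m => by simp [lin]
  have h6 : ∀ (i : ι) (n : ℕ) [n.AtLeastTwo],
      pderiv i (OfNat.ofNat n : MvPolynomial ι K) = 0 := fun i n _ => by
    exact Derivation.map_natCast _ n
  refine ⟨fun l => constantCoeff (pderiv l y) / 3, fun i j l => ?_⟩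
  have := congrArg (fun p => constantCoeff (pderiv l (pderiv j (pderiv i p)))) hy
  simp only [h2, s4, Derivation.leibniz, smul_eq_mul, map_add, map_mul,
    h3, pderiv_lin, pderiv_C, h4, h5, h6, constantCoeff_C, map_ofNat, mul_zero, zero_mul,
    add_zero, zero_add] at this
  rw [G.sym l i]
  linear_combination this / 6

lemma aff {β : K} (h : ∀ i j, d j (d i β) = 0) :
    ∃ p : MvPolynomial ι k, p.totalDegree ≤ 1 ∧ pderiv e p = 0 ∧ aeval q p = β := by
  choose b hb using fun i => G.cst' (h i)
  have be : b e = 0 := by simpa [G.de] using (hb e).symm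
  obtain ⟨c, hc⟩ := G.cst' (a := β - ∑ i, d i β * q i) fun j => by
    simp [G.dq, h, G.de, mul_sub]
  refine ⟨C c + lin b, (totalDegree_add _ _).trans (by simp [(lin_hom b).totalDegree_le]),
    by simp [pderiv_lin, be], ?_⟩
  simp [aeval_lin, ← hb, ← hc]

lemma qua [CharZero K] {β : K} (h : ∀ i j l, d l (d j (d i β)) = 0) :
    ∃ p : MvPolynomial ι k, p.totalDegree ≤ 2 ∧ pderiv e p = 0 ∧ aeval q p = 2 * β := by
  choose p h1 h2 h3 using fun i => G.aff (h i)
  have h4 : ∀ j, d j (2 * β - ∑ i, d i β * q i) = d j β - ∑ i, d i (d j β) * q i := fun j => by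
    rw [two_mul, map_sub, map_add, map_sum]
    simp only [Derivation.leibniz, smul_eq_mul, Finset.sum_add_distrib, G.comm j, mul_comm (q _)]
    simp [G.dq, G.de, mul_sub]
  obtain ⟨r, r1, r2, r3⟩ := G.aff (β := 2 * β - ∑ i, d i β * q i) fun i j => by
    simp [h4, G.dq, h, G.de, mul_sub]
  refine ⟨r + ∑ i ∈ Finset.univ.erase e, p i * X i, (totalDegree_add _ _).trans (max_le (by omega)
    (totalDegree_finsetSum_le fun i _ => (totalDegree_mul _ _).trans ?_)), ?_, ?_⟩
  · have := h1 i
    rw [totalDegree_X]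
    omega
  · rw [map_add, r2, zero_add, map_sum]
    exact Finset.sum_eq_zero fun i hi => by
      simp [h2, pderiv_X_of_ne (Finset.ne_of_mem_erase hi)]
  · rw [map_add, r3, map_sum, ← Finset.add_sum_erase _ _ (Finset.mem_univ e)]
    simp [h3, G.de]

/-- The theorem of Fubini. -/
theorem fub [CharZero K] (h : hq w d ∣ mkD d X 0 (hq w d)) : Quad k q ∨ Rk1 w d := by
  refine or_iff_not_imp_right.2 fun hr => ?_
  obtain ⟨L, hL⟩ := G.cub h
  obtain ⟨a, ha⟩ : ∃ a : ι → ι → K, ∀ i j, d j (w i) = a i j := ⟨_, fun _ _ => rfl⟩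
  have s : ∀ i j, a i j = a j i := fun i j => by rw [← ha, ← ha, G.sym]
  obtain ⟨x, y, hx, hy⟩ := ex_pair s (by simpa only [Rk1, bil_eq, ha] using hr)
  simp only [ha] at hL
  have s3 : ∀ i j l, d l (a i j) = d j (a i l) := fun i j l => by rw [← ha, ← ha, G.comm]
  obtain ⟨μ, hμ⟩ := prop_of (M := fun i l => d l (L i) - L i * L l) s hx hy fun i j l m => by
    have h1 := congrArg (d m) (hL i j l)
    have h2 := congrArg (d l) (hL i j m)
    rw [G.comm] at h1
    simp only [map_add, Derivation.leibniz, smul_eq_mul] at h1 h2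
    have h3 := h1.symm.trans h2
    rw [s l i, s m i, s3 j l m, s3 i l m, hL i j m, hL i j l, s l i, s m i] at h3
    rw [s l i, s m i]
    linear_combination h3
  have hd : ∀ i l, d l (L i) = L i * L l + μ * a i l := fun i l => by linear_combination hμ i l
  have hν := vec_zero (ν := fun m => d m μ - μ * L m) s hx hy fun i l m => by
    have h1 := congrArg (d m) (hd i l)
    rw [G.comm] at h1
    simp only [map_add, Derivation.leibniz, smul_eq_mul, hd] at h1
    rw [s3 i l m, s l m] at h1
    linear_combination -h1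
  obtain ⟨ω, ω0, hω⟩ : ∃ ω : K, ω ≠ 0 ∧ ∀ i, d i ω = -L i * ω := by
    by_cases h0 : μ = 0
    · by_cases h1 : ∀ i, L i = 0
      · exact ⟨1, one_ne_zero, by simp [h1]⟩
      · push Not at h1
        obtain ⟨j, hj⟩ := h1
        exact ⟨(L j)⁻¹, inv_ne_zero hj, fun i => by
          rw [Derivation.leibniz_inv, hd, h0, smul_eq_mul]; field_simp; ring⟩
    · exact ⟨μ⁻¹, inv_ne_zero h0, fun i => by
        rw [Derivation.leibniz_inv, sub_eq_zero.1 (hν i), smul_eq_mul]; field_simp⟩
  obtain ⟨κ, hκ⟩ := G.cst' (a := ω * μ) fun j => by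
    rw [Derivation.leibniz, hω, sub_eq_zero.1 (hν j), smul_eq_mul, smul_eq_mul]; ring
  obtain ⟨z, hz⟩ : ∃ z : ι → K, ∀ i, d i (q e) = z i := ⟨_, fun _ => rfl⟩
  have hz2 : ∀ i j, d j (z i) = -a i j := fun i j => by
    rw [← hz, G.dq, ← ha]
    split_ifs <;> simp_all
  have hm : ∀ i, d i μ = μ * L i := fun i => sub_eq_zero.1 (hν i)
  have h2 : ∀ i (x : K), d i (2 * x) = 2 * d i x := fun i x => by rw [two_mul, two_mul, map_add]
  obtain ⟨p, p1, p2, p3⟩ := G.aff (β := ω - algebraMap k K κ * q e) fun i j => by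
    simp only [map_sub, map_neg, Derivation.leibniz, smul_eq_mul, hω, hz, hz2, hd,
      Derivation.map_algebraMap, mul_zero, add_zero]
    linear_combination -a i j * hκ
  obtain ⟨r, r1, r2, r3⟩ := G.qua (β := 2 * (ω * q e) - algebraMap k K κ * (q e * q e))
    fun i j l => by
      simp only [map_sub, map_neg, map_add, h2, Derivation.leibniz, smul_eq_mul, hω, hz, hz2, hd,
        hm, Derivation.map_algebraMap, mul_zero, add_zero]
      rw [hL i j l, s l i, ← hκ]
      ring
  refine ⟨4 * (p * X e) + 2 * (C κ * X e ^ 2) - r, fun h0 => ω0 ?_, ?_, ?_⟩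
  · have h6 : ∀ (n : ℕ) [n.AtLeastTwo], pderiv e (OfNat.ofNat n : MvPolynomial ι k) = 0 :=
      fun n _ => Derivation.map_natCast _ n
    have := congrArg (fun p => aeval q (pderiv e p)) h0
    simp [p2, r2, p3, h6, map_ofNat] at this
    linear_combination this / 4
  · have h4 : ∀ (n : ℕ) [n.AtLeastTwo] (f : MvPolynomial ι k),
        (OfNat.ofNat n * f).totalDegree ≤ f.totalDegree := fun n _ f => by
      refine (totalDegree_mul _ _).trans ?_
      rw [← map_ofNat C, totalDegree_C, zero_add]
    refine (totalDegree_sub _ _).trans (max_le ((totalDegree_add _ _).trans (max_le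
      ((h4 _ _).trans ((totalDegree_mul _ _).trans ?_))
      ((h4 _ _).trans ((totalDegree_mul _ _).trans ?_)))) r1)
    · rw [totalDegree_X]; omega
    · rw [totalDegree_C, totalDegree_X_pow]
  · simp [p3, r3, map_ofNat]
    ring

end Gr

end Pool.Agent.MP_249f74_an.H65
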