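import Pool.Agent.MP_249f74_an.H65.Br
import Pool.Agent.MP_249f74_an.H17.CmGen
import Pool.Agent.MP_249f74_an.H32.Bas

/-!
Generic points of the components of a cone of lines.
-/

open MvPolynomial Matrix Set

namespace Pool.Agent.MP_249f74_an.H65

open H17.Cm (grad)
open H32 (Mir edge pt pos dir St)
open H42 (Gen Cur)
open H88 (cl rk subset_cl)

section Alg

variable {B Ω σ : Type} [Field B] [Field Ω] [Algebra B Ω] [Fintype σ] [CharZero Ω]

lemma ex_free {y : σ → Ω} (hy : AlgebraicIndependent B y) (v : σ → Ω) :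
    ∃ D : Derivation B Ω Ω, ∀ i, D (y i) = v i :=
  ex_tan (f := 0) (fun p => by rw [zero_dvd_iff]; exact map_eq_zero_iff _ hy) (by simp [grad])

/-- Generic points of a hypersurface. -/
lemma gp [IsAlgClosed Ω] {y : σ → Ω} (hy : AlgebraicIndependent B y) {ψ : MvPolynomial σ B}
    (hψ : Prime ψ) : ∃ (j : σ) (v : σ → Ω) (D : Derivation B Ω Ω), (∀ i, i ≠ j → v i = y i) ∧
      (∀ P, aeval v P = 0 ↔ ψ ∣ P) ∧ D (y j) = 1 ∧ ∀ i, D (v i) = 0 := by
  classical
  have : CharZero B := (algebraMap B Ω).charZero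
  obtain ⟨j, hj⟩ := ex_pderiv hψ
  obtain ⟨x, hx⟩ : ∃ x : σ → Polynomial Ω, ∀ i, x i = if i = j then .X else .C (y i) :=
    ⟨_, fun _ => rfl⟩
  have h1 : ∀ (s : Ω) (P : MvPolynomial σ B), (aeval x P).eval s =
      aeval (fun i => if i = j then s else y i) P := fun s P => by
    rw [← Polynomial.coe_aeval_eq_eval, ← AlgHom.restrictScalars_apply B, ← AlgHom.comp_apply,
      comp_aeval]
    congr 2
    ext i
    rw [hx]
    split_ifs <;> simp
  have h2 : (aeval x ψ).degree ≠ 0 := fun h => by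
    have h3 := chain ((Polynomial.derivative' (R := Ω)).restrictScalars B) x ψ
    rw [Finset.sum_eq_single j (fun i _ hi => by simp [hx, hi]) (by simp), der'_apply,
      der'_apply, Polynomial.eq_C_of_degree_eq_zero h, hx, if_pos rfl] at h3
    have h4 := congrArg (Polynomial.eval (y j)) h3
    rw [Polynomial.derivative_X, mul_one, h1,
      show (fun i => if i = j then y j else y i) = y from funext fun i => by split_ifs <;> simp [*],
      Polynomial.derivative_C, Polynomial.eval_zero, eq_comm, map_eq_zero_iff _ hy] at h4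
    exact hj (h4 ▸ dvd_zero _)
  obtain ⟨s, hs⟩ := IsAlgClosed.exists_root _ h2
  rw [Polynomial.IsRoot, h1] at hs
  obtain ⟨D, hD⟩ := ex_free hy fun i => if i = j then 1 else 0
  have h3 : ∀ P, aeval (fun i => if i = j then s else y i) P = 0 ↔ ψ ∣ P := fun P =>
    ⟨H88.dvd_of_gen ⟨j, by
      convert hy.comp _ (Subtype.val_injective (p := fun i => i ≠ j)) using 2 with i
      exact if_neg i.2⟩ hψ.irreducible hs, fun ⟨Q, h⟩ => by rw [h, map_mul, hs, zero_mul]⟩
  refine ⟨j, _, D, fun i hi => if_neg hi, h3, by simp [hD], fun i => ?_⟩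
  split_ifs with hi
  · have h4 := chain D (fun i => if i = j then s else y i) ψ
    rw [hs, map_zero, Finset.sum_eq_single j (fun i _ hi => by simp [hi, hD]) (by simp),
      if_pos rfl] at h4
    exact (mul_eq_zero.1 h4.symm).resolve_left fun h => hj ((h3 _).1 h)
  · simp [hD, hi]

omit [Fintype σ] in
/-- A generic point of a component of a squarefree polynomial is a simple point. -/
lemma no_sing {l : σ → Ω} (hl : Cur B l) {G : MvPolynomial σ B} (hG : Squarefree G)
    (h0 : aeval l G = 0) (h : ∀ s, aeval l (pderiv s G) = 0) : False := by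
  have : CharZero B := (algebraMap B Ω).charZero
  obtain ⟨π, hπ, h1⟩ := hl
  obtain ⟨H, rfl⟩ := (h1 G).1 h0
  obtain ⟨s, hs⟩ := ex_pderiv hπ
  have h2 := (h1 _).1 (h s)
  rw [Derivation.leibniz, smul_eq_mul, smul_eq_mul, dvd_add_right (dvd_mul_right _ _)] at h2
  exact hπ.not_isUnit (hG π (mul_dvd_mul_left π ((hπ.dvd_or_dvd h2).resolve_right hs)))

lemma sqf_dvd {A : Type} [CommRing A] [IsDomain A] [UniqueFactorizationMonoid A] {a b : A}
    (ha : Squarefree a) (h : ∀ p, Prime p → p ∣ a → p ∣ b) : a ∣ b := by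
  induction a using UniqueFactorizationMonoid.induction_on_prime with
  | h₁ => exact absurd rfl ha.ne_zero
  | h₂ x hx => exact hx.dvd
  | h₃ a p _ hp ih =>
    exact (IsRelPrime.of_squarefree_mul ha).mul_dvd (h p hp (dvd_mul_right _ _))
      (ih ha.of_mul_right fun r hr hra => h r hr (hra.mul_left _))

end Alg

variable {k B K Ω ι : Type} [Field k] [Algebra k ℝ] [Field B] [Algebra k B] [Field K] [Field Ω]
  [Algebra B K] [Algebra K Ω] [Algebra B Ω] [IsScalarTower B K Ω] [Fintype ι]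

lemma lin_of_dvd [CharZero B] {π : MvPolynomial (ι ⊕ ι) B}
    (h : π ∣ ∑ i, X (Sum.inr i) * pderiv (Sum.inl i) π) : Lin π := by
  obtain ⟨φ, h1⟩ : ∃ φ : MvPolynomial (ι ⊕ ι) B →ₐ[B] Polynomial (MvPolynomial (ι ⊕ ι) B),
    φ = ev (B := Polynomial (MvPolynomial (ι ⊕ ι) B)) (fun i => Polynomial.C (X (Sum.inl i)) +
      Polynomial.X * Polynomial.C (X (Sum.inr i))) fun i => Polynomial.C (X (Sum.inr i)) :=
    ⟨_, rfl⟩
  have h2 : Polynomial.derivative (φ π) = φ (∑ i, X (Sum.inr i) * pderiv (Sum.inl i) π) := by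
    rw [h1]
    refine (chain_ev ((Polynomial.derivative' (R := MvPolynomial (ι ⊕ ι) B)).restrictScalars B)
      _ _ π).trans ?_
    have h0 : ∀ a b : MvPolynomial (ι ⊕ ι) B, Polynomial.derivative (Polynomial.C a +
      Polynomial.X * Polynomial.C b) = Polynomial.C b := fun a b => by simp
    simp only [der'_apply, h0, Polynomial.derivative_C, zero_mul, Finset.sum_const_zero, add_zero,
      map_sum, map_mul, ev, aeval_X, Sum.elim_inr, mul_comm]
  have h3 := Polynomial.dvd_derivative_iff.1 (h2 ▸ map_dvd φ h)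
  have h4 : ∀ G, (φ G).eval 0 = G := fun G => by
    rw [← Polynomial.coe_aeval_eq_eval, ← AlgHom.restrictScalars_apply B, h1, map_ev, ev]
    refine Eq.trans ?_ (aeval_X_left_apply G)
    congr 2
    ext1 (i | i) <;> simp
  exact (h4 _).symm.trans (by rw [← h2, h3, Polynomial.eval_zero])

lemma Lin.of_dvd [CharZero B] {π G : MvPolynomial (ι ⊕ ι) B} (h : Lin G) (G0 : G ≠ 0)
    (hπ : Prime π) (hd : π ∣ G) : Lin π := by
  have h1 : ∀ F : MvPolynomial (ι ⊕ ι) B, mkDerivation B (Sum.elim (fun i => X (Sum.inr i))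
      fun _ => (0 : MvPolynomial (ι ⊕ ι) B)) F = ∑ i, X (Sum.inr i) * MvPolynomial.pderiv (Sum.inl i) F :=
    fun F => by
      have := chain (mkDerivation B (Sum.elim (fun i => X (Sum.inr i))
        fun _ => (0 : MvPolynomial (ι ⊕ ι) B))) X F
      simpa [mkDerivation_X, mul_comm] using this
  exact lin_of_dvd (h1 π ▸ prime_inv hπ G0 hd (by rw [h1, h]; exact dvd_zero _))

lemma Lin.edge [CharZero B] {F : MvPolynomial (ι ⊕ ι) B} (h : Lin F) (q u : ι → Ω) (t : Ω) :
    H42.ev (edge q u t) F = H65.ev q u F := by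
  have := h.tr (q - t • u) u t
  simp only [Pi.sub_apply, Pi.smul_apply, smul_eq_mul, sub_add_cancel] at this
  exact this.symm

/-- The squarefree part of the line factors. -/
lemma ex_rad {G : MvPolynomial (ι ⊕ ι) B} [CharZero B] (G0 : G ≠ 0) :
    ∃ H, Lin H ∧ Squarefree H ∧ H ∣ G ∧ ∀ π, Prime π → Lin π → π ∣ G → π ∣ H := by
  induction G using UniqueFactorizationMonoid.induction_on_prime with
  | h₁ => exact absurd rfl G0
  | h₂ x hx =>
    exact ⟨1, by simp [Lin], squarefree_one, one_dvd _, fun π hπ _ h =>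
      absurd (isUnit_of_dvd_unit h hx) hπ.not_isUnit⟩
  | h₃ a p a0 hp ih =>
    obtain ⟨H, h1, h2, h3, h4⟩ := ih a0
    by_cases h : Lin p ∧ ¬ p ∣ H
    · exact ⟨p * H, h.1.mul h1, squarefree_mul_iff.2 ⟨hp.irreducible.isRelPrime_iff_not_dvd.2 h.2,
        hp.squarefree, h2⟩, mul_dvd_mul_left p h3, fun π hπ hl hd => (hπ.dvd_or_dvd hd).elim
        (·.mul_right _) fun h => (h4 π hπ hl h).mul_left _⟩
    · refine ⟨H, h1, h2, h3.mul_left _, fun π hπ hl hd => (hπ.dvd_or_dvd hd).elim (fun h5 => ?_)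
        (h4 π hπ hl)⟩
      exact by_contra fun h6 => h ⟨hl.of_dvd hπ.ne_zero hp (hπ.associated_of_dvd hp h5).symm.dvd,
        fun h7 => h6 (h5.trans h7)⟩

/-- A generic point of a mirror with a generic edge through it. -/
structure Pc (m : Mir k B ι) (q : ι → K) (y : ι → Ω) (t : Ω) : Prop where
  on : ∀ p, aeval q p = 0 ↔ m.f ∣ p
  ind : AlgebraicIndependent K y
  gen : Gen B (edge (fun i => algebraMap K Ω (q i)) y t)

omit [Fintype ι] in
lemma aeval_alg (q : ι → K) (p : MvPolynomial ι B) :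
    aeval (fun i => algebraMap K Ω (q i)) p = algebraMap K Ω (aeval q p) :=
  aeval_algebraMap_apply Ω q p

lemma ex_pc [CharZero Ω] {m : Mir k B ι} {l : ι ⊕ ι → Ω} {t : Ω} (hl : Gen B l)
    (ht : t ∈ H32.Pts m l) : Pc m (K := cl B (range (pt l t)))
      (fun i => ⟨pt l t i, subset_cl _ ⟨i, rfl⟩⟩) (dir l) t := by
  classical
  have h0 := (H32.mem_pts.1 ht).2
  refine ⟨fun p => ?_, H17.Cm.indep_of_dual fun j => ?_, ?_⟩
  · rw [← H32.gen_on hl h0 p, ← map_eq_zero_iff _ (algebraMap _ Ω).injective, ← aeval_alg]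
    rfl
  · obtain ⟨D, hD⟩ := ex_free (H32.gen_iff.1 hl)
      (Sum.elim (fun i => if i = j then -t else 0) fun i => if i = j then 1 else 0)
    have h1 : ∀ i, D (pt l t i) = D t * dir l i := fun i => by
      simp only [pt, pos, dir, Pi.add_apply, Pi.smul_apply, smul_eq_mul, map_add, Derivation.leibniz,
        hD, Sum.elim_inl, Sum.elim_inr]
      split_ifs <;> ring
    have h2 := chain D (pt l t) m.f
    rw [h0, map_zero] at h2
    have h3 : D t = 0 := (mul_eq_zero.1 (by
      rw [h2, dotProduct, Finset.mul_sum]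
      exact Finset.sum_congr rfl fun i _ => by rw [h1, grad]; ring)).resolve_right
      (H32.gen_nu hl h0)
    refine ⟨H17.toDer (D.restrictScalars ℤ) fun c => H17.kill_cl ?_ c.2, funext fun i => ?_⟩
    · rintro _ ⟨i, rfl⟩
      rw [h1, h3, zero_mul]
    · exact (hD (Sum.inr i)).trans (by simp [Pi.single_apply])
  · exact (H32.edge_pt l t).symm ▸ hl

namespace Pc

variable [CharZero Ω] {m : Mir k B ι} {q : ι → K} {y : ι → Ω} {t : Ω} (P : Pc m q y t)
include P

lemma pen_ne {F : MvPolynomial (ι ⊕ ι) B} (h : Lin F) (h0 : F ≠ 0) : pen q F ≠ 0 := fun e => by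
  have : CharZero B := (algebraMap B Ω).charZero
  exact h0 (P.gen F (by rw [h.edge, ← aeval_pen, e, map_zero]))

omit [CharZero Ω] in
lemma on' : m.On fun i => algebraMap K Ω (q i) := fun p => by
  rw [aeval_alg, map_eq_zero, P.on]

omit [CharZero Ω] P [Fintype ι] in
lemma grad_alg (F : MvPolynomial ι B) (q : ι → K) :
    grad F (fun i => algebraMap K Ω (q i)) = fun i => algebraMap K Ω (grad F q i) := by
  ext i
  simp only [grad, aeval_alg]

omit [CharZero Ω] in
lemma nn : ∑ i, grad m.f q i ^ 2 ≠ 0 := fun h => P.on'.nn (by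
  simpa only [grad_alg, dotProduct, ← map_mul, ← map_sum, map_eq_zero, pow_two] using h)

/-- Generic edges of the components of a cone. -/
lemma cur [IsAlgClosed Ω] {ψ : MvPolynomial ι K} (hψ : Prime ψ) (hn : ¬ ψ ∣ lin (grad m.f q)) :
    ∃ (v : ι → Ω) (s : Ω) (D : Derivation K Ω Ω), (∀ a, aeval v a = 0 ↔ ψ ∣ a) ∧ D s = 1 ∧
      (∀ i, D (v i) = 0) ∧ St m (edge (fun i => algebraMap K Ω (q i)) v s) s
        (edge (fun i => algebraMap K Ω (q i))
          (H17.Cm.rf (fun i => algebraMap K Ω (grad m.f q i)) v) s) ∧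
      (Fintype.card (ι ⊕ ι) : ℕ∞) ≤
        rk B (range (edge (fun i => algebraMap K Ω (q i)) v s)) + 1 := by
  classical
  obtain ⟨j, v, D, h1, h2, h3, h4⟩ := gp P.ind hψ
  have h5 := H32.st_edge (m := m) (l := edge (fun i => algebraMap K Ω (q i)) v (y j)) (t := y j)
    (by simpa using P.on'.zero) (by simpa using P.on'.nn) fun h => hn ((h2 _).1 (by
      rw [H32.pt_edge, H32.dir_edge, grad_alg] at h
      rw [aeval_lin]
      exact h))
  rw [H32.pt_edge, H32.dir_edge, grad_alg] at h5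
  refine ⟨v, y j, D, h2, h3, h4, h5, ?_⟩
  have h6 := P.on'.rk
  obtain ⟨n, hn⟩ := ENat.ne_top_iff_exists.1 (H32.rk_ne_top (C := B) fun i => algebraMap K Ω (q i))
  obtain ⟨J, hJ, h7⟩ := (H88.le_rk_iff _ n).1 hn.le
  have h8 := H32.gen_iff_rk.1 (H32.gen_iff.2 (h7.sumElim_of_tower
    (by rintro _ ⟨i, rfl⟩; exact ⟨_, rfl⟩) P.ind))
  have h9 : ∀ i, edge (fun i => algebraMap K Ω (q i)) v (y j) i ∈
    cl B (range (edge (fun i => algebraMap K Ω (q i)) v (y j))) := fun i => subset_cl _ ⟨i, rfl⟩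
  have h10 := H32.mem_cl_of_pts h5.mem
  refine le_trans ?_ (add_le_add_left (h8.trans (H88.rk_le ?_)) 1)
  · rw [← hn] at h6
    rw [Fintype.card_sum, Fintype.card_sum, Fintype.card_coe, hJ, Nat.cast_add, Nat.cast_add,
      add_assoc, h6]
  · rintro _ ⟨i | i, rfl⟩
    · by_cases hi : i = j
      · exact hi ▸ h10
      · rw [Sum.elim_inl, ← h1 i hi]
        exact h9 (Sum.inr i)
    · simpa using H32.pt_mem_cl h9 h10 i

/-- The cone of a squarefree line polynomial has simple components. -/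
lemma simple [IsAlgClosed Ω] {G : MvPolynomial (ι ⊕ ι) B} (h : Lin G) (hG : Squarefree G)
    {ψ : MvPolynomial ι K} (hψ : Prime ψ) (hn : ¬ ψ ∣ lin (grad m.f q)) : ¬ ψ * ψ ∣ pen q G := by
  classical
  have : CharZero B := (algebraMap B Ω).charZero
  have : CharZero K := (algebraMap K Ω).charZero
  rintro ⟨E, hE⟩
  obtain ⟨v, s, -, h1, -, -, h2, h3⟩ := P.cur hψ hn
  have h4 : ∀ D : Derivation B (MvPolynomial ι K) (MvPolynomial ι K), aeval v (D (pen q G)) = 0 :=
    fun D => (h1 _).2 ⟨D ψ * E * 2 + ψ * D E, by simp [hE]; ring⟩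
  have h5 : H42.ev (edge (fun i => algebraMap K Ω (q i)) v s) G = 0 := by
    rw [h.edge, ← aeval_pen, h1, hE, mul_assoc]
    exact dvd_mul_right _ _
  have h6 : ∀ i j, aeval v (pen q (pderiv (Sum.inl i) G)) * algebraMap K Ω (grad m.f q j) =
      aeval v (pen q (pderiv (Sum.inl j) G)) * algebraMap K Ω (grad m.f q i) := fun i j => by
    obtain ⟨D, hD⟩ := ex_tan P.on (v := fun l => (if l = i then grad m.f q j else 0) -
      if l = j then grad m.f q i else 0) (by simp [mul_sub, mul_comm (grad m.f q i)])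
    obtain ⟨D', h7, h8⟩ := exists_der (ι := ι) (k := B)
      (C.toAddMonoidHom.comp D.toLinearMap.toAddMonoidHom) (by simp) (by simp) 0
    have := h4 D'
    rw [pen, chain_ev] at this
    simp only [h7, h8, ← pen.eq_1] at this
    rw [← sub_eq_zero]
    simpa [hD, mul_sub, apply_ite (algebraMap K Ω)] using this
  have h7 : ∀ i, aeval v (pen q (pderiv (Sum.inl i) G)) = 0 := fun i => by
    have h8 := h2.nu
    rw [H32.pt_edge, H32.dir_edge, grad_alg] at h8
    refine (mul_eq_zero.1 ?_).resolve_right h8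
    have h9 := h.ev (fun i => algebraMap K Ω (q i)) v
    simp only [← aeval_pen] at h9
    simp only [dotProduct, Finset.mul_sum, ← mul_assoc, h6 i, mul_right_comm _ _ (v _),
      ← Finset.sum_mul, h9, zero_mul]
  have h8 : ∀ i, H42.ev (edge (fun i => algebraMap K Ω (q i)) v s) (pderiv (Sum.inl i) G) = 0 :=
    fun i => by rw [(h.pderiv i).edge, ← aeval_pen, h7]
  refine no_sing (H32.cur_iff_rk.2 (le_antisymm (H32.rk_lt hG.ne_zero h5) h3)) hG h5 ?_
  rintro (i | i)
  · exact h8 i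
  · have h9 := congrArg ((pderiv i).restrictScalars B) (h.tr (fun j => C (algebraMap K Ω (q j)) -
      C s * X j) X (C s : MvPolynomial ι Ω))
    rw [chain_ev, chain_ev] at h9
    have h10 := congrArg ((aeval v : MvPolynomial ι Ω →ₐ[Ω] Ω).restrictScalars B) h9
    have h11 := h4 ((pderiv i).restrictScalars B)
    rw [pen, chain_ev] at h11
    simp only [map_add, map_sum, map_mul, map_ev] at h10
    simp only [← pen.eq_1, map_add, map_sum, map_mul, aeval_pen] at h11
    simp only [H42.ev, edge, Pi.sub_def, Pi.smul_def, smul_eq_mul] at h8 ⊢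
    simp [pderiv_X, Pi.single_apply, apply_ite (eval v), apply_ite (aeval v), ev] at h10 h11
    simp only [h8, h11, zero_mul] at h10
    simpa using h10.symm

end Pc

end Pool.Agent.MP_249f74_an.H65
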