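import Pool.Agent.MP_249f74_an.H65.B2

/-!
Line polynomials exchanged by the reflection.
-/

open MvPolynomial

namespace Pool.Agent.MP_249f74_an.H65

variable {k K ι : Type} [Field k] [Field K] [Algebra k K] [Fintype ι] [DecidableEq ι]
  [CharZero k] [CharZero K]

namespace Gr

variable {q w : ι → K} {e : ι} {d : ι → Derivation k K K} (G : Gr q e w d)
include G

omit [CharZero k] [CharZero K] in
lemma rf_swap {a b : MvPolynomial ι K} {c : K} (hr : rf w a = C c * b) : C c * rf w b = a := by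
  rw [← G.rf_rf a, hr, map_mul, rf_C]

omit [CharZero k] [CharZero K] in
lemma rf_mul {a b : MvPolynomial ι K} {c : K} (hr : rf w a = C c * b) :
    rf w (b * a) = b * a := by
  rw [map_mul, hr, ← mul_assoc, mul_comm _ (C c), G.rf_swap hr, mul_comm]

/-- The factor is constant. -/
theorem one_c {F0 F1 : MvPolynomial (ι ⊕ ι) k} (h0 : Lin F0) (h1 : Lin F1) {c : K} (c0 : c ≠ 0)
    (hr : rf w (pen q F1) = C c * pen q F0) (f0 : pen q F0 ≠ 0) :
    (∀ j, d j c = 0) ∨ Quad k q ∨ Rk1 w d := by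
  have cC : (C c : MvPolynomial ι K) ≠ 0 := by rwa [Ne, C_eq_zero]
  by_cases hg : lin w ∣ pen q F0
  · refine Or.inr (G.ts (h0.mul h1) (by rw [map_mul, G.rf_mul hr]) ?_ ?_)
    · rw [map_mul]
      exact mul_ne_zero f0 fun h => mul_ne_zero cC f0 (by rw [← hr, h, map_zero])
    · rw [map_mul]
      exact hg.mul_right _
  by_cases q0 : hq w d = 0
  · exact Or.inr (Or.inr (rk1_of q0 G.sym))
  by_cases hc : (fun j => d j c) = 0
  · exact Or.inl (congrFun hc)
  refine Or.inr (G.fub' fun l hl hd => by_contra fun hn => ?_)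
  have A0 : pr e w (pen q F0) ≠ 0 := fun h => hg (G.pr_eq_zero.1 h)
  obtain ⟨h2, h3⟩ := G.one_eq h0 h1 hr
  have hy : yy e w d (C c * pr e w (pen q F0) ^ 2) = 0 := by
    rw [Derivation.leibniz, Derivation.leibniz_pow, G.yy_pen h0, yy, mkD_C']
    simp only [smul_eq_mul, nsmul_eq_mul]
    push_cast
    linear_combination pr e w (pen q F0) * h3
  have inv : ∀ p, Prime p → p ∣ pr e w (pen q F0) → p ∣ yy e w d p := fun p hp h =>
    prime_inv hp (mul_ne_zero cC (pow_ne_zero 2 A0))
      ((h.trans (dvd_pow_self _ two_ne_zero)).mul_left _) (hy ▸ dvd_zero _)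
  have dp := lin_prime hc
  have h4 : l ∣ lin fun j => d j c := (hl.dvd_or_dvd (h3 ▸ (hd.mul_right _).mul_left _)).resolve_right
    fun h => hn (inv l hl h)
  obtain ⟨b, hb⟩ := (hl.associated_of_dvd dp h4).symm.dvd.trans hd
  obtain ⟨m, rfl⟩ := ex_lin hc (hb ▸ hq_hom w d)
  obtain ⟨r, mr⟩ : ∃ r, m r ≠ 0 := by_contra fun h => q0 (by
    rw [hb, show m = fun _ => 0 from funext fun r => by_contra fun h' => h ⟨r, h'⟩, lin_zero,
      mul_zero])
  have me : m e = 0 := by
    have h := G.pr_hq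
    rw [hb, map_mul, G.pr_d, pr_lin] at h
    have h5 : C (m e) * lin w = 0 := by linear_combination -mul_left_cancel₀ dp.ne_zero h
    simpa [G.g_prime.ne_zero] using h5
  have mp : Prime (lin fun i => (m r)⁻¹ * m i) := lin_prime fun h => by
    simpa [mr] using congrFun h r
  have mC : (C (m r)⁻¹ * C (m r) : MvPolynomial ι K) = 1 := by
    rw [← map_mul, inv_mul_cancel₀ mr, map_one]
  have h5 : (lin fun i => (m r)⁻¹ * m i) ∣ pr e w (pen q F0) :=
    ⟨C (m r) * 2 * C c * pr e w (zz w (pen q F0)), mul_left_cancel₀ dp.ne_zero (by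
      rw [h3, hb, lin_mul]
      linear_combination -(2 * C c * lin (fun j => d j c) * lin m *
        pr e w (zz w (pen q F0))) * mC)⟩
  obtain ⟨μ, hμ⟩ := inv _ mp h5
  have S : Sc q e w d r (fun i => (m r)⁻¹ * m i) (fun j => m r * d j c) μ :=
    { G with
      hm := by rw [hb, lin_mul, lin_mul]; linear_combination -(lin (fun j => d j c) * lin m) * mC
      mr := inv_mul_cancel₀ mr
      me := by simp [me]
      inv := hμ }
  have h6 : (lin fun i => (m r)⁻¹ * m i) ∣ lin fun j => d j c := by_contra fun h =>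
    h (S.b2 (fun h' => h (h'.trans ⟨C (m r)⁻¹, by
      rw [lin_mul]; linear_combination -lin (fun j => d j c) * mC⟩)) h0 h1 c0 h2 A0 hy)
  exact hn (inv l hl ((h4.trans (mp.associated_of_dvd dp h6).symm.dvd).trans h5))

/-- Two line polynomials exchanged by the reflection are invariant. -/
theorem one {F0 F1 : MvPolynomial (ι ⊕ ι) k} (h0 : Lin F0) (h1 : Lin F1) {c : K} (c0 : c ≠ 0)
    (hr : rf w (pen q F1) = C c * pen q F0) (f0 : pen q F0 ≠ 0) :
    (∃ c0, c = algebraMap k K c0 ∧ pen q F1 = C c * pen q F0 ∧ rf w (pen q F0) = pen q F0) ∨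
      Quad k q ∨ Rk1 w d := by
  by_cases q0 : hq w d = 0
  · exact Or.inr (Or.inr (rk1_of q0 G.sym))
  refine (G.one_c h0 h1 c0 hr f0).imp_left fun h => ?_
  obtain ⟨c1, rfl⟩ := G.cst' h
  have h2 := G.one_a h0 h1 hr q0
  exact ⟨c1, rfl, h2, mul_left_cancel₀ (by rwa [Ne, C_eq_zero]) ((G.rf_swap hr).trans h2)⟩

omit [CharZero k] in
/-- An invariant line polynomial up to a factor is invariant. -/
theorem one_self {F : MvPolynomial (ι ⊕ ι) k} (h : Lin F) {c : K}
    (hr : rf w (pen q F) = C c * pen q F) : rf w (pen q F) = pen q F ∨ Rk1 w d := by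
  by_cases q0 : hq w d = 0
  · exact Or.inr (rk1_of q0 G.sym)
  by_cases f0 : pen q F = 0
  · simp [f0]
  have h1 : (C (c * c) : MvPolynomial ι K) = C 1 := mul_right_cancel₀ f0 (by
    rw [map_mul, mul_assoc, ← hr, G.rf_swap hr, map_one, one_mul])
  refine Or.inl ?_
  rcases mul_self_eq_one_iff.1 (C_injective ι K h1) with rfl | rfl
  · simpa using hr
  · exact absurd (odd_zero G.g_prime (G.not_dvd q0) (rf w).toRingHom G.rf_g rf_sub (G.sq h)
      (by simpa using hr)) f0

end Gr

end Pool.Agent.MP_249f74_an.H65
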