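import Pool.Agent.MP_249f74_an.H65.Fub

/-!
The geodesic derivation on tangent directions, and invariant line polynomials.
-/

open MvPolynomial

namespace Pool.Agent.MP_249f74_an.H65

variable {k K ι : Type} [Field k] [Field K] [Algebra k K] [Fintype ι] [DecidableEq ι]

/-- The derivative in the normal direction. -/
noncomputable def zz (w : ι → K) : Derivation K (MvPolynomial ι K) (MvPolynomial ι K) :=
  mkDerivation K fun i => C (w i / ∑ j, w j ^ 2)

/-- The restriction to tangent directions. -/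
noncomputable def pr (e : ι) (w : ι → K) : MvPolynomial ι K →ₐ[K] MvPolynomial ι K :=
  aeval fun i => X i - if i = e then lin w else 0

/-- The geodesic derivation. -/
noncomputable def yy (e : ι) (w : ι → K) (d : ι → Derivation k K K) :
    Derivation k (MvPolynomial ι K) (MvPolynomial ι K) :=
  mkD d X fun i => if i = e then 0 else -(hq w d * C (w i / ∑ j, w j ^ 2))

omit [DecidableEq ι] in
@[simp] lemma zz_X (w : ι → K) (i : ι) : zz w (X i) = C (w i / ∑ j, w j ^ 2) :=
  mkDerivation_X _ _ _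

omit [DecidableEq ι] in
@[simp] lemma zz_C (w : ι → K) (a : K) : zz w (C a) = 0 := derivation_C _ _

lemma pr_X (e : ι) (w : ι → K) (i : ι) : pr e w (X i) = X i - if i = e then lin w else 0 :=
  aeval_X _ _

@[simp] lemma pr_C (e : ι) (w : ι → K) (a : K) : pr e w (C a) = C a := aeval_C _ _

omit [DecidableEq ι] in
@[simp] lemma rf_C (w : ι → K) (a : K) : rf w (C a) = C a := aeval_C _ _

lemma pr_lin (e : ι) (w m : ι → K) : pr e w (lin m) = lin m - C (m e) * lin w := by
  rw [pr, aeval_lin, lin.eq_1 m]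
  simp [mul_sub, Finset.sum_sub_distrib]

lemma pr_sub (e : ι) (w : ι → K) (a : MvPolynomial ι K) : lin w ∣ pr e w a - a :=
  dvd_sub_aeval (fun i => by split_ifs <;> simp) a

lemma yy_sub (e : ι) (w : ι → K) (d : ι → Derivation k K K) (a : MvPolynomial ι K) :
    hq w d ∣ yy e w d a - mkD d X 0 a := by
  induction a using MvPolynomial.induction_on with
  | C a => simp [yy, mkD_C']
  | add p q hp hq => rw [map_add, map_add, add_sub_add_comm]; exact hp.add hq
  | mul_X p i hp =>
    have : hq w d ∣ yy e w d (X i) := by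
      rw [yy, mkD_X]
      split_ifs <;> simp
    rw [Derivation.leibniz, Derivation.leibniz, mkD_X]
    convert (hp.mul_left (X i)).add (this.mul_left p) using 1
    simp only [smul_eq_mul, Pi.zero_apply]
    ring

lemma dvd_of_primes {R A : Type} [CommRing R] [CommRing A] [Algebra R A] [IsDomain A]
    [UniqueFactorizationMonoid A] (D : Derivation R A A) (h : A) :
    (∀ l, Prime l → l ∣ h → l ∣ D l) → h ∣ D h := by
  refine UniqueFactorizationMonoid.induction_on_prime h (by simp) (fun _ hu _ => hu.dvd) ?_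
  intro a p _ hp ih H
  rw [Derivation.leibniz, smul_eq_mul, smul_eq_mul, mul_comm a]
  exact (mul_dvd_mul_left p (ih fun l hl hla => H l hl (hla.mul_left p))).add
    (mul_dvd_mul_right (H p hp (dvd_mul_right p a)) a)

omit [DecidableEq ι] in
lemma ex_lin {m : ι → K} {b : MvPolynomial ι K} (m0 : m ≠ 0) (h : (lin m * b).IsHomogeneous 2) :
    ∃ m', b = lin m' := by
  by_cases b0 : b = 0
  · exact ⟨fun _ => 0, by simp [b0]⟩
  have l0 := (lin_prime m0).ne_zero
  have h1 := h.totalDegree (mul_ne_zero l0 b0)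
  rw [totalDegree_mul_of_isDomain l0 b0, (lin_hom m).totalDegree l0] at h1
  have h2 := sum_homogeneousComponent b
  rw [show b.totalDegree = 1 by omega, Finset.sum_range_succ, Finset.sum_range_one,
    homogeneousComponent_zero] at h2
  have h3 := homogeneousComponent_mem 1 b
  rw [homogeneousSubmodule_one_eq_span_X, Submodule.mem_span_range_iff_exists_fun] at h3
  obtain ⟨m', hm⟩ := h3
  have h4 : homogeneousComponent 1 b = lin m' := by simp [← hm, lin, smul_eq_C_mul]
  refine ⟨m', ?_⟩
  have h5 : (lin m * C (coeff 0 b)).IsHomogeneous 2 := by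
    rw [show lin m * C (coeff 0 b) = lin m * b - lin m * lin m' by
      rw [← h4]; linear_combination lin m * h2]
    exact h.sub ((lin_hom m).mul (lin_hom m'))
  have h6 : lin m * C (coeff 0 b) = 0 := by_contra fun h0 => by
    have := h5.inj_right ((lin_hom m).mul (isHomogeneous_C ι _)) h0
    omega
  rw [← h2, h4, (mul_eq_zero.1 h6).resolve_left l0, zero_add]

omit [DecidableEq ι] in
lemma hq_hom (w : ι → K) (d : ι → Derivation k K K) : (hq w d).IsHomogeneous 2 :=
  IsHomogeneous.sum _ _ _ fun i _ => (lin_hom _).mul (isHomogeneous_X K i)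

namespace Gr

variable {q w : ι → K} {e : ι} {d : ι → Derivation k K K} (G : Gr q e w d)
include G

lemma sum_nw : ∑ i, w i * (w i / ∑ j, w j ^ 2) = 1 := by
  simp only [← mul_div_assoc, ← pow_two, ← Finset.sum_div, div_self G.nw]

lemma zz_g : zz w (lin w) = 1 := by
  rw [lin, map_sum, ← C_1, ← G.sum_nw, map_sum]
  simp

lemma pr_g : pr e w (lin w) = 0 := by simp [pr_lin, G.we]

lemma pr_eq_zero {a : MvPolynomial ι K} : pr e w a = 0 ↔ lin w ∣ a :=
  ⟨fun h => by simpa [h] using pr_sub e w a, fun ⟨y, h⟩ => by simp [h, G.pr_g]⟩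

lemma pr_pr (a : MvPolynomial ι K) : pr e w (pr e w a) = pr e w a := by
  rw [← sub_eq_zero, ← map_sub, G.pr_eq_zero]; exact pr_sub e w a

lemma pr_rf (a : MvPolynomial ι K) : pr e w (rf w a) = pr e w a := by
  rw [← sub_eq_zero, ← map_sub, G.pr_eq_zero]; exact rf_sub a

lemma pr_d (a : K) : pr e w (lin fun j => d j a) = lin fun j => d j a := by simp [pr_lin, G.de]

lemma pr_hq : pr e w (hq w d) = hq w d := by
  rw [hq, map_sum]
  refine Finset.sum_congr rfl fun i _ => ?_
  rw [map_mul, G.pr_d, pr_X]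
  split_ifs with h
  · simp [h, G.dwe]
  · simp

lemma pr_geo (a : MvPolynomial ι K) :
    pr e w (mkD d X 0 a - hq w d * zz w a) = yy e w d (pr e w a) := by
  refine der_ext (pr e w).toRingHom (fun a => pr e w (mkD d X 0 a - hq w d * zz w a))
    (fun a => yy e w d (pr e w a)) (fun a b => ?_) (by simp) (fun a b => ?_) (by simp)
    (fun a => ?_) (fun i => ?_) a
  · simp only [map_add, map_sub, map_mul]; ring
  · simp only [Derivation.leibniz, smul_eq_mul, map_add, map_sub, map_mul, AlgHom.toRingHom_eq_coe,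
      RingHom.coe_coe]
    ring
  · simp [yy, mkD_C', G.pr_d]
  · simp only [mkD_X, zz_X, map_sub, map_mul, G.pr_hq, pr_C, pr_X, Pi.zero_apply, map_zero]
    by_cases h : i = e
    · have h1 := congrArg (fun x => hq w d * C x) G.sum_nw
      rw [← Finset.add_sum_erase _ _ (Finset.mem_univ e), G.we] at h1
      have h2 : ∀ i ∈ Finset.univ.erase e, C (w i) * (if i = e then 0 else
          -(hq w d * C (w i / ∑ j, w j ^ 2))) = -(hq w d * (C (w i) * C (w i / ∑ j, w j ^ 2))) :=
        fun i hi => by rw [if_neg (Finset.ne_of_mem_erase hi)]; ring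
      rw [if_pos h, yy, mkD_X, if_pos h, mkD_lin, ← hq,
        ← Finset.add_sum_erase _ (fun i => C (w i) * _) (Finset.mem_univ e), if_pos rfl,
        Finset.sum_congr rfl h2, h, G.we, Finset.sum_neg_distrib, ← Finset.mul_sum]
      simp only [map_add, map_sum, map_mul, map_one] at h1
      linear_combination -h1
    · simp [yy, h]

lemma zz_rf (a : MvPolynomial ι K) : zz w (rf w a) = -rf w (zz w a) := by
  refine der_ext (rf w).toRingHom (fun a => zz w (rf w a)) (fun a => -rf w (zz w a)) (by simp)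
    (fun a b => by simp; ring) (by simp) (fun a b => by simp; ring) (by simp) (fun i => ?_) a
  rw [rf, aeval_X, ← rf, map_sub, Derivation.leibniz, G.zz_g, zz_X, zz_C, rf_C, mul_div_assoc,
    map_mul, map_ofNat]
  simp
  ring

omit G [DecidableEq ι] in
lemma rk1_of (h : hq w d = 0) (s : ∀ i j, d j (w i) = d i (w j)) [CharZero K] : Rk1 w d := by
  have : ∀ i j, d j (w i) = 0 := fun i j => by
    have h1 := pderiv_qd (t := fun i j => d j (w i)) s i
    rw [show qd (fun i j => d j (w i)) = 0 from h, map_zero, eq_comm] at h1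
    exact congrFun (lin_eq_zero ((mul_eq_zero.1 h1).resolve_left two_ne_zero)) j
  simp [Rk1, bil, this]

lemma not_dvd (h : hq w d ≠ 0) : ¬ lin w ∣ mkD d X 0 (lin w) := by
  rwa [xe_g, ← G.pr_eq_zero, G.pr_hq]

lemma fub' [CharZero K] (h : ∀ l, Prime l → l ∣ hq w d → l ∣ yy e w d l) :
    Quad k q ∨ Rk1 w d :=
  G.fub (by simpa using (dvd_of_primes _ _ h).sub (yy_sub e w d (hq w d)))

lemma yy_pen {F : MvPolynomial (ι ⊕ ι) k} (h : Lin F) :
    yy e w d (pr e w (pen q F)) = -(hq w d * pr e w (zz w (pen q F))) := by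
  have := G.sq h 0
  simp only [Function.iterate_zero, id] at this
  simp [← G.pr_geo, this, G.pr_g, G.pr_hq]

variable [CharZero K]

/-- An invariant line polynomial vanishing on the tangent lines. -/
theorem ts {F : MvPolynomial (ι ⊕ ι) k} (h : Lin F) (hr : rf w (pen q F) = pen q F)
    (h0 : pen q F ≠ 0) (hg : lin w ∣ pen q F) : Quad k q ∨ Rk1 w d := by
  by_cases q0 : hq w d = 0
  · exact Or.inr (rk1_of q0 G.sym)
  obtain ⟨m, E, hE, he⟩ := WfDvdMonoid.max_power_factor h0 G.g_prime.irreducible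
  have hm := par G.g_prime (G.not_dvd q0) m (G.sq h) he hE
  rw [he, map_mul, map_pow, G.rf_g, hm.neg_pow] at hr
  have h1 := mul_left_cancel₀ (pow_ne_zero m G.g_prime.ne_zero) hr
  obtain ⟨j, rfl⟩ := hm.two_dvd
  have h2 := (G.g_prime.dvd_or_dvd (laz G.g_prime.ne_zero j (G.sq h) he)).resolve_left
    fun h => G.not_dvd q0 (G.g_prime.dvd_of_dvd_pow h)
  rcases j with _ | j
  · exact absurd (by simpa [he] using hg) hE
  have h3 : pr e w (zz w E) = 0 := by
    have := congrArg (pr e w) (G.zz_rf E)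
    rw [h1, map_neg, G.pr_rf, eq_neg_iff_add_eq_zero, ← two_mul] at this
    exact (mul_eq_zero.1 this).resolve_left two_ne_zero
  have h4 := G.pr_geo E
  have h5 := G.pr_geo (hq w d)
  rw [← G.pr_eq_zero, xe_g] at h2
  simp only [map_sub, map_add, map_mul, G.pr_hq, h3, map_ofNat, map_natCast] at h2 h4 h5
  refine G.fub' fun l hl hd => prime_inv (G := pr e w E ^ 3 * hq w d ^ (2 * (j + 1))) hl
    (mul_ne_zero (pow_ne_zero _ fun h => hE (G.pr_eq_zero.1 h)) (pow_ne_zero _ q0))
    ((hd.trans (dvd_pow_self _ (by omega))).mul_left _)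
    ⟨-(2 * (j + 1 : ℕ) * pr e w (zz w (hq w d))), ?_⟩
  rw [Derivation.leibniz, Derivation.leibniz_pow, Derivation.leibniz_pow, ← h4, ← h5,
    show 2 * (j + 1) - 1 = 2 * j + 1 by omega]
  simp only [smul_eq_mul, nsmul_eq_mul]
  push_cast at h2 ⊢
  linear_combination pr e w E ^ 2 * hq w d ^ (2 * j + 1) * h2

/-- A constant factor forces invariance. -/
theorem one_a {F0 F1 : MvPolynomial (ι ⊕ ι) k} (h0 : Lin F0) (h1 : Lin F1) {c : k}
    (hr : rf w (pen q F1) = C (algebraMap k K c) * pen q F0) (q0 : hq w d ≠ 0) :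
    pen q F1 = C (algebraMap k K c) * pen q F0 := by
  have h2 : Lin (F1 - C c * F0) := by
    rw [Lin] at *
    simp only [map_sub, pderiv_C_mul, mul_sub, Finset.sum_sub_distrib, mul_left_comm _ (C c),
      ← Finset.mul_sum, h0, h1, mul_zero, sub_zero]
  have h3 : pen q (F1 - C c * F0) = pen q F1 - C (algebraMap k K c) * pen q F0 := by
    rw [map_sub, map_mul, ← algebraMap_eq, AlgHom.commutes]; rfl
  have := odd_zero G.g_prime (G.not_dvd q0) (rf w).toRingHom G.rf_g rf_sub (G.sq h2) (by
    change rf w (pen q (F1 - C c * F0)) = -pen q (F1 - C c * F0)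
    rw [h3, map_sub, ← hr, G.rf_rf, neg_sub])
  exact sub_eq_zero.1 (h3 ▸ this)

omit [CharZero K] in
/-- The first order equation on tangent directions. -/
lemma one_eq {F0 F1 : MvPolynomial (ι ⊕ ι) k} (h0 : Lin F0) (h1 : Lin F1) {c : K}
    (hr : rf w (pen q F1) = C c * pen q F0) :
    pr e w (pen q F1) = C c * pr e w (pen q F0) ∧
      lin (fun j => d j c) * pr e w (pen q F0) = 2 * C c * (hq w d * pr e w (zz w (pen q F0))) := by
  have h2 : pr e w (pen q F1) = C c * pr e w (pen q F0) := by rw [← G.pr_rf, hr, map_mul, pr_C]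
  have h3 := congrArg (pr e w) (G.zz_rf (pen q F1))
  rw [hr, map_neg, G.pr_rf, Derivation.leibniz, zz_C, smul_zero, add_zero, smul_eq_mul, map_mul,
    pr_C] at h3
  have h4 := G.yy_pen h1
  rw [h2, Derivation.leibniz, G.yy_pen h0, yy, mkD_C', smul_eq_mul, smul_eq_mul] at h4
  exact ⟨h2, by linear_combination h4 - hq w d * h3⟩

end Gr

end Pool.Agent.MP_249f74_an.H65
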