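import Pool.Agent.MP_249f74_an.H65.Ops
import Pool.Agent.MP_249f74_an.H17.Base

/-!
Auxiliary facts on polynomials and power series.
-/

namespace Pool.Agent.MP_249f74_an.H65

section Ode

open Polynomial

theorem ode_field {E : Type} [Field E] [CharZero E] {N P Q : E[X]} {a : ℕ} (hN : Irreducible N)
    (h2 : N.natDegree = 2) (P0 : P ≠ 0) (Q0 : Q ≠ 0) (hP : P.natDegree ≤ 2 * a)
    (hQ : Q.natDegree ≤ 2 * a) (h : N * derivative (P * Q) = 2 * a * derivative N * (P * Q)) :
    C P.leadingCoeff * Q = C Q.leadingCoeff * P := by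
  obtain ⟨i, P', hP', rfl⟩ := WfDvdMonoid.max_power_factor P0 hN
  obtain ⟨j, Q', hQ', rfl⟩ := WfDvdMonoid.max_power_factor Q0 hN
  have N0 := hN.ne_zero
  have h3 : ∀ n : ℕ, N * derivative (N ^ n) = n * derivative N * N ^ n := fun n => by
    rcases n with _ | n
    · simp
    · rw [derivative_pow_succ, map_add, map_natCast, map_one]; push_cast; ring
  have h4 : N ∣ C ((2 * a : E) - (i + j)) * (derivative N * (P' * Q')) :=
    ⟨derivative (P' * Q'), mul_left_cancel₀ (pow_ne_zero (i + j) N0) (by
      rw [mul_mul_mul_comm, ← pow_add, derivative_mul] at h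
      have := h3 (i + j)
      simp only [map_sub, map_mul, map_add, map_natCast, map_ofNat]
      push_cast at this
      linear_combination P' * Q' * this - h)⟩
  have h5 : ¬ N ∣ derivative N := not_dvd_of_natDegree_lt
    (fun e => by have := derivative_eq_zero.1 e; omega)
    (natDegree_derivative_lt (by omega))
  have h6 : 2 * a = i + j := by
    by_contra hn
    have : IsUnit (C ((2 * a : E) - (i + j))) :=
      isUnit_C.2 (Ne.isUnit (sub_ne_zero.2 (by exact_mod_cast hn)))
    rw [this.dvd_mul_left] at h4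
    exact (hN.prime.dvd_or_dvd h4).elim h5 fun h => (hN.prime.dvd_or_dvd h).elim hP' hQ'
  rw [natDegree_mul (pow_ne_zero _ N0) (right_ne_zero_of_mul P0), natDegree_pow, h2] at hP
  rw [natDegree_mul (pow_ne_zero _ N0) (right_ne_zero_of_mul Q0), natDegree_pow, h2] at hQ
  obtain rfl : i = j := by omega
  rw [eq_C_of_natDegree_eq_zero (p := P') (by omega), eq_C_of_natDegree_eq_zero (p := Q') (by omega)]
  simp only [leadingCoeff_mul, leadingCoeff_C, map_mul]
  ring

theorem ode {A : Type} [CommRing A] [IsDomain A] [CharZero A] {n1 n2 a1 b1 : A} {P Q : A[X]} {a : ℕ}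
    (an : ∀ x y : A, n1 * x ^ 2 + n2 * y ^ 2 = 0 → x = 0 ∧ y = 0) (a0 : a1 ≠ 0) {N : A[X]}
    (hN : N = C n1 * (X * C a1) ^ 2 + C n2 * (1 + X * C b1) ^ 2) (P0 : P ≠ 0) (Q0 : Q ≠ 0)
    (hP : P.natDegree ≤ 2 * a) (hQ : Q.natDegree ≤ 2 * a)
    (h : N * derivative (P * Q) = 2 * a * derivative N * (P * Q)) :
    C P.leadingCoeff * Q = C Q.leadingCoeff * P := by
  let f := algebraMap A (FractionRing A)
  have hf : Function.Injective f := IsFractionRing.injective _ _
  have h1 : N = C (n1 * a1 ^ 2 + n2 * b1 ^ 2) * X ^ 2 + C (2 * n2 * b1) * X + C n2 := by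
    simp only [hN, map_add, map_mul, map_pow, map_ofNat]; ring
  have h2 : (N.map f).natDegree = 2 := by
    rw [natDegree_map_eq_of_injective hf, h1]
    exact natDegree_quadratic fun e => a0 (an _ _ e).1
  have h3 : Irreducible (N.map f) := irreducible_of_degree_le_three_of_not_isRoot
    (by simp [h2]) fun x hx => by
      obtain ⟨u, v, hv, rfl⟩ := IsFractionRing.div_surjective (A := A) x
      have v0 : v ≠ 0 := nonZeroDivisors.ne_zero hv
      have v1 : f v ≠ 0 := fun e => v0 (hf (by simpa using e))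
      have : n1 * (u * a1) ^ 2 + n2 * (v + u * b1) ^ 2 = 0 := hf (by
        simp only [IsRoot, hN, Polynomial.map_add, Polynomial.map_mul, Polynomial.map_pow, map_C,
          map_X, Polynomial.map_one, eval_add, eval_mul, eval_pow, eval_C, eval_X, eval_one] at hx
        change f n1 * (f u / f v * f a1) ^ 2 + f n2 * (1 + f u / f v * f b1) ^ 2 = 0 at hx
        field_simp at hx
        simp only [map_add, map_mul, map_pow, map_zero]
        linear_combination hx)
      obtain ⟨h4, h5⟩ := an _ _ this
      rw [(mul_eq_zero.1 h4).resolve_right a0] at h5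
      exact v0 (by simpa using h5)
  have h4 := ode_field (P := P.map f) (Q := Q.map f) (a := a) h3 h2
    ((Polynomial.map_ne_zero_iff hf).2 P0) ((Polynomial.map_ne_zero_iff hf).2 Q0)
    (natDegree_map_le.trans hP) (natDegree_map_le.trans hQ) (by
      have := congrArg (Polynomial.map f) h
      simpa [Polynomial.map_mul, derivative_map] using this)
  refine map_injective f hf ?_
  simpa [Polynomial.map_mul, leadingCoeff_map_of_injective hf] using h4

/-- The degree of the coefficients grows at most with slope two. -/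
def Bd {A : Type} [CommRing A] (p : A[X][X]) : Prop := ∀ j, (p.coeff j).natDegree ≤ 2 * j

variable {A : Type} [CommRing A] {p q : A[X][X]}

lemma Bd.add (hp : Bd p) (hq : Bd q) : Bd (p + q) := fun j => by
  rw [coeff_add]
  exact natDegree_add_le_of_degree_le (hp j) (hq j)

lemma Bd.mul (hp : Bd p) (hq : Bd q) : Bd (p * q) := fun j => by
  rw [coeff_mul]
  refine natDegree_sum_le_of_forall_le _ _ fun x hx => natDegree_mul_le.trans ?_
  have := Finset.HasAntidiagonal.mem_antidiagonal.1 hx
  have := hp x.1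
  have := hq x.2
  omega

lemma bd_lin (a : A) {b : A[X]} (hb : b.natDegree ≤ 2) : Bd (C (C a) + X * C b) := fun j => by
  rcases j with _ | _ | j <;> simp [coeff_C, hb]

lemma bd_aeval {k σ : Type} [CommRing k] [Algebra k A] {x : σ → A[X][X]} (hx : ∀ i, Bd (x i))
    (F : MvPolynomial σ k) : Bd (MvPolynomial.aeval x F) := by
  induction F using MvPolynomial.induction_on with
  | C a => simpa using bd_lin (algebraMap k A a) (b := 0) (by simp)
  | add p q hp hq => rw [map_add]; exact hp.add hq
  | mul_X p i hp => rw [map_mul, MvPolynomial.aeval_X]; exact hp.mul (hx i)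

end Ode

section Cw

open PowerSeries

variable {k A : Type} [CommRing k] [CommRing A] [Algebra k A]

/-- A derivation applied to the coefficients of a power series. -/
noncomputable def cw (D : Derivation k A A) : PowerSeries A →+ PowerSeries A where
  toFun f := mk fun n => D (coeff n f)
  map_zero' := by ext; simp
  map_add' f g := by ext; simp

lemma coeff_cw (D : Derivation k A A) (f : PowerSeries A) (n : ℕ) :
    coeff n (cw D f) = D (coeff n f) := coeff_mk n fun n => D (coeff n f)

lemma cw_mul (D : Derivation k A A) (f g : PowerSeries A) :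
    cw D (f * g) = f * cw D g + g * cw D f := by
  ext n
  rw [mul_comm g]
  simp [coeff_cw, coeff_mul, Finset.sum_add_distrib, mul_comm (D _)]

lemma cw_C (D : Derivation k A A) (a : A) : cw D (C a) = C (D a) := by
  ext n
  rw [coeff_cw, coeff_C, coeff_C]
  split_ifs <;> simp

lemma cw_X (D : Derivation k A A) : cw D X = 0 := by
  ext n
  simp [coeff_cw, coeff_X, apply_ite]

end Cw

lemma gram {S : Type} [CommRing S] {n1 n2 o1 o2 e1 e2 a b a1 b1 : S}
    (h : n1 * o1 * a + n2 * o2 * b = 0) :
    ((n1 * e1 * a1 + n2 * e2 * b1) * (n1 * o1 * o1 + n2 * o2 * o2) -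
      (n1 * o1 * a1 + n2 * o2 * b1) * (n1 * e1 * o1 + n2 * e2 * o2)) * (n1 * a ^ 2 + n2 * b ^ 2) =
      (n1 * e1 * a + n2 * e2 * b) * (n1 * a * a1 + n2 * b * b1) * (n1 * o1 * o1 + n2 * o2 * o2) := by
  linear_combination ((n1 * e1 * a1 + n2 * e2 * b1) * (n1 * o1 * a + n2 * o2 * b) -
    (n1 * o1 * a1 + n2 * o2 * b1) * (n1 * e1 * a + n2 * e2 * b) -
    (n1 * e1 * o1 + n2 * e2 * o2) * (n1 * a * a1 + n2 * b * b1)) * h

end Pool.Agent.MP_249f74_an.H65
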