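import Pool.Agent.MP_249f74_an.H65.Pol

/-!
Real scrolls: the factor of a reflected line polynomial is constant along the rulings.
-/

open MvPolynomial

namespace Pool.Agent.MP_249f74_an.H65

variable {k K ι : Type} [Field k] [Field K] [Algebra k K] [Fintype ι] [DecidableEq ι]

lemma pr_self {r : ι} {m : ι → K} (h : m r = 1) : pr r m (lin m) = 0 := by simp [pr_lin, h]

lemma pr_zero_iff {r : ι} {m : ι → K} (h : m r = 1) {a : MvPolynomial ι K} :
    pr r m a = 0 ↔ lin m ∣ a :=
  ⟨fun h => by simpa [h] using pr_sub r m a, fun ⟨y, e⟩ => by simp [e, pr_self h]⟩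

/-- The restriction to the directions of the ruling. -/
noncomputable def ps (e r : ι) (w m : ι → K) : MvPolynomial ι K →ₐ[K] MvPolynomial ι K :=
  (pr r m).comp (pr e w)

/-- The motion along the lines of the ruling. -/
noncomputable def th (e r : ι) (w m : ι → K) (d : ι → Derivation k K K) :
    Derivation k (MvPolynomial ι K) (MvPolynomial ι K) :=
  mkD d (fun i => ps e r w m (X i)) 0

lemma ps_apply (e r : ι) (w m : ι → K) (a : MvPolynomial ι K) :
    ps e r w m a = pr r m (pr e w a) := rfl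

@[simp] lemma ps_C (e r : ι) (w m : ι → K) (a : K) : ps e r w m (C a) = C a := by simp

lemma th_C (e r : ι) (w m : ι → K) (d : ι → Derivation k K K) (a : K) :
    th e r w m d (C a) = ps e r w m (lin fun j => d j a) := by
  rw [th, mkD_C]
  exact (DFunLike.congr_fun (aeval_unique (ps e r w m)) _).symm

omit [DecidableEq ι] in
lemma mk_lin (v m : ι → K) :
    mkDerivation K (fun i => (C (v i) : MvPolynomial ι K)) (lin m) = C (∑ i, m i * v i) := by
  simp [lin, mkDerivation_X]

omit [DecidableEq ι] in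
lemma pderiv_qd' (t : ι → ι → K) (l : ι) :
    pderiv l (qd t) = lin (t l) + lin fun i => t i l := by
  classical
  have : ∀ i, pderiv l (lin (t i) * X i) = (if i = l then lin (t i) else 0) + C (t i l) * X i :=
    fun i => by
      rw [Derivation.leibniz, pderiv_lin, pderiv_X]
      simp [Pi.single_apply, mul_comm]
  rw [qd, map_sum]
  simp only [this, Finset.sum_add_distrib, Finset.sum_ite_eq', Finset.mem_univ, if_true]
  rfl

/-- A factor of the second fundamental form invariant under the geodesic derivation. -/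
structure Sc (q : ι → K) (e : ι) (w : ι → K) (d : ι → Derivation k K K) (r : ι) (m m' : ι → K)
    (μ : MvPolynomial ι K) : Prop extends Gr q e w d where
  hm : hq w d = lin m * lin m'
  mr : m r = 1
  me : m e = 0
  inv : yy e w d (lin m) = lin m * μ

namespace Sc

variable {q w m m' : ι → K} {e r : ι} {d : ι → Derivation k K K} {μ : MvPolynomial ι K}
  (G : Sc q e w d r m m' μ)
include G

lemma pr_m : pr e w (lin m) = lin m := by simp [pr_lin, G.me]

lemma ps_pr (a : MvPolynomial ι K) : ps e r w m (pr e w a) = ps e r w m a := by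
  rw [ps_apply, G.pr_pr, ps_apply]

lemma ps_g : ps e r w m (lin w) = 0 := by rw [ps_apply, G.pr_g, map_zero]

lemma ps_m : ps e r w m (lin m) = 0 := by rw [ps_apply, G.pr_m, pr_self G.mr]

lemma pr_hq' : pr r m (hq w d) = 0 := by rw [G.hm, map_mul, pr_self G.mr, zero_mul]

lemma m0 : lin m ≠ 0 := fun h => by simpa [lin_eq_zero h] using G.mr

lemma pr_mu : pr e w μ = μ := by
  have h := G.pr_geo (lin m)
  have h2 := G.pr_pr (mkD d X 0 (lin m) - hq w d * zz w (lin m))
  rw [h, G.pr_m, G.inv, map_mul, G.pr_m] at h2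
  exact mul_left_cancel₀ G.m0 h2

lemma pr_yy (a : MvPolynomial ι K) : pr r m (yy e w d a) = th e r w m d (pr r m a) := by
  have hC : ∀ a, pr r m (yy e w d (C a)) = th e r w m d (pr r m (C a)) := fun a => by
    rw [pr_C, th_C, yy, mkD_C', ps_apply, G.pr_d]
  have hX : ∀ i, i ≠ r → pr r m (yy e w d (X i)) = th e r w m d (pr r m (X i)) := fun i hi => by
    rw [yy, th, pr_X, if_neg hi, sub_zero, mkD_X, mkD_X]
    split_ifs <;> simp [G.pr_hq']
  refine der_ext (pr r m).toRingHom (fun a => pr r m (yy e w d a))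
    (fun a => th e r w m d (pr r m a)) (by simp) (by simp) (by simp) (by simp) hC (fun i => ?_) a
  by_cases hi : i = r
  · have h1 : (X r : MvPolynomial ι K) = lin m - ∑ j ∈ Finset.univ.erase r, C (m j) * X j := by
      rw [lin, ← Finset.add_sum_erase _ _ (Finset.mem_univ r), G.mr]; simp
    rw [hi, h1]
    simp only [map_sub, map_sum, G.inv, map_mul, pr_self G.mr, zero_mul, map_zero,
      Derivation.leibniz, smul_eq_mul, map_add, hC]
    exact congrArg _ (Finset.sum_congr rfl fun j hj => by rw [hX j (Finset.ne_of_mem_erase hj)])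
  · exact hX i hi

lemma th_U (i : ι) : th e r w m d (ps e r w m (X i)) = 0 := by
  rw [ps_apply, ← G.pr_yy, ← G.pr_geo]
  simp [G.pr_hq, G.pr_hq']

lemma th_q (i : ι) : th e r w m d (C (q i)) = ps e r w m (X i) := by
  rw [th_C, G.lin_dq]
  split_ifs <;> simp [G.ps_g]

lemma th_w (i : ι) : 2 * th e r w m d (C (w i)) = C (m i) * ps e r w m (lin m') := by
  have h := pderiv_qd (t := fun i j => d j (w i)) G.sym i
  rw [show qd (fun i j => d j (w i)) = lin m * lin m' from G.hm, Derivation.leibniz, pderiv_lin,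
    pderiv_lin] at h
  have h2 := congrArg (ps e r w m) h
  simp only [map_add, map_mul, smul_eq_mul, G.ps_m, ps_C, map_ofNat, zero_mul, zero_add] at h2
  rw [th_C, ← h2, mul_comm]

lemma th_m (j : ι) : th e r w m d (C (m j)) + ∑ i, C (d j (m i)) * ps e r w m (X i) =
    C (m j) * (ps e r w m μ + ps e r w m (lin m') * C (∑ i, m i * (w i / ∑ l, w l ^ 2))) := by
  have h := G.inv
  have h1 : ∀ i, C (m i) * (if i = e then 0 else -(hq w d * C (w i / ∑ l, w l ^ 2))) =
      -(hq w d * C (m i * (w i / ∑ l, w l ^ 2))) := fun i => by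
    split_ifs with h
    · simp [h, G.me]
    · rw [map_mul]; ring
  rw [yy, mkD_lin, Finset.sum_congr rfl fun i _ => h1 i, Finset.sum_neg_distrib,
    ← Finset.mul_sum, ← map_sum, G.hm] at h
  have h2 := congrArg (fun p => ps e r w m (pderiv j p)) h
  rw [show ∑ i, lin (fun j => d j (m i)) * X i = qd fun i j => d j (m i) from rfl] at h2
  simp only [map_add, map_neg, pderiv_qd', Derivation.leibniz, smul_eq_mul, map_mul, pderiv_lin,
    pderiv_C, G.ps_m, ps_C, zero_mul, mul_zero, zero_add, ← th_C] at h2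
  rw [lin, map_sum] at h2
  simp only [map_mul, ps_C] at h2
  linear_combination h2

omit G in
lemma mk_U {v : ι → K} (hw : ∑ i, w i * v i = 0) (hm : ∑ i, m i * v i = 0) (i : ι) :
    mkDerivation K (fun i => (C (v i) : MvPolynomial ι K)) (ps e r w m (X i)) = C (v i) := by
  have h : ∀ j, mkDerivation K (fun i => (C (v i) : MvPolynomial ι K)) (pr r m (X j)) = C (v j) :=
    fun j => by
      rw [pr_X]
      split_ifs <;> simp [mkDerivation_X, mk_lin, hm]
  rw [ps_apply, pr_X, map_sub, map_sub, h]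
  split_ifs
  · simp [pr_lin, mk_lin, hm, hw]
  · simp

end Sc

namespace Gr

variable {q w : ι → K} {e : ι} {d : ι → Derivation k K K} (G : Gr q e w d)
include G

lemma plane {m : ι → K} (me : m e = 0) (m0 : m ≠ 0) [Infinite K] : ∃ (t : ι → K) (n1 n2 σ : K),
    (∀ i, t i = m i - σ * w i) ∧
    (∀ x y : MvPolynomial ι K, C n1 * x ^ 2 + C n2 * y ^ 2 = 0 → x = 0 ∧ y = 0) ∧
    ∀ j, ∃ v : ι → K, ∑ i, w i * v i = 0 ∧ ∑ i, m i * v i = 0 ∧
      ∀ i, v i = (if i = j then 1 else 0) - n1 * w j * w i - n2 * t j * t i := by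
  obtain ⟨N, hN⟩ : ∃ N, N = ∑ i, w i ^ 2 := ⟨_, rfl⟩
  have N0 : N ≠ 0 := hN ▸ G.nw
  obtain ⟨σ, hσ⟩ : ∃ σ, σ = (∑ i, w i * m i) / N := ⟨_, rfl⟩
  obtain ⟨t, ht⟩ : ∃ t : ι → K, ∀ i, t i = m i - σ * w i := ⟨_, fun _ => rfl⟩
  obtain ⟨M, hM⟩ : ∃ M, M = ∑ i, t i ^ 2 := ⟨_, rfl⟩
  have M0 : M ≠ 0 := fun h => m0 (funext fun i => by
    have h1 := congrFun (G.ani t (hM ▸ h))
    have h2 := h1 e
    rw [ht, me, G.we] at h2
    have h3 := h1 i
    rw [ht] at h3
    simp only [Pi.zero_apply] at h2 h3 ⊢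
    linear_combination h3 - w i * h2)
  have c : ∀ (a b : K) (x y z : ι → K), ∑ i, x i * (a * y i + b * z i) =
      a * ∑ i, x i * y i + b * ∑ i, x i * z i := fun a b x y z => by
    simp only [Finset.mul_sum, ← Finset.sum_add_distrib]
    exact Finset.sum_congr rfl fun i _ => by ring
  have ww : ∑ i, w i * w i = N := by simp only [hN, pow_two]
  have tt : ∑ i, t i * t i = M := by simp only [hM, pow_two]
  have wt : ∑ i, w i * t i = 0 := by
    have := c 1 (-σ) w m w
    rw [ww, hσ, neg_mul, div_mul_cancel₀ _ N0, ← hσ] at this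
    simpa [ht, sub_eq_add_neg] using this
  have tw : ∑ i, t i * w i = 0 := by simpa only [mul_comm] using wt
  have an : ∀ x y : K, N⁻¹ * x ^ 2 + M⁻¹ * y ^ 2 = 0 → x = 0 ∧ y = 0 := fun x y h => by
    have h1 := c (x / N) (y / M) w w t
    have h2 := c (x / N) (y / M) t w t
    have h3 := c (x / N) (y / M) (fun i => x / N * w i + y / M * t i) w t
    simp only [mul_comm (_ + _) (w _), mul_comm (_ + _) (t _), h1, h2, ww, wt, tw, tt, mul_zero,
      add_zero, zero_add, div_mul_cancel₀ _ N0, div_mul_cancel₀ _ M0] at h3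
    have h4 := congrFun (G.ani (fun i => x / N * w i + y / M * t i) (by
      simp only [pow_two, h3]; rw [← h]; ring))
    simp only [Pi.zero_apply] at h4
    simp only [h4, ww, wt, tw, tt, mul_zero, add_zero, zero_add, Finset.sum_const_zero,
      div_mul_cancel₀ _ N0, div_mul_cancel₀ _ M0] at h1 h2
    exact ⟨h1.symm, h2.symm⟩
  refine ⟨t, N⁻¹, M⁻¹, σ, ht, fun x y h => ?_, fun j => ⟨_, ?_, ?_, fun _ => rfl⟩⟩
  · have := fun a : ι → K => an (eval a x) (eval a y) (by simpa using congrArg (eval a) h)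
    exact ⟨funext fun a => (this a).1, funext fun a => (this a).2⟩
  · have := c (N⁻¹ * w j) (M⁻¹ * t j) w w t
    rw [ww, wt] at this
    simp only [sub_sub, mul_sub, Finset.sum_sub_distrib, this]
    simp [mul_right_comm _ (w j), inv_mul_cancel₀ N0]
  · have h1 := c (N⁻¹ * w j) (M⁻¹ * t j) w w t
    have h2 := c (N⁻¹ * w j) (M⁻¹ * t j) t w t
    have h3 : ∀ i, m i = t i + σ * w i := fun i => by rw [ht]; ring
    rw [ww, wt] at h1
    rw [tw, tt] at h2
    simp only [sub_sub, mul_sub, Finset.sum_sub_distrib, h3, add_mul, Finset.sum_add_distrib,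
      mul_assoc σ, ← Finset.mul_sum, h1, h2]
    simp [mul_right_comm _ (w j), mul_right_comm _ (t j), inv_mul_cancel₀ N0, inv_mul_cancel₀ M0]

end Gr

end Pool.Agent.MP_249f74_an.H65
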