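import Pool.Agent.MP_249f74_an.H65.Scr

/-!
Real scrolls: the factor of a reflected line polynomial is constant along the rulings.
-/

open MvPolynomial

namespace Pool.Agent.MP_249f74_an.H65

variable {k K ι : Type} [Field k] [Field K] [Algebra k K] [Fintype ι] [DecidableEq ι]
  [CharZero k] [CharZero K]

/-- The point moving along a line of the ruling. -/
noncomputable def tt (e r : ι) (w m : ι → K) (d : ι → Derivation k K K) :
    MvPolynomial ι K →ₐ[k] PowerSeries (MvPolynomial ι K) := H17.tay (th e r w m d)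

/-- The transversal variation of the moving point. -/
noncomputable def dl (q : ι → K) (e r : ι) (w m : ι → K) (d : ι → Derivation k K K) (i : ι) :
    Polynomial (MvPolynomial ι K) :=
  Polynomial.C (C (d r (q i))) + Polynomial.X * Polynomial.C
    (mkD d (fun j => C (if j = r then 1 else 0)) 0 (ps e r w m (X i)))

/-- The transversal coordinate. -/
noncomputable def la (q : ι → K) (e r : ι) (w m : ι → K) (d : ι → Derivation k K K) :
    PowerSeries (MvPolynomial ι K) :=
  ∑ i, tt e r w m d (C (m i)) * (dl q e r w m d i : PowerSeries (MvPolynomial ι K))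

omit [CharZero K] in
lemma tt_zero (e r : ι) (w m : ι → K) (d : ι → Derivation k K K) (a : MvPolynomial ι K) :
    PowerSeries.constantCoeff (tt e r w m d a) = a := by
  rw [← PowerSeries.coeff_zero_eq_constantCoeff_apply, tt, H17.coeff_tay]; simp

omit [CharZero K] in
lemma tt_der (e r : ι) (w m : ι → K) (d : ι → Derivation k K K) (a : MvPolynomial ι K) :
    PowerSeries.derivative _ (tt e r w m d a) = tt e r w m d (th e r w m d a) := H17.deriv_tay _ a

omit [CharZero K] in
lemma tt_ne {e r : ι} {w m : ι → K} {d : ι → Derivation k K K} {a : MvPolynomial ι K}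
    (h : a ≠ 0) : tt e r w m d a ≠ 0 := fun h0 => h (by rw [← tt_zero e r w m d a, h0, map_zero])

namespace Sc

variable {q w m m' : ι → K} {e r : ι} {d : ι → Derivation k K K} {μ : MvPolynomial ι K}
  (G : Sc q e w d r m m' μ)
include G

omit [CharZero K] in
lemma tt_U (i : ι) : tt e r w m d (ps e r w m (X i)) = PowerSeries.C (ps e r w m (X i)) :=
  H17.tay_const _ (G.th_U i)

lemma tt_q (i : ι) : tt e r w m d (C (q i)) =
    PowerSeries.C (C (q i)) + PowerSeries.X * PowerSeries.C (ps e r w m (X i)) :=
  PowerSeries.derivative.ext (by simp [tt_der, G.th_q, G.tt_U]) (by simp [tt_zero])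

omit [CharZero K] in
lemma tt_lin (a : ι → K) : tt e r w m d (ps e r w m (lin a)) =
    ∑ i, tt e r w m d (C (a i)) * PowerSeries.C (ps e r w m (X i)) := by
  simp only [lin, map_sum, map_mul, ps_C, G.tt_U]

lemma alo (D : Derivation k (MvPolynomial ι K) (MvPolynomial ι K)) :
    ∑ i, tt e r w m d (C (w i)) * (PowerSeries.C (D (C (q i))) +
      PowerSeries.X * PowerSeries.C (D (ps e r w m (X i)))) = 0 ∧
    ∀ a, cw D (tt e r w m d (C a)) = ∑ j, (PowerSeries.C (D (C (q j))) +
      PowerSeries.X * PowerSeries.C (D (ps e r w m (X j)))) * tt e r w m d (C (d j a)) := by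
  have := G.along ((tt e r w m d).toRingHom.comp C)
    ((cw D).comp ((tt e r w m d).toRingHom.comp C).toAddMonoidHom)
    (fun a b => by simp [cw_mul]) fun c => by
      change cw D (tt e r w m d (algebraMap k (MvPolynomial ι K) c)) = 0
      rw [AlgHom.commutes, PowerSeries.algebraMap_apply, cw_C, D.map_algebraMap, map_zero]
  simpa [G.tt_q, cw_mul, cw_C, cw_X] using this

omit G [CharZero k] [CharZero K] in
lemma mkD_r (a : K) : mkD d (fun j => C (if j = r then 1 else 0)) 0 (C a) = C (d r a) := by
  rw [mkD_C, aeval_lin]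
  simp [apply_ite]

omit G [CharZero k] [CharZero K] in
lemma dl_coe (i : ι) : (dl q e r w m d i : PowerSeries (MvPolynomial ι K)) =
    PowerSeries.C (mkD d (fun j => C (if j = r then 1 else 0)) 0 (C (q i))) + PowerSeries.X *
      PowerSeries.C (mkD d (fun j => C (if j = r then 1 else 0)) 0 (ps e r w m (X i))) := by
  simp only [dl, Polynomial.coe_add, Polynomial.coe_mul, Polynomial.coe_C, Polynomial.coe_X, mkD_r]

lemma om_dl : ∑ i, tt e r w m d (C (w i)) *
    (dl q e r w m d i : PowerSeries (MvPolynomial ι K)) = 0 := by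
  simp only [dl_coe, (G.alo _).1]

omit [CharZero K] in
lemma om_der (i : ι) : 2 * PowerSeries.derivative _ (tt e r w m d (C (w i))) =
    tt e r w m d (C (m i)) * tt e r w m d (ps e r w m (lin m')) := by
  rw [tt_der, ← map_mul, ← G.th_w, map_mul, map_ofNat]

omit [CharZero K] in
lemma lam_zero : PowerSeries.constantCoeff (la q e r w m d) = 1 := by
  simp only [la, map_sum, map_mul, tt_zero, dl_coe, map_add, PowerSeries.constantCoeff_C,
    PowerSeries.constantCoeff_X, zero_mul, add_zero, mkD_r]
  simp only [← map_mul, ← map_sum]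
  simp [G.dq, mul_sub, G.mr, G.me]

/-- The equation of the transversal coordinate. -/
theorem lam_der (hs : ¬ lin m ∣ lin m') : ∃ (n1 n2 a1 b1 : MvPolynomial ι K)
    (N : Polynomial (MvPolynomial ι K)), (∀ x y, n1 * x ^ 2 + n2 * y ^ 2 = 0 → x = 0 ∧ y = 0) ∧
    a1 ≠ 0 ∧ N = Polynomial.C n1 * (Polynomial.X * Polynomial.C a1) ^ 2 +
      Polynomial.C n2 * (1 + Polynomial.X * Polynomial.C b1) ^ 2 ∧
    (PowerSeries.derivative _ (la q e r w m d) -
      la q e r w m d * tt e r w m d (ps e r w m μ)) * (N : PowerSeries (MvPolynomial ι K)) =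
      la q e r w m d * ((Polynomial.derivative N : Polynomial (MvPolynomial ι K)) :
        PowerSeries (MvPolynomial ι K)) := by
  obtain ⟨t, n1, n2, σ, ht, an, hv⟩ := G.plane G.me fun h => by simpa [h] using G.mr
  have me' : m' e = 0 := by
    have h := G.pr_hq
    rw [G.hm, map_mul, G.pr_m, pr_lin] at h
    have h2 : C (m' e) * lin w = 0 := by linear_combination -mul_left_cancel₀ G.m0 h
    simpa [G.g_prime.ne_zero] using h2
  have s0 : ps e r w m (lin m') ≠ 0 := by
    rwa [ps_apply, pr_lin, me', map_zero, zero_mul, sub_zero, Ne, pr_zero_iff G.mr]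
  have h1 := G.om_dl
  have h2 := G.om_der
  have h3 := fun j => congrArg (tt e r w m d) (G.th_m j)
  have h4 := congrArg (cw (mkD d (fun j => C (if j = r then 1 else 0)) 0)) (G.tt_lin m)
  have h5 := (G.alo (mkD d (fun j => C (if j = r then 1 else 0)) 0)).2
  have h6 : ∀ i, PowerSeries.derivative _ (dl q e r w m d i : PowerSeries (MvPolynomial ι K)) =
      PowerSeries.C (mkD d (fun j => C (if j = r then 1 else 0)) 0 (ps e r w m (X i))) :=
    fun i => by
      rw [dl_coe, map_add, Derivation.leibniz, PowerSeries.derivative_C, PowerSeries.derivative_C,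
        PowerSeries.derivative_X, smul_zero, zero_add, zero_add, smul_eq_mul, mul_one]
  have nw : ∑ i, w i * w i ≠ 0 := by simpa only [pow_two] using G.nw
  have h7 : tt e r w m d (C (∑ i, m i * (w i / ∑ l, w l ^ 2))) *
      ∑ i, tt e r w m d (C (w i)) * tt e r w m d (C (w i)) =
      ∑ i, tt e r w m d (C (m i)) * tt e r w m d (C (w i)) := by
    simp only [← map_mul, ← map_sum, ← mul_div_assoc, ← Finset.sum_div, pow_two,
      div_mul_cancel₀ _ nw]
  have h8 : ∑ i, tt e r w m d (C (w i)) * tt e r w m d (C (w i)) ≠ 0 := by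
    simp only [← map_mul, ← map_sum]
    exact tt_ne (by rwa [Ne, C_eq_zero])
  have h9 : ∀ v : ι → K, ∑ i, w i * v i = 0 → ∑ i, m i * v i = 0 →
      ∑ i, tt e r w m d (C (w i)) * PowerSeries.C (C (v i)) = 0 ∧
      ∑ i, tt e r w m d (C (m i)) * PowerSeries.C (C (v i)) = 0 := fun v hw hm => by
    have h := (G.alo ((mkDerivation K fun i => (C (v i) : MvPolynomial ι K)).restrictScalars k)).1
    simp only [Derivation.restrictScalars_apply, derivation_C, map_zero, zero_add, mk_U hw hm,
      mul_left_comm _ PowerSeries.X, ← Finset.mul_sum] at h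
    have h' := (mul_eq_zero.1 h).resolve_left PowerSeries.X_ne_zero
    refine ⟨h', (mul_eq_zero.1 ?_).resolve_left (tt_ne (d := d) (w := w) (m := m) (e := e)
      (r := r) s0)⟩
    have := congrArg (fun x => 2 * PowerSeries.derivative _ x) h'
    simp only [map_sum, Derivation.leibniz, PowerSeries.derivative_C, zero_add,
      smul_eq_mul, Finset.mul_sum, map_zero, mul_zero] at this
    rw [← this, Finset.mul_sum]
    exact Finset.sum_congr rfl fun i _ => by
      linear_combination -PowerSeries.C (C (v i)) * h2 i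
  have z1 := G.lam_zero
  rw [la] at z1 ⊢
  have z2 : ∀ i, (dl q e r w m d i : PowerSeries (MvPolynomial ι K)) =
      PowerSeries.C (C (d r (q i))) + PowerSeries.X * PowerSeries.C
        (mkD d (fun j => C (if j = r then 1 else 0)) 0 (ps e r w m (X i))) := fun i => by
    rw [dl_coe, mkD_r]
  have z3 := tt_zero e r w m d
  simp only [map_add, map_sum _ (fun i => C (d _ (m i)) * _), map_mul, G.tt_U, ← tt_der] at h3
  simp only [G.ps_m, map_zero, map_sum, cw_mul, cw_C, Finset.sum_add_distrib, h5,
    ← dl_coe] at h4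
  generalize tt e r w m d (ps e r w m μ) = M at *
  generalize tt e r w m d (C (∑ i, m i * (w i / ∑ l, w l ^ 2))) = S at *
  have z4 := z3 (ps e r w m (lin m'))
  generalize tt e r w m d (ps e r w m (lin m')) = s at *
  obtain ⟨y, hy⟩ : ∃ y : ι → MvPolynomial ι K, ∀ i,
    mkD d (fun j => C (if j = r then 1 else 0)) 0 (ps e r w m (X i)) = y i := ⟨_, fun _ => rfl⟩
  obtain ⟨δ, hδ⟩ : ∃ δ : ι → PowerSeries (MvPolynomial ι K), ∀ i,
    (dl q e r w m d i : PowerSeries (MvPolynomial ι K)) = δ i := ⟨_, fun _ => rfl⟩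
  obtain ⟨ω, hω⟩ : ∃ ω : ι → PowerSeries (MvPolynomial ι K), ∀ i,
    tt e r w m d (C (w i)) = ω i := ⟨_, fun _ => rfl⟩
  obtain ⟨η, hη⟩ : ∃ η : ι → PowerSeries (MvPolynomial ι K), ∀ i,
    tt e r w m d (C (m i)) = η i := ⟨_, fun _ => rfl⟩
  have z5 : ∀ i, PowerSeries.constantCoeff (ω i) = C (w i) := fun i => by rw [← hω, z3]
  simp only [hy, hδ, hω, hη] at *
  have dot : ∀ x : ι → PowerSeries (MvPolynomial ι K), (∀ v : ι → K, ∑ i, w i * v i = 0 →
      ∑ i, m i * v i = 0 → ∑ i, x i * PowerSeries.C (C (v i)) = 0) → ∀ z : ι → _,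
      ∑ i, x i * z i = PowerSeries.C (C n1) * (∑ i, x i * PowerSeries.C (C (w i))) *
        (∑ i, z i * PowerSeries.C (C (w i))) + PowerSeries.C (C n2) *
        (∑ i, x i * PowerSeries.C (C (t i))) * ∑ i, z i * PowerSeries.C (C (t i)) :=
    fun x hx z => by
      rw [Finset.mul_sum _ (fun i => z i * _), Finset.mul_sum _ (fun i => z i * _),
        ← Finset.sum_add_distrib]
      refine Finset.sum_congr rfl fun j _ => ?_
      obtain ⟨v, v1, v2, v3⟩ := hv j
      have := hx v v1 v2
      simp only [v3, map_sub, map_mul, mul_sub, Finset.sum_sub_distrib, apply_ite, map_one,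
        map_zero, mul_one, mul_zero, Finset.sum_ite_eq', Finset.mem_univ, if_true,
        mul_left_comm (x _), ← Finset.mul_sum] at this
      linear_combination z j * this
  have dw := dot ω fun v a b => (h9 v a b).1
  have dm := dot η fun v a b => (h9 v a b).2
  have a0 : ∑ i, δ i * PowerSeries.C (C (w i)) =
      PowerSeries.X * ∑ i, PowerSeries.C (y i) * PowerSeries.C (C (w i)) := by
    have := congrArg (fun x => (PowerSeries.C (C x) : PowerSeries (MvPolynomial ι K)))
      (G.tan (d r))
    simp only [map_sum, map_mul, map_zero] at this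
    simp only [z2, add_mul, Finset.sum_add_distrib, mul_assoc, ← Finset.mul_sum,
      mul_comm (PowerSeries.C (C (d r _))), this, zero_add]
  have b0 : ∑ i, δ i * PowerSeries.C (C (t i)) =
      1 + PowerSeries.X * ∑ i, PowerSeries.C (y i) * PowerSeries.C (C (t i)) := by
    have h : ∑ i, d r (q i) * t i = 1 := by
      simp only [ht, mul_sub, Finset.sum_sub_distrib]
      simp [G.dq, sub_mul, G.mr, G.me, G.we, mul_comm σ]
    have := congrArg (fun x => (PowerSeries.C (C x) : PowerSeries (MvPolynomial ι K))) h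
    simp only [map_sum, map_mul, map_one] at this
    simp only [z2, add_mul, Finset.sum_add_distrib, mul_assoc, ← Finset.mul_sum, this]
  have e1 : (∑ i, η i * δ i) * s + 2 * ∑ i, ω i * PowerSeries.C (y i) = 0 := by
    have := congrArg (fun x => 2 * PowerSeries.derivative _ x) h1
    simp only [map_sum, Derivation.leibniz, smul_eq_mul, h6, Finset.mul_sum, map_zero,
      mul_zero] at this
    rw [← this, Finset.sum_mul, Finset.mul_sum, ← Finset.sum_add_distrib]
    exact Finset.sum_congr rfl fun i _ => by linear_combination -δ i * h2 i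
  have e2 : PowerSeries.derivative _ (∑ i, η i * δ i) =
      (∑ i, η i * δ i) * (M + s * S) + 2 * ∑ i, η i * PowerSeries.C (y i) := by
    have h : ∑ j, δ j * PowerSeries.derivative _ (η j) + ∑ i, PowerSeries.C (ps e r w m (X i)) *
        ∑ j, δ j * tt e r w m d (C (d j (m i))) = (∑ i, η i * δ i) * (M + s * S) := by
      simp only [Finset.mul_sum, Finset.sum_mul]
      rw [Finset.sum_comm, ← Finset.sum_add_distrib]
      refine Finset.sum_congr rfl fun j _ => ?_
      rw [mul_right_comm, ← h3, add_mul, Finset.sum_mul, mul_comm]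
      exact congrArg _ (Finset.sum_congr rfl fun i _ => by ring)
    simp only [map_sum, Derivation.leibniz, smul_eq_mul, h6, Finset.sum_add_distrib]
    linear_combination h + h4
  refine ⟨C n1, C n2, ∑ i, y i * C (w i), ∑ i, y i * C (t i), _, an, fun h => s0 ?_, rfl, ?_⟩
  · have := congrArg PowerSeries.constantCoeff e1
    rw [map_add, map_mul, z1, z4, map_mul, map_sum] at this
    simpa [z5, mul_comm (C (w _)), h] using this
  · refine mul_right_cancel₀ h8 ?_
    have g := gram (e1 := ∑ i, η i * PowerSeries.C (C (w i)))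
      (e2 := ∑ i, η i * PowerSeries.C (C (t i)))
      (a1 := ∑ i, PowerSeries.C (y i) * PowerSeries.C (C (w i)))
      (b1 := ∑ i, PowerSeries.C (y i) * PowerSeries.C (C (t i))) ((dw δ).symm.trans h1)
    rw [← dm, ← dm, ← dm, ← dw, ← dw, a0, b0] at g
    simp only [Polynomial.derivative_add, Polynomial.derivative_mul, Polynomial.derivative_C,
      Polynomial.derivative_X, Polynomial.derivative_one, Polynomial.derivative_sq,
      Polynomial.coe_add, Polynomial.coe_mul, Polynomial.coe_pow, Polynomial.coe_C,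
      Polynomial.coe_X, Polynomial.coe_one, Polynomial.coe_zero, map_ofNat]
    have c2 : ((2 : Polynomial (MvPolynomial ι K)) : PowerSeries (MvPolynomial ι K)) = 2 :=
      map_ofNat Polynomial.coeToPowerSeries.ringHom 2
    simp only [map_sum (PowerSeries.C), map_mul (PowerSeries.C), e2, c2]
    generalize ∑ i, PowerSeries.C (y i) * PowerSeries.C (C (w i)) = a1 at *
    generalize ∑ i, PowerSeries.C (y i) * PowerSeries.C (C (t i)) = b1 at *
    linear_combination 2 * g + (PowerSeries.C (C n1) * (PowerSeries.X * a1) ^ 2 +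
      PowerSeries.C (C n2) * (1 + PowerSeries.X * b1) ^ 2) *
      ((∑ i, η i * δ i) * s * h7 + (∑ i, η i * ω i) * e1)

end Sc

end Pool.Agent.MP_249f74_an.H65
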