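import Pool.Agent.MP_249f74_an.H65.Cl
import Pool.Agent.MP_249f74_an.H58.Pre
import Pool.Agent.MP_249f74_an.H18.Top0
import Pool.Agent.MP_249f74_an.H23.Conf
import Pool.Agent.MP_249f74_an.H74.Bert
import Pool.Agent.MP_249f74_an.H53.V3e
import Pool.Agent.MP_249f74_an.H78.Spl

/-!
Reduced chains of reflections do not close up, given the two statements in rank one.
-/

namespace Pool.Agent.MP_249f74_an.H65

variable {k B ι : Type} [Field k] [Algebra k ℝ] [Field B] [Algebra k B] [Fintype ι]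
  [DecidableEq ι] [IsAlgClosed B] [CharZero B]

omit [CharZero B] in
theorem one (hS : H18.SELF k B ι) (hR : RONE k ι) :
    H18.All k B ι fun Ω _ _ => H18.ONE k B Ω ι := by
  intro Ω _ _ _ _ _ hf _ hs m J l l' t x r hm hl st x0 hx hr e
  obtain ⟨F, h, s, a1, a2, a3, a4, a5, a6, a7, a8⟩ := H58.pre hf hs hl st x0 hx hr e
  exact ⟨_, a4, a3.map, iv_of_sq hS hR hm hl st a1 a2 a3 a4 a7 a8, a5, a6⟩

theorem fin [Nontrivial ι] (hS : H18.SELF k B ι) (hR : RONE k ι) : H72.Fin' k B ι :=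
  H18.fin_b (fun _ _ _ _ _ _ _ hl _ => inv hl) hS (one hS hR) H23.conf H74.bert H53.two
    fun _ _ _ _ _ _ _ _ _ => H78.spl

end Pool.Agent.MP_249f74_an.H65
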